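import Pool.Agent.Helper980.C35Sym
set_option autoImplicit false
namespace Pool.Agent.Helper980.C35

abbrev H := ZMod 5 × ZMod 7

/-- `δ_0 + 2 s` -/
def mu {K : Type} [Zero K] [DecidableEq K] (s : K → Fin 4 → ℤ) (x : K) (i : Fin 4) : ℤ :=
  (if x = 0 then 1 else 0) + 2 * s x i

/-- vector valued solutions -/
structure Sol (K : Type) [AddCommGroup K] [DecidableEq K] [Fintype K] (s : K → Fin 4 → ℤ) : Prop where
  zero : ∀ i, s 0 i = 0
  symm : ∀ x i, s (-x) i = s x i
  unit : ∀ x, x ≠ 0 → ∃ j : Fin 4, ∃ e : ℤ, (e = 1 ∨ e = -1) ∧ ∀ i, s x i = if i = j then e else 0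
  corr : ∀ x, ∑ i, ∑ y, mu s (x + y) i * mu s y i = if x = 0 then 140 else 0

theorem Sol.transport {K K' : Type} [AddCommGroup K] [DecidableEq K] [Fintype K]
    [AddCommGroup K'] [DecidableEq K'] [Fintype K'] (e : K' ≃+ K) {s : K → Fin 4 → ℤ}
    (h : Sol K s) : Sol K' (fun x i => s (e x) i) := by
  have hmu : ∀ x i, mu (fun x i => s (e x) i) x i = mu s (e x) i := by
    intro x i
    simp [mu]
  refine ⟨?_, ?_, ?_, ?_⟩
  · intro i; simp [h.zero]
  · intro x i; simp [h.symm]
  · intro x hx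
    exact h.unit (e x) (by simpa using hx)
  · intro x
    simp only [hmu, map_add]
    have h1 := h.corr (e x)
    have h2 : (if e x = 0 then (140 : ℤ) else 0) = if x = 0 then 140 else 0 := by simp
    rw [← h2, ← h1]
    apply Finset.sum_congr rfl
    intro i _
    exact Equiv.sum_comp e.toEquiv (fun y => mu s (e x + y) i * mu s y i)

theorem Sol.perm {K : Type} [AddCommGroup K] [DecidableEq K] [Fintype K] {s : K → Fin 4 → ℤ}
    (h : Sol K s) (σ : Equiv.Perm (Fin 4)) : Sol K (fun x i => s x (σ i)) := by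
  refine ⟨?_, ?_, ?_, ?_⟩
  · intro i; exact h.zero _
  · intro x i; exact h.symm _ _
  · intro x hx
    obtain ⟨j, e, he, hj⟩ := h.unit x hx
    refine ⟨σ.symm j, e, he, ?_⟩
    intro i
    rw [hj]
    simp [Equiv.eq_symm_apply]
  · intro x
    rw [← h.corr x]
    have h1 : ∀ y i, mu (fun x i => s x (σ i)) y i = mu s y (σ i) := fun _ _ => rfl
    simp only [h1]
    exact Equiv.sum_comp σ (fun i => ∑ y, mu s (x + y) i * mu s y i)

theorem exists_norm {a : Fin 4 → G → ℤ} (h : Quad a) :
    ∃ a' : Fin 4 → G → ℤ, Quad a' ∧ (∀ i x, a' i (-x) = a' i x) ∧ ∀ i, a' i 0 = 1 := by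
  obtain ⟨g0, hg⟩ := shift h
  set h0 : G := 18 * g0 with hh0
  have h20 : h0 + h0 = g0 := by
    rw [hh0, ← add_mul]
    have : (18 : G) + 18 = 1 := by decide
    rw [this, one_mul]
  have hsq : ∀ i x, a i x * a i x = 1 := by
    intro i x
    rcases h.pm i x with h1 | h1 <;> rw [h1] <;> norm_num
  refine ⟨fun i x => a i (h0 + x) * a i h0, ⟨?_, ?_, ?_⟩, ?_, ?_⟩
  · intro i x
    rcases h.pm i (h0 + x) with h1 | h1 <;> rcases h.pm i h0 with h2 | h2 <;> simp [h1, h2]
  · intro i j x
    have e1 : ∀ i j : Fin 4, ∑ y, a i (h0 + (x + y)) * a i h0 * (a j (h0 + y) * a j h0) =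
        a i h0 * a j h0 * ∑ y, a i (x + y) * a j y := by
      intro i j
      rw [Finset.mul_sum, ← Equiv.sum_comp (Equiv.addLeft h0) (fun y => a i h0 * a j h0 * (a i (x + y) * a j y))]
      apply Finset.sum_congr rfl
      intro y _
      simp only [Equiv.coe_addLeft]
      have : x + (h0 + y) = h0 + (x + y) := by ring
      rw [this]; ring
    rw [e1, e1, h.am i j x]; ring
  · intro x
    rw [← h.ac x]
    apply Finset.sum_congr rfl
    intro i _
    rw [← Equiv.sum_comp (Equiv.addLeft h0) (fun y => a i (x + y) * a i y)]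
    apply Finset.sum_congr rfl
    intro y _
    simp only [Equiv.coe_addLeft]
    have : x + (h0 + y) = h0 + (x + y) := by ring
    rw [this]
    linear_combination (a i (h0 + (x + y)) * a i (h0 + y)) * hsq i h0
  · intro i x
    simp only
    rw [← hg i (h0 + x)]
    have : g0 - (h0 + x) = h0 + -x := by rw [← h20]; ring
    rw [this]
  · intro i
    simp only [add_zero]
    exact hsq i h0

theorem exists_solG {a : Fin 4 → G → ℤ} (h0 : Quad a) : ∃ s, Sol G s := by
  obtain ⟨a, h, hsym, hone⟩ := exists_norm h0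
  have hb : ∀ i x, ∃ b : ℤ, a i x = 1 - 2 * b := by
    intro i x
    rcases h.pm i x with h1 | h1
    · exact ⟨0, by rw [h1]; norm_num⟩
    · exact ⟨1, by rw [h1]; norm_num⟩
  choose b hb using hb
  have hb01 : ∀ i x, b i x = 0 ∨ b i x = 1 := by
    intro i x
    have := hb i x
    rcases h.pm i x with h1 | h1
    · left; omega
    · right; omega
  have hb0 : ∀ i, b i 0 = 0 := by
    intro i
    have := hb i 0
    rw [hone] at this; omega
  have hodd := odd_minus h hsym b hb hb0
  have hbs : ∀ i y, b i (-y) = b i y := by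
    intro i y
    have e1 := hsym i y
    rw [hb, hb] at e1
    linarith
  set B : G → ℤ := fun x => b 0 x + b 1 x + b 2 x + b 3 x with hB
  refine ⟨fun x i => if x = 0 then 0 else (1 - B x) / 2 + b i x, ?_⟩
  have hmu : ∀ x i, mu (fun x i => if x = 0 then 0 else (1 - B x) / 2 + b i x) x i = 1 - B x + 2 * b i x := by
    intro x i
    unfold mu
    by_cases hx : x = 0
    · subst hx
      simp [hB, hb0]
    · have := hodd x hx
      simp only [if_neg hx, hB]
      omega
  refine ⟨?_, ?_, ?_, ?_⟩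
  · intro i; simp
  · intro x i
    simp only [hB, hbs, neg_eq_zero]
  · intro x hx
    have h1 := hodd x hx
    simp only [if_neg hx, hB]
    rcases hb01 0 x with e0 | e0 <;> rcases hb01 1 x with e1 | e1 <;> rcases hb01 2 x with e2 | e2 <;>
      rcases hb01 3 x with e3 | e3 <;> rw [e0, e1, e2, e3] at h1 <;>
      first
      | (exfalso; revert h1; decide)
      | (refine ⟨0, 1, Or.inl rfl, ?_⟩; intro i; fin_cases i <;> simp [e0, e1, e2, e3]; done)
      | (refine ⟨1, 1, Or.inl rfl, ?_⟩; intro i; fin_cases i <;> simp [e0, e1, e2, e3]; done)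
      | (refine ⟨2, 1, Or.inl rfl, ?_⟩; intro i; fin_cases i <;> simp [e0, e1, e2, e3]; done)
      | (refine ⟨3, 1, Or.inl rfl, ?_⟩; intro i; fin_cases i <;> simp [e0, e1, e2, e3]; done)
      | (refine ⟨0, -1, Or.inr rfl, ?_⟩; intro i; fin_cases i <;> simp [e0, e1, e2, e3]; done)
      | (refine ⟨1, -1, Or.inr rfl, ?_⟩; intro i; fin_cases i <;> simp [e0, e1, e2, e3]; done)
      | (refine ⟨2, -1, Or.inr rfl, ?_⟩; intro i; fin_cases i <;> simp [e0, e1, e2, e3]; done)
      | (refine ⟨3, -1, Or.inr rfl, ?_⟩; intro i; fin_cases i <;> simp [e0, e1, e2, e3]; done)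
  · intro x
    rw [← h.ac x]
    simp only [hmu]
    rw [Finset.sum_comm]
    conv_rhs => rw [Finset.sum_comm]
    apply Finset.sum_congr rfl
    intro y _
    simp only [Fin.sum_univ_four, hb, hB]
    ring

theorem exists_sol {a : Fin 4 → G → ℤ} (h0 : Quad a) : ∃ s, Sol H s := by
  obtain ⟨s, hs⟩ := exists_solG h0
  have e : ZMod 35 ≃+* ZMod 5 × ZMod 7 := ZMod.chineseRemainder (m := 5) (n := 7) (by norm_num)
  exact ⟨_, hs.transport e.symm.toAddEquiv⟩

end Pool.Agent.Helper980.C35
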