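import Pool.Agent.Helper980.W35Sound9
import Pool.Agent.Helper980.C35Sol
set_option autoImplicit false
namespace Pool.Agent.Helper980.C35
open Pool.Agent.Helper980.W35

theorem mu_symm {K : Type} [AddCommGroup K] [DecidableEq K] [Fintype K] {s : K → Fin 4 → ℤ}
    (h : Sol K s) (x : K) (i : Fin 4) : mu s (-x) i = mu s x i := by
  unfold mu; rw [h.symm]; simp

theorem ev_gen {K : Type} [AddCommGroup K] [DecidableEq K] [Fintype K] {s : K → Fin 4 → ℤ}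
    (h : Sol K s) {A : Type} [CommRing A] (χ : K → A) (hadd : ∀ x y, χ (x + y) = χ x * χ y)
    (h0 : χ 0 = 1) : ∑ i, (∑ x, (mu s x i : A) * χ x) ^ 2 = 140 := by
  have key : ∀ i, (∑ x, (mu s x i : A) * χ x) ^ 2 =
      ∑ x, χ x * ((∑ y, mu s (x + y) i * mu s y i : ℤ) : A) := by
    intro i
    symm
    have e1 : ∀ x, χ x * ((∑ y, mu s (x + y) i * mu s y i : ℤ) : A) =
        ∑ y, ((mu s (x + y) i : A) * χ (x + y)) * ((mu s y i : A) * χ (-y)) := by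
      intro x
      push_cast
      rw [Finset.mul_sum]
      apply Finset.sum_congr rfl
      intro y _
      have e2 : χ (x + y) * χ (-y) = χ x := by
        rw [← hadd]; congr 1; abel
      linear_combination (-(mu s (x + y) i : A) * mu s y i) * e2
    simp only [e1]
    rw [Finset.sum_comm]
    have e3 : ∀ y, ∑ x, ((mu s (x + y) i : A) * χ (x + y)) * ((mu s y i : A) * χ (-y)) =
        (∑ x, (mu s x i : A) * χ x) * ((mu s y i : A) * χ (-y)) := by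
      intro y
      rw [← Finset.sum_mul]
      congr 1
      exact Equiv.sum_comp (Equiv.addRight y) (fun x => (mu s x i : A) * χ x)
    simp only [e3]
    rw [← Finset.mul_sum, pow_two]
    congr 1
    rw [← Equiv.sum_comp (Equiv.neg K) (fun x => (mu s x i : A) * χ x)]
    apply Finset.sum_congr rfl
    intro y _
    simp only [Equiv.neg_apply, mu_symm h]
  simp only [key]
  rw [Finset.sum_comm]
  have e4 : ∀ x, ∑ i, χ x * ((∑ y, mu s (x + y) i * mu s y i : ℤ) : A) =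
      χ x * ((if x = 0 then (140 : ℤ) else 0 : ℤ) : A) := by
    intro x
    rw [← h.corr x, ← Finset.mul_sum]
    push_cast
    rfl
  simp only [e4]
  rw [Finset.sum_eq_single 0]
  · simp [h0]
  · intro x _ hx; simp [hx]
  · intro hh; exact absurd (Finset.mem_univ _) hh

theorem sum5 {A : Type} [AddCommMonoid A] (g : ZMod 5 → A) : ∑ a, g a = g 0 + g 1 + g 2 + g 3 + g 4 :=
  Fin.sum_univ_five g
theorem sum7 {A : Type} [AddCommMonoid A] (g : ZMod 7 → A) :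
    ∑ a, g a = g 0 + g 1 + g 2 + g 3 + g 4 + g 5 + g 6 := Fin.sum_univ_seven g

/-- values at the 35 points in terms of the 17 representatives -/
structure Vals (s : H → Fin 4 → ℤ) (v : Fin 17 → Fin 8) : Prop where
  p0 : ∀ i, mu s (1, 0) i = 2 * ((uv (v 0) i : ℤ) - 1)
  m0 : ∀ i, mu s (4, 0) i = 2 * ((uv (v 0) i : ℤ) - 1)
  p1 : ∀ i, mu s (2, 0) i = 2 * ((uv (v 1) i : ℤ) - 1)
  m1 : ∀ i, mu s (3, 0) i = 2 * ((uv (v 1) i : ℤ) - 1)
  p2 : ∀ i, mu s (0, 1) i = 2 * ((uv (v 2) i : ℤ) - 1)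
  m2 : ∀ i, mu s (0, 6) i = 2 * ((uv (v 2) i : ℤ) - 1)
  p3 : ∀ i, mu s (0, 2) i = 2 * ((uv (v 3) i : ℤ) - 1)
  m3 : ∀ i, mu s (0, 5) i = 2 * ((uv (v 3) i : ℤ) - 1)
  p4 : ∀ i, mu s (0, 3) i = 2 * ((uv (v 4) i : ℤ) - 1)
  m4 : ∀ i, mu s (0, 4) i = 2 * ((uv (v 4) i : ℤ) - 1)
  p5 : ∀ i, mu s (1, 1) i = 2 * ((uv (v 5) i : ℤ) - 1)
  m5 : ∀ i, mu s (4, 6) i = 2 * ((uv (v 5) i : ℤ) - 1)
  p6 : ∀ i, mu s (1, 6) i = 2 * ((uv (v 6) i : ℤ) - 1)
  m6 : ∀ i, mu s (4, 1) i = 2 * ((uv (v 6) i : ℤ) - 1)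
  p7 : ∀ i, mu s (2, 1) i = 2 * ((uv (v 7) i : ℤ) - 1)
  m7 : ∀ i, mu s (3, 6) i = 2 * ((uv (v 7) i : ℤ) - 1)
  p8 : ∀ i, mu s (2, 6) i = 2 * ((uv (v 8) i : ℤ) - 1)
  m8 : ∀ i, mu s (3, 1) i = 2 * ((uv (v 8) i : ℤ) - 1)
  p9 : ∀ i, mu s (1, 2) i = 2 * ((uv (v 9) i : ℤ) - 1)
  m9 : ∀ i, mu s (4, 5) i = 2 * ((uv (v 9) i : ℤ) - 1)
  p10 : ∀ i, mu s (1, 5) i = 2 * ((uv (v 10) i : ℤ) - 1)
  m10 : ∀ i, mu s (4, 2) i = 2 * ((uv (v 10) i : ℤ) - 1)
  p11 : ∀ i, mu s (2, 2) i = 2 * ((uv (v 11) i : ℤ) - 1)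
  m11 : ∀ i, mu s (3, 5) i = 2 * ((uv (v 11) i : ℤ) - 1)
  p12 : ∀ i, mu s (2, 5) i = 2 * ((uv (v 12) i : ℤ) - 1)
  m12 : ∀ i, mu s (3, 2) i = 2 * ((uv (v 12) i : ℤ) - 1)
  p13 : ∀ i, mu s (1, 3) i = 2 * ((uv (v 13) i : ℤ) - 1)
  m13 : ∀ i, mu s (4, 4) i = 2 * ((uv (v 13) i : ℤ) - 1)
  p14 : ∀ i, mu s (1, 4) i = 2 * ((uv (v 14) i : ℤ) - 1)
  m14 : ∀ i, mu s (4, 3) i = 2 * ((uv (v 14) i : ℤ) - 1)
  p15 : ∀ i, mu s (2, 3) i = 2 * ((uv (v 15) i : ℤ) - 1)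
  m15 : ∀ i, mu s (3, 4) i = 2 * ((uv (v 15) i : ℤ) - 1)
  p16 : ∀ i, mu s (2, 4) i = 2 * ((uv (v 16) i : ℤ) - 1)
  m16 : ∀ i, mu s (3, 3) i = 2 * ((uv (v 16) i : ℤ) - 1)
  z : ∀ i, mu s (0, 0) i = 1

theorem unit_uv (j : Fin 4) (e : ℤ) (he : e = 1 ∨ e = -1) :
    ∃ a : Fin 8, ∀ i, (uv a i : ℤ) = (if i = j then e else 0) + 1 := by
  rcases he with rfl | rfl
  · refine ⟨⟨2 * j.val, by omega⟩, ?_⟩
    revert j; decide
  · refine ⟨⟨2 * j.val + 1, by omega⟩, ?_⟩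
    revert j; decide

theorem exists_vals {s : H → Fin 4 → ℤ} (h : Sol H s) : ∃ v, Vals s v := by
  have hun : ∀ x : H, x ≠ 0 → ∃ a : Fin 8, ∀ i, s x i = (uv a i : ℤ) - 1 := by
    intro x hx
    obtain ⟨j, e, he, hj⟩ := h.unit x hx
    obtain ⟨a, ha⟩ := unit_uv j e he
    refine ⟨a, fun i => ?_⟩
    rw [hj, ha]; ring
  have hm : ∀ x : H, x ≠ 0 → ∀ i, mu s x i = 2 * s x i := by
    intro x hx i
    unfold mu; rw [if_neg hx]; ring
  obtain ⟨a0, q0⟩ := hun (1, 0) (by decide)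
  obtain ⟨a1, q1⟩ := hun (2, 0) (by decide)
  obtain ⟨a2, q2⟩ := hun (0, 1) (by decide)
  obtain ⟨a3, q3⟩ := hun (0, 2) (by decide)
  obtain ⟨a4, q4⟩ := hun (0, 3) (by decide)
  obtain ⟨a5, q5⟩ := hun (1, 1) (by decide)
  obtain ⟨a6, q6⟩ := hun (1, 6) (by decide)
  obtain ⟨a7, q7⟩ := hun (2, 1) (by decide)
  obtain ⟨a8, q8⟩ := hun (2, 6) (by decide)
  obtain ⟨a9, q9⟩ := hun (1, 2) (by decide)
  obtain ⟨a10, q10⟩ := hun (1, 5) (by decide)
  obtain ⟨a11, q11⟩ := hun (2, 2) (by decide)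
  obtain ⟨a12, q12⟩ := hun (2, 5) (by decide)
  obtain ⟨a13, q13⟩ := hun (1, 3) (by decide)
  obtain ⟨a14, q14⟩ := hun (1, 4) (by decide)
  obtain ⟨a15, q15⟩ := hun (2, 3) (by decide)
  obtain ⟨a16, q16⟩ := hun (2, 4) (by decide)
  refine ⟨![a0, a1, a2, a3, a4, a5, a6, a7, a8, a9, a10, a11, a12, a13, a14, a15, a16], ?_⟩
  constructor
  · intro i; rw [hm _ (by decide), q0]; rfl
  · intro i; rw [hm _ (by decide), show ((4, 0) : H) = -(1, 0) from by decide, h.symm, q0]; rfl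
  · intro i; rw [hm _ (by decide), q1]; rfl
  · intro i; rw [hm _ (by decide), show ((3, 0) : H) = -(2, 0) from by decide, h.symm, q1]; rfl
  · intro i; rw [hm _ (by decide), q2]; rfl
  · intro i; rw [hm _ (by decide), show ((0, 6) : H) = -(0, 1) from by decide, h.symm, q2]; rfl
  · intro i; rw [hm _ (by decide), q3]; rfl
  · intro i; rw [hm _ (by decide), show ((0, 5) : H) = -(0, 2) from by decide, h.symm, q3]; rfl
  · intro i; rw [hm _ (by decide), q4]; rfl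
  · intro i; rw [hm _ (by decide), show ((0, 4) : H) = -(0, 3) from by decide, h.symm, q4]; rfl
  · intro i; rw [hm _ (by decide), q5]; rfl
  · intro i; rw [hm _ (by decide), show ((4, 6) : H) = -(1, 1) from by decide, h.symm, q5]; rfl
  · intro i; rw [hm _ (by decide), q6]; rfl
  · intro i; rw [hm _ (by decide), show ((4, 1) : H) = -(1, 6) from by decide, h.symm, q6]; rfl
  · intro i; rw [hm _ (by decide), q7]; rfl
  · intro i; rw [hm _ (by decide), show ((3, 6) : H) = -(2, 1) from by decide, h.symm, q7]; rfl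
  · intro i; rw [hm _ (by decide), q8]; rfl
  · intro i; rw [hm _ (by decide), show ((3, 1) : H) = -(2, 6) from by decide, h.symm, q8]; rfl
  · intro i; rw [hm _ (by decide), q9]; rfl
  · intro i; rw [hm _ (by decide), show ((4, 5) : H) = -(1, 2) from by decide, h.symm, q9]; rfl
  · intro i; rw [hm _ (by decide), q10]; rfl
  · intro i; rw [hm _ (by decide), show ((4, 2) : H) = -(1, 5) from by decide, h.symm, q10]; rfl
  · intro i; rw [hm _ (by decide), q11]; rfl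
  · intro i; rw [hm _ (by decide), show ((3, 5) : H) = -(2, 2) from by decide, h.symm, q11]; rfl
  · intro i; rw [hm _ (by decide), q12]; rfl
  · intro i; rw [hm _ (by decide), show ((3, 2) : H) = -(2, 5) from by decide, h.symm, q12]; rfl
  · intro i; rw [hm _ (by decide), q13]; rfl
  · intro i; rw [hm _ (by decide), show ((4, 4) : H) = -(1, 3) from by decide, h.symm, q13]; rfl
  · intro i; rw [hm _ (by decide), q14]; rfl
  · intro i; rw [hm _ (by decide), show ((4, 3) : H) = -(1, 4) from by decide, h.symm, q14]; rfl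
  · intro i; rw [hm _ (by decide), q15]; rfl
  · intro i; rw [hm _ (by decide), show ((3, 4) : H) = -(2, 3) from by decide, h.symm, q15]; rfl
  · intro i; rw [hm _ (by decide), q16]; rfl
  · intro i; rw [hm _ (by decide), show ((3, 3) : H) = -(2, 4) from by decide, h.symm, q16]; rfl
  · intro i; unfold mu
    have : ((0, 0) : H) = 0 := rfl
    rw [this, h.zero]; simp

theorem lanev_vals {s : H → Fin 4 → ℤ} {v : Fin 17 → Fin 8} (hv : Vals s v) {A : Type} [CommRing A]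
    (α γ : A) (i : Fin 4) :
    ∑ x : H, (mu s x i : A) * (α ^ x.1.val * γ ^ x.2.val) = lanev v α γ i := by
  rw [Fintype.sum_prod_type]
  simp only [sum5, sum7]
  rw [lanev_expand v α γ i _ _ _ _ _ _ _ _ _ _ _ _ _ _ _ _ _ rfl]
  simp only [hv.z, hv.p0, hv.m0, hv.p1, hv.m1, hv.p2, hv.m2, hv.p3, hv.m3, hv.p4, hv.m4, hv.p5, hv.m5, hv.p6, hv.m6, hv.p7, hv.m7, hv.p8, hv.m8, hv.p9, hv.m9, hv.p10, hv.m10, hv.p11, hv.m11, hv.p12, hv.m12, hv.p13, hv.m13, hv.p14, hv.m14, hv.p15, hv.m15, hv.p16, hv.m16]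
  push_cast
  have e0 : (0 : ZMod 5).val = 0 := rfl
  have e1 : (1 : ZMod 5).val = 1 := rfl
  have e2 : (2 : ZMod 5).val = 2 := rfl
  have e3 : (3 : ZMod 5).val = 3 := rfl
  have e4 : (4 : ZMod 5).val = 4 := rfl
  have f0 : (0 : ZMod 7).val = 0 := rfl
  have f1 : (1 : ZMod 7).val = 1 := rfl
  have f2 : (2 : ZMod 7).val = 2 := rfl
  have f3 : (3 : ZMod 7).val = 3 := rfl
  have f4 : (4 : ZMod 7).val = 4 := rfl
  have f5 : (5 : ZMod 7).val = 5 := rfl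
  have f6 : (6 : ZMod 7).val = 6 := rfl
  rw [e0, e1, e2, e3, e4, f0, f1, f2, f3, f4, f5, f6]
  ring

theorem ev_vals {s : H → Fin 4 → ℤ} (h : Sol H s) {v : Fin 17 → Fin 8} (hv : Vals s v) : GoodV v := by
  constructor
  intro A _ α γ hα hγ
  set χ5 := AddChar.zmodChar 5 hα
  set χ7 := AddChar.zmodChar 7 hγ
  have h1 := ev_gen h (fun x : H => α ^ x.1.val * γ ^ x.2.val) (by
    intro x y
    have e5 := AddChar.map_add_eq_mul χ5 x.1 y.1
    have e7 := AddChar.map_add_eq_mul χ7 x.2 y.2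
    simp only [χ5, χ7, AddChar.zmodChar_apply] at e5 e7
    simp only [Prod.fst_add, Prod.snd_add, e5, e7]
    ring) (by simp)
  simp only [lanev_vals hv, Fin.sum_univ_four] at h1
  exact h1

end Pool.Agent.Helper980.C35
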