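import Pool.Agent.Helper980.C35Main
set_option autoImplicit false
namespace Pool.Agent.Helper980.C35

abbrev V := ZMod 2 × ZMod 2
abbrev GG := ZMod 2 × ZMod 2 × ZMod 35

def emb (w : V) (y : G) : GG := (w.1, w.2, y)

theorem emb_add (w w' : V) (y y' : G) : emb w y + emb w' y' = emb (w + w') (y + y') := rfl

theorem emb_zero : emb 0 0 = 0 := rfl

theorem emb_surj (g : GG) : ∃ w y, g = emb w y := ⟨(g.1, g.2.1), g.2.2, rfl⟩

theorem sum_GG (F : GG → ℤ) : ∑ g, F g = ∑ w : V, ∑ y : G, F (emb w y) := by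
  rw [Fintype.sum_prod_type, Fintype.sum_prod_type]
  apply Finset.sum_congr rfl
  intro a _
  rw [Fintype.sum_prod_type]
  rfl

theorem pm_sq {z : ℤ} (h : z = 1 ∨ z = -1) : z * z = 1 := by rcases h with h | h <;> rw [h] <;> norm_num

theorem pm_pow35 {z : ℤ} (h : z = 1 ∨ z = -1) : z ^ 35 = z := by
  rcases h with h | h <;> rw [h] <;> norm_num

section
variable {ψ : GG → GG → ℤ} (hpm : ∀ g h, ψ g h = 1 ∨ ψ g h = -1)
  (hc : ∀ g h k, ψ g h * ψ (g + h) k = ψ h k * ψ g (h + k))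

/-- transfer -/
def tt (ψ : GG → GG → ℤ) (g : GG) : ℤ := ∏ k : G, ψ g (emb 0 k)

include hpm in
theorem tt_pm (g : GG) : tt ψ g = 1 ∨ tt ψ g = -1 := by
  unfold tt
  apply Finset.prod_induction _ (fun z : ℤ => z = 1 ∨ z = -1)
  · intro a b ha hb
    rcases ha with ha | ha <;> rcases hb with hb | hb <;> simp [ha, hb]
  · left; rfl
  · intro k _; exact hpm _ _

include hpm hc in
theorem step1 (g h : GG) : ψ g h * tt ψ (g + h) = tt ψ h * ∏ k : G, ψ g (h + emb 0 k) := by
  have h1 : ∏ k : G, (ψ g h * ψ (g + h) (emb 0 k)) = ∏ k : G, (ψ h (emb 0 k) * ψ g (h + emb 0 k)) :=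
    Finset.prod_congr rfl (fun k _ => hc g h (emb 0 k))
  rw [Finset.prod_mul_distrib, Finset.prod_mul_distrib, Finset.prod_const] at h1
  have h2 : (Finset.univ : Finset G).card = 35 := by
    rw [Finset.card_univ]; exact ZMod.card 35
  rw [h2, pm_pow35 (hpm g h)] at h1
  exact h1

/-- normalised cocycle -/
def ph (ψ : GG → GG → ℤ) (g h : GG) : ℤ := ψ g h * tt ψ g * tt ψ h * tt ψ (g + h)

include hpm in
theorem ph_pm (g h : GG) : ph ψ g h = 1 ∨ ph ψ g h = -1 := by
  unfold ph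
  rcases hpm g h with h1 | h1 <;> rcases tt_pm hpm g with h2 | h2 <;> rcases tt_pm hpm h with h3 | h3 <;>
    rcases tt_pm hpm (g + h) with h4 | h4 <;> simp [h1, h2, h3, h4]

include hpm hc in
theorem ph_right (g : GG) (z : G) : ph ψ g (emb 0 z) = 1 := by
  have h1 := step1 hpm hc g (emb 0 z)
  have h2 : ∏ k : G, ψ g (emb 0 z + emb 0 k) = tt ψ g := by
    unfold tt
    have := Equiv.prod_comp (Equiv.addLeft z) (fun k => ψ g (emb 0 k))
    rw [← this]
    rfl
  rw [h2] at h1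
  unfold ph
  have e1 := pm_sq (tt_pm hpm g)
  have e2 := pm_sq (tt_pm hpm (emb 0 z))
  calc ψ g (emb 0 z) * tt ψ g * tt ψ (emb 0 z) * tt ψ (g + emb 0 z)
      = (ψ g (emb 0 z) * tt ψ (g + emb 0 z)) * tt ψ g * tt ψ (emb 0 z) := by ring
    _ = (tt ψ g * tt ψ g) * (tt ψ (emb 0 z) * tt ψ (emb 0 z)) := by rw [h1]; ring
    _ = 1 := by rw [e1, e2]; rfl

include hpm hc in
theorem ph_coc (g h k : GG) : ph ψ g h * ph ψ (g + h) k = ph ψ h k * ph ψ g (h + k) := by
  unfold ph
  have e1 := pm_sq (tt_pm hpm (g + h))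
  have e2 := pm_sq (tt_pm hpm (h + k))
  have e3 := hc g h k
  have e4 : g + h + k = g + (h + k) := add_assoc _ _ _
  rw [e4]
  linear_combination (tt ψ g * tt ψ h * tt ψ k * tt ψ (g + (h + k))) * e3 +
    (ψ g h * ψ (g + h) k * tt ψ g * tt ψ h * tt ψ k * tt ψ (g + (h + k))) * e1 -
    (ψ h k * ψ g (h + k) * tt ψ g * tt ψ h * tt ψ k * tt ψ (g + (h + k))) * e2

include hpm hc in
theorem ph_inv_right (g h : GG) (z : G) : ph ψ g (h + emb 0 z) = ph ψ g h := by
  have h1 := ph_coc hpm hc g h (emb 0 z)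
  rw [ph_right hpm hc, ph_right hpm hc] at h1
  linarith

include hpm hc in
theorem ph_mul_left (g k : GG) (z : G) : ph ψ (g + emb 0 z) k = ph ψ (emb 0 z) k * ph ψ g k := by
  have h1 := ph_coc hpm hc g (emb 0 z) k
  rw [ph_right hpm hc, one_mul, add_comm (emb 0 z) k, ph_inv_right hpm hc] at h1
  exact h1

include hpm hc in
theorem ph_left (k : GG) (z : G) : ph ψ (emb 0 z) k = 1 := by
  have h0 : ph ψ (emb 0 0) k = 1 := by
    have h1 := ph_mul_left hpm hc (emb 0 0) k 0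
    rw [emb_add] at h1
    simp only [add_zero] at h1
    rcases ph_pm hpm (emb 0 0) k with h2 | h2
    · exact h2
    · rw [h2] at h1; norm_num at h1
  have hn : ∀ n : ℕ, ph ψ (emb 0 (n * z)) k = (ph ψ (emb 0 z) k) ^ n := by
    intro n
    induction n with
    | zero => simp [h0]
    | succ n ih =>
      have h1 := ph_mul_left hpm hc (emb 0 (n * z)) k z
      rw [emb_add, add_zero, ih] at h1
      have e : ((n + 1 : ℕ) : G) * z = n * z + z := by push_cast; ring
      rw [e, h1, pow_succ]; ring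
  have h35 := hn 35
  have e : ((35 : ℕ) : G) * z = 0 := by
    have : ((35 : ℕ) : G) = 0 := by decide
    rw [this, zero_mul]
  rw [e, h0, pm_pow35 (ph_pm hpm _ _)] at h35
  exact h35.symm

include hpm hc in
theorem ph_inv_left (g k : GG) (z : G) : ph ψ (g + emb 0 z) k = ph ψ g k := by
  rw [ph_mul_left hpm hc, ph_left hpm hc, one_mul]

/-- the reduced cocycle on the Klein four group -/
def fi (ψ : GG → GG → ℤ) (u w : V) : ℤ := ph ψ (emb u 0) (emb w 0)

include hpm hc in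
theorem ph_fi (u w : V) (x y : G) : ph ψ (emb u x) (emb w y) = fi ψ u w := by
  have e1 : emb u x = emb u 0 + emb 0 x := by rw [emb_add]; simp
  have e2 : emb w y = emb w 0 + emb 0 y := by rw [emb_add]; simp
  rw [e1, e2, ph_inv_left hpm hc, ph_inv_right hpm hc]
  rfl

include hpm hc in
theorem psi_eq (u w : V) (x y : G) : ψ (emb u x) (emb w y) =
    fi ψ u w * tt ψ (emb u x) * tt ψ (emb w y) * tt ψ (emb (u + w) (x + y)) := by
  rw [← ph_fi hpm hc u w x y]
  unfold ph
  have e1 := pm_sq (tt_pm hpm (emb u x))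
  have e2 := pm_sq (tt_pm hpm (emb w y))
  have e3 := pm_sq (tt_pm hpm (emb (u + w) (x + y)))
  rw [emb_add]
  have e4 : ψ (emb u x) (emb w y) * tt ψ (emb u x) * tt ψ (emb w y) * tt ψ (emb (u + w) (x + y)) *
      tt ψ (emb u x) * tt ψ (emb w y) * tt ψ (emb (u + w) (x + y)) =
      ψ (emb u x) (emb w y) * (tt ψ (emb u x) * tt ψ (emb u x)) * (tt ψ (emb w y) * tt ψ (emb w y)) *
      (tt ψ (emb (u + w) (x + y)) * tt ψ (emb (u + w) (x + y))) := by ring
  rw [e4, e1, e2, e3]; ring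

include hpm in
theorem fi_pm (u w : V) : fi ψ u w = 1 ∨ fi ψ u w = -1 := ph_pm hpm _ _

include hpm hc in
theorem fi_coc (a b c : V) : fi ψ a b * fi ψ (a + b) c = fi ψ b c * fi ψ a (b + c) := by
  have h := ph_coc hpm hc (emb a 0) (emb b 0) (emb c 0)
  rw [emb_add, emb_add, add_zero] at h
  exact h

include hpm hc in
theorem fi_zero_left (w : V) : fi ψ 0 w = 1 := ph_left hpm hc _ 0

include hpm hc in
theorem fi_zero_right (w : V) : fi ψ w 0 = 1 := ph_right hpm hc _ 0

include hpm hc in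
theorem psi_zero_left (k : GG) : ψ 0 k = ψ 0 0 := by
  have h := hc 0 0 k
  simp only [zero_add] at h
  rcases hpm 0 k with h1 | h1 <;> rcases hpm 0 0 with h2 | h2 <;> rw [h1, h2] at h <;> rw [h1, h2] <;> norm_num at h

include hpm hc in
theorem psi_zero_right (k : GG) : ψ k 0 = ψ 0 0 := by
  have h := hc k 0 0
  simp only [add_zero] at h
  rcases hpm k 0 with h1 | h1 <;> rcases hpm 0 0 with h2 | h2 <;> rw [h1, h2] at h <;> rw [h1, h2] <;> norm_num at h

end

end Pool.Agent.Helper980.C35
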