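import Pool.Agent.Helper980.C35Coc
set_option autoImplicit false
namespace Pool.Agent.Helper980.C35

/-- cross correlation -/
def DD (a : V → G → ℤ) (w w' : V) (x : G) : ℤ := ∑ y, a w y * a w' (x + y)

theorem DD_neg (a : V → G → ℤ) (w w' : V) (x : G) : DD a w' w (-x) = DD a w w' x := by
  unfold DD
  rw [← Equiv.sum_comp (Equiv.addLeft x) (fun y => a w' y * a w (-x + y))]
  apply Finset.sum_congr rfl
  intro y _
  simp only [Equiv.coe_addLeft, neg_add_cancel_left]
  ring

theorem DD_sum (a : V → G → ℤ) (w w' : V) : ∑ x, DD a w w' x = (∑ x, a w x) * ∑ x, a w' x := by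
  unfold DD
  rw [Finset.sum_comm, Finset.sum_mul]
  apply Finset.sum_congr rfl
  intro y _
  rw [← Finset.mul_sum]
  congr 1
  exact Equiv.sum_comp (Equiv.addRight y) (fun x => a w' x)

theorem V_cases : ∀ u v w : V, (u ≠ 0 ∧ v ≠ 0 ∧ v ≠ u) → (w = 0 ∨ w = u ∨ w = v ∨ w = u + v) := by
  decide

theorem V_ne : ∀ u v : V, u ≠ 0 → v ≠ 0 → v ≠ u → u + v ≠ 0 ∧ u + v ≠ u ∧ u + v ≠ v := by
  decide

theorem V_third : ∀ u : V, ∃ v : V, v ≠ 0 ∧ v ≠ u := by decide

theorem sumV (F : V → ℤ) (u v : V) (hu : u ≠ 0) (hv : v ≠ 0) (huv : v ≠ u) :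
    ∑ w, F w = F 0 + F u + F v + F (u + v) := by
  obtain ⟨n1, n2, n3⟩ := V_ne u v hu hv huv
  have h1 : (Finset.univ : Finset V) = {0, u, v, u + v} := by
    ext w
    simp only [Finset.mem_univ, Finset.mem_insert, Finset.mem_singleton, true_iff]
    exact V_cases u v w ⟨hu, hv, huv⟩
  have h2 : (0 : V) ∉ ({u, v, u + v} : Finset V) := by
    simp only [Finset.mem_insert, Finset.mem_singleton, not_or]
    exact ⟨Ne.symm hu, Ne.symm hv, Ne.symm n1⟩
  have h3 : u ∉ ({v, u + v} : Finset V) := by
    simp only [Finset.mem_insert, Finset.mem_singleton, not_or]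
    exact ⟨Ne.symm huv, Ne.symm n2⟩
  rw [h1, Finset.sum_insert h2, Finset.sum_insert h3, Finset.sum_pair (Ne.symm n3)]
  ring

theorem V_add_self (u : V) : u + u = 0 := by revert u; decide

theorem no_two_squares (A B : ℤ) (h : A ^ 2 + B ^ 2 = 140) : False := by
  have h1 : A = 7 * (A / 7) + A % 7 := (Int.mul_ediv_add_emod A 7).symm
  have h2 : B = 7 * (B / 7) + B % 7 := (Int.mul_ediv_add_emod B 7).symm
  have h3 := Int.emod_nonneg A (show (7 : ℤ) ≠ 0 by norm_num)
  have h4 := Int.emod_lt_of_pos A (show (0 : ℤ) < 7 by norm_num)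
  have h5 := Int.emod_nonneg B (show (7 : ℤ) ≠ 0 by norm_num)
  have h6 := Int.emod_lt_of_pos B (show (0 : ℤ) < 7 by norm_num)
  generalize A / 7 = q at h1
  generalize B / 7 = q' at h2
  generalize A % 7 = r at h1 h3 h4
  generalize B % 7 = r' at h2 h5 h6
  subst h1 h2
  have e : (7 * q + r) ^ 2 + (7 * q' + r') ^ 2 = 49 * (q * q + q' * q') + 14 * (q * r) + 14 * (q' * r') + r * r + r' * r' := by ring
  rw [e] at h
  generalize q * q + q' * q' = Z at h
  interval_cases r <;> interval_cases r' <;> omega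

/-- the orthogonality relations -/
structure Rel (f : V → V → ℤ) (a : V → G → ℤ) : Prop where
  pm : ∀ w y, a w y = 1 ∨ a w y = -1
  fpm : ∀ u w, f u w = 1 ∨ f u w = -1
  fc : ∀ a b c, f a b * f (a + b) c = f b c * f a (b + c)
  f0l : ∀ w, f 0 w = 1
  f0r : ∀ w, f w 0 = 1
  row : ∀ u x, (u ≠ 0 ∨ x ≠ 0) → ∑ w, f u w * DD a w (u + w) x = 0
  col : ∀ u x, (u ≠ 0 ∨ x ≠ 0) → ∑ w, f w u * DD a w (u + w) x = 0

section
variable {f : V → V → ℤ} {a : V → G → ℤ} (h : Rel f a)

include h in
theorem auto_zero (x : G) (hx : x ≠ 0) : ∑ w, DD a w w x = 0 := by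
  have h1 := h.row 0 x (Or.inr hx)
  simp only [h.f0l, one_mul, zero_add] at h1
  exact h1

include h in
theorem auto_one : ∑ w, DD a w w 0 = 140 := by
  have h1 : ∀ w, DD a w w 0 = 35 := by
    intro w
    unfold DD
    have : ∀ y : G, a w y * a w (0 + y) = 1 := by
      intro y; rw [zero_add]; exact pm_sq (h.pm w y)
    simp only [this]
    simp
  simp only [h1]
  simp

include h in
theorem sum_sq : ∑ w, (∑ x, a w x) * ∑ x, a w x = 140 := by
  have h1 : ∑ x, ∑ w, DD a w w x = 140 := by
    rw [Finset.sum_eq_single 0]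
    · exact auto_one h
    · intro x _ hx; exact auto_zero h x hx
    · intro hh; exact absurd (Finset.mem_univ _) hh
  rw [Finset.sum_comm] at h1
  simp only [DD_sum] at h1
  exact h1

include h in
theorem f_sq (u w : V) : f u w * f u w = 1 := pm_sq (h.fpm u w)

include h in
theorem f_uu_add (u w : V) : f u (u + w) = f u u * f u w := by
  have h1 := h.fc u u w
  rw [V_add_self, h.f0l, mul_one] at h1
  have h2 := f_sq h u w
  rw [h1]
  linear_combination (-(f u (u + w))) * h2

include h in
theorem row' (u v : V) (hu : u ≠ 0) (hv : v ≠ 0) (huv : v ≠ u) (x : G) :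
    DD a 0 u x + f u u * DD a u 0 x + f u v * (DD a v (u + v) x + f u u * DD a (u + v) v x) = 0 := by
  have h1 := h.row u x (Or.inl hu)
  rw [sumV _ u v hu hv huv] at h1
  have e1 : u + (u + v) = v := by rw [← add_assoc, V_add_self, zero_add]
  rw [h.f0r, add_zero, V_add_self, e1, f_uu_add h u v] at h1
  linarith

include h in
theorem fuu (u : V) (hu : u ≠ 0) : f u u = -1 := by
  rcases h.fpm u u with h1 | h1
  · exfalso
    obtain ⟨v, hv, huv⟩ := V_third u
    have h2 : ∑ x, (DD a 0 u x + f u u * DD a u 0 x + f u v * (DD a v (u + v) x + f u u * DD a (u + v) v x)) = 0 :=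
      Finset.sum_eq_zero (fun x _ => row' h u v hu hv huv x)
    rw [h1] at h2
    simp only [one_mul] at h2
    rw [Finset.sum_add_distrib, Finset.sum_add_distrib, ← Finset.mul_sum, Finset.sum_add_distrib] at h2
    simp only [DD_sum] at h2
    have h3 := sum_sq h
    rw [sumV _ u v hu hv huv] at h3
    have h4 := f_sq h u v
    apply no_two_squares ((∑ x, a 0 x) + ∑ x, a u x) ((∑ x, a v x) + f u v * ∑ x, a (u + v) x)
    linear_combination h3 + h2 + (∑ x, a (u + v) x) ^ 2 * h4
  · exact h1

include h in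
theorem anti (u v : V) (hu : u ≠ 0) (hv : v ≠ 0) (huv : v ≠ u) : f u v = - f v u := by
  have e0 : u + v ≠ 0 := (V_ne u v hu hv huv).1
  have h1 := h.fc u v (u + v)
  have e1 : v + (u + v) = u := by rw [add_comm u v, ← add_assoc, V_add_self, zero_add]
  rw [e1, fuu h u hu, fuu h (u + v) e0] at h1
  have h2 := f_uu_add h v u
  rw [fuu h v hv, add_comm v u] at h2
  linarith

include h in
theorem col' (u v : V) (hu : u ≠ 0) (hv : v ≠ 0) (huv : v ≠ u) (x : G) :
    DD a 0 u x - DD a u 0 x + f v u * (DD a v (u + v) x - DD a (u + v) v x) = 0 := by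
  have h1 := h.col u x (Or.inl hu)
  rw [sumV _ u v hu hv huv] at h1
  have e1 : u + (u + v) = v := by rw [← add_assoc, V_add_self, zero_add]
  have h2 := h.fc v u u
  rw [V_add_self, h.f0r, fuu h u hu, mul_one, add_comm v u] at h2
  have h3 := f_sq h v u
  have h4 : f (u + v) u = - f v u := by
    linear_combination (f v u) * h2 - f (u + v) u * h3
  rw [h.f0l, add_zero, V_add_self, e1, fuu h u hu, h4] at h1
  linarith

include h in
theorem delta (u v : V) (hu : u ≠ 0) (hv : v ≠ 0) (huv : v ≠ u) (x : G) :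
    DD a 0 u x = DD a u 0 x ∧ DD a v (u + v) x = DD a (u + v) v x := by
  have h1 := row' h u v hu hv huv x
  have h2 := col' h u v hu hv huv x
  rw [fuu h u hu, anti h u v hu hv huv] at h1
  rcases h.fpm v u with h3 | h3
  · rw [h3] at h1 h2
    constructor <;> linarith
  · rw [h3] at h1 h2
    constructor <;> linarith

include h in
theorem amic (w w' : V) (x : G) : DD a w w' x = DD a w' w x := by
  by_cases e : w = w'
  · rw [e]
  by_cases e0 : w = 0
  · subst e0
    obtain ⟨v, hv, huv⟩ := V_third w'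
    exact (delta h w' v (Ne.symm e) hv huv x).1
  by_cases e1 : w' = 0
  · subst e1
    obtain ⟨v, hv, huv⟩ := V_third w
    exact (delta h w v e0 hv huv x).1.symm
  · have h1 := (delta h (w + w') w (by
      intro h0
      apply e
      have : w + (w + w') = w + 0 := by rw [h0]
      rw [← add_assoc, V_add_self, zero_add, add_zero] at this
      exact this.symm) e0 (by
      intro h0
      apply e1
      have : w + w = w + (w + w') := by rw [← h0]
      rw [V_add_self, ← add_assoc, V_add_self, zero_add] at this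
      exact this.symm) x).2
    have e2 : w + w' + w = w' := by rw [add_comm w w', add_assoc, V_add_self, add_zero]
    rw [e2] at h1
    exact h1

/-- enumeration of the Klein four group -/
def ve : Fin 4 → V := ![(0, 0), (0, 1), (1, 0), (1, 1)]

theorem sum_ve (F : V → ℤ) : ∑ i, F (ve i) = ∑ w, F w := by
  rw [Fintype.sum_prod_type, Fin.sum_univ_four]
  have : ∀ g : ZMod 2 → ℤ, ∑ x, g x = g 0 + g 1 := fun g => Fin.sum_univ_two g
  simp only [this]
  simp [ve]
  ring

include h in
theorem quad_of_rel : Quad (fun i => a (ve i)) := by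
  refine ⟨fun i x => h.pm _ _, ?_, ?_⟩
  · intro i j x
    have h1 := amic h (ve j) (ve i) x
    unfold DD at h1
    calc ∑ y, a (ve i) (x + y) * a (ve j) y = ∑ y, a (ve j) y * a (ve i) (x + y) :=
          Finset.sum_congr rfl (fun y _ => mul_comm _ _)
      _ = ∑ y, a (ve i) y * a (ve j) (x + y) := h1
      _ = ∑ y, a (ve j) (x + y) * a (ve i) y := Finset.sum_congr rfl (fun y _ => mul_comm _ _)
  · intro x
    have e1 : ∑ i, ∑ y, a (ve i) (x + y) * a (ve i) y = ∑ w, DD a w w x := by
      rw [← sum_ve (fun w => DD a w w x)]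
      apply Finset.sum_congr rfl
      intro i _
      unfold DD
      exact Finset.sum_congr rfl (fun y _ => mul_comm _ _)
    rw [e1]
    by_cases hx : x = 0
    · subst hx; rw [if_pos rfl]; exact auto_one h
    · rw [if_neg hx]; exact auto_zero h x hx

end

/-- transposed orthogonality -/
theorem cols {ψ : GG → GG → ℤ} (hH : (Matrix.of ψ) * (Matrix.of ψ).transpose = (140 : ℤ) • (1 : Matrix GG GG ℤ)) :
    (Matrix.of ψ).transpose * (Matrix.of ψ) = (140 : ℤ) • (1 : Matrix GG GG ℤ) := by
  set M : Matrix GG GG ℤ := Matrix.of ψ with hM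
  have hinj : Function.Injective (fun A : Matrix GG GG ℤ => A.map (Int.castRingHom ℚ)) := by
    intro A B hAB
    ext i j
    have := congrFun (congrFun hAB i) j
    simpa using this
  apply hinj
  have h0 : (((140 : ℤ) • (1 : Matrix GG GG ℤ)).map (Int.castRingHom ℚ)) = (140 : ℚ) • (1 : Matrix GG GG ℚ) := by
    ext i j
    rw [Matrix.map_apply, Matrix.smul_apply, Matrix.smul_apply, Matrix.one_apply, Matrix.one_apply]
    split <;> simp
  have h1 : (M.map (Int.castRingHom ℚ)) * (M.map (Int.castRingHom ℚ)).transpose = (140 : ℚ) • (1 : Matrix GG GG ℚ) := by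
    have h2 := congrArg (fun A : Matrix GG GG ℤ => A.map (Int.castRingHom ℚ)) hH
    simp only [Matrix.map_mul, Matrix.transpose_map] at h2
    rw [h2, h0]
  have h3 : ((1 / 140 : ℚ) • (M.map (Int.castRingHom ℚ))) * (M.map (Int.castRingHom ℚ)).transpose = 1 := by
    rw [Matrix.smul_mul, h1, smul_smul]; norm_num
  have h4 := mul_eq_one_comm.1 h3
  rw [Matrix.mul_smul] at h4
  have h5 : (M.map (Int.castRingHom ℚ)).transpose * (M.map (Int.castRingHom ℚ)) = (140 : ℚ) • (1 : Matrix GG GG ℚ) := by
    rw [← h4, smul_smul]; norm_num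
  simp only [Matrix.map_mul, Matrix.transpose_map]
  rw [h5, h0]

theorem main {ψ : GG → GG → ℤ} (hpm : ∀ g h, ψ g h = 1 ∨ ψ g h = -1)
    (hc : ∀ g h k, ψ g h * ψ (g + h) k = ψ h k * ψ g (h + k))
    (hH : (Matrix.of ψ) * (Matrix.of ψ).transpose = (140 : ℤ) • (1 : Matrix GG GG ℤ)) : False := by
  have hH' := cols hH
  have hrow : ∀ g, g ≠ 0 → ∑ k, ψ g k = 0 := by
    intro g hg
    have h1 := congrFun (congrFun hH g) 0
    rw [Matrix.mul_apply] at h1
    simp only [Matrix.of_apply, Matrix.transpose_apply, Matrix.smul_apply, Matrix.one_apply_ne hg,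
      smul_zero, psi_zero_left hpm hc] at h1
    rw [← Finset.sum_mul] at h1
    rcases hpm 0 0 with h2 | h2 <;> rw [h2] at h1 <;> linarith
  have hcol : ∀ k, k ≠ 0 → ∑ g, ψ g k = 0 := by
    intro k hk
    have h1 := congrFun (congrFun hH' k) 0
    rw [Matrix.mul_apply] at h1
    simp only [Matrix.of_apply, Matrix.transpose_apply, Matrix.smul_apply, Matrix.one_apply_ne hk,
      smul_zero, psi_zero_right hpm hc] at h1
    rw [← Finset.sum_mul] at h1
    rcases hpm 0 0 with h2 | h2 <;> rw [h2] at h1 <;> linarith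
  have hne : ∀ (u : V) (x : G), (u ≠ 0 ∨ x ≠ 0) → emb u x ≠ 0 := by
    intro u x hux h0
    rcases hux with h1 | h1
    · apply h1
      have e1 : u.1 = 0 := congrArg Prod.fst h0
      have e2 : u.2 = 0 := congrArg (fun p : GG => p.2.1) h0
      exact Prod.ext e1 e2
    · exact h1 (congrArg (fun p : GG => p.2.2) h0)
  have hrel : Rel (fi ψ) (fun w y => tt ψ (emb w y)) := by
    refine ⟨fun w y => tt_pm hpm _, fi_pm hpm, fi_coc hpm hc, fi_zero_left hpm hc, fi_zero_right hpm hc, ?_, ?_⟩
    · intro u x hux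
      have h1 := hrow (emb u x) (hne u x hux)
      rw [sum_GG] at h1
      simp only [psi_eq hpm hc] at h1
      have h2 : ∑ w : V, ∑ y : G, fi ψ u w * tt ψ (emb u x) * tt ψ (emb w y) * tt ψ (emb (u + w) (x + y)) =
          tt ψ (emb u x) * ∑ w, fi ψ u w * DD (fun w y => tt ψ (emb w y)) w (u + w) x := by
        rw [Finset.mul_sum]
        apply Finset.sum_congr rfl
        intro w _
        unfold DD
        rw [Finset.mul_sum, Finset.mul_sum]
        apply Finset.sum_congr rfl
        intro y _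
        ring
      rw [h2] at h1
      rcases tt_pm hpm (emb u x) with h3 | h3 <;> rw [h3] at h1 <;> linarith
    · intro u x hux
      have h1 := hcol (emb u x) (hne u x hux)
      rw [sum_GG] at h1
      simp only [psi_eq hpm hc] at h1
      have h2 : ∑ w : V, ∑ y : G, fi ψ w u * tt ψ (emb w y) * tt ψ (emb u x) * tt ψ (emb (w + u) (y + x)) =
          tt ψ (emb u x) * ∑ w, fi ψ w u * DD (fun w y => tt ψ (emb w y)) w (u + w) x := by
        rw [Finset.mul_sum]
        apply Finset.sum_congr rfl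
        intro w _
        unfold DD
        rw [Finset.mul_sum, Finset.mul_sum]
        apply Finset.sum_congr rfl
        intro y _
        rw [add_comm w u, add_comm y x]
        ring
      rw [h2] at h1
      rcases tt_pm hpm (emb u x) with h3 | h3 <;> rw [h3] at h1 <;> linarith
  exact no_quad (quad_of_rel hrel)

end Pool.Agent.Helper980.C35
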