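import Pool.Agent.Helper980.C35Bridge
set_option autoImplicit false
namespace Pool.Agent.Helper980.C35
open Pool.Agent.Helper980.W35

/-- column sum -/
def cT (s : H → Fin 4 → ℤ) (u : ZMod 7) (i : Fin 4) : ℤ := ∑ a : ZMod 5, mu s (a, u) i
/-- row sum -/
def cR (s : H → Fin 4 → ℤ) (a : ZMod 5) (i : Fin 4) : ℤ := ∑ u : ZMod 7, mu s (a, u) i
def nT (s : H → Fin 4 → ℤ) (u : ZMod 7) : ℤ := ∑ i, cT s u i ^ 2
def nR (s : H → Fin 4 → ℤ) (a : ZMod 5) : ℤ := ∑ i, cR s a i ^ 2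

theorem normT {s : H → Fin 4 → ℤ} (h : Sol H s) : ∑ u, nT s u = 140 := by
  have h1 : ∑ a : ZMod 5, ∑ i, ∑ y, mu s ((a, 0) + y) i * mu s y i = 140 := by
    simp only [h.corr]
    rw [Finset.sum_eq_single 0]
    · rfl
    · intro b _ hb
      rw [if_neg]
      intro h0
      exact hb (congrArg Prod.fst h0)
    · intro hh; exact absurd (Finset.mem_univ _) hh
  rw [← h1]
  unfold nT
  rw [Finset.sum_comm, Finset.sum_comm (s := (Finset.univ : Finset (ZMod 5)))]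
  apply Finset.sum_congr rfl
  intro i _
  rw [Finset.sum_comm]
  have e1 : ∀ y : H, ∑ a : ZMod 5, mu s ((a, 0) + y) i * mu s y i = cT s y.2 i * mu s y i := by
    intro y
    rw [← Finset.sum_mul]
    congr 1
    unfold cT
    have := Equiv.sum_comp (Equiv.addRight y.1) (fun a => mu s (a, y.2) i)
    rw [← this]
    apply Finset.sum_congr rfl
    intro a _
    congr 1
    ext <;> simp
  simp only [e1]
  rw [Fintype.sum_prod_type, Finset.sum_comm]
  apply Finset.sum_congr rfl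
  intro u _
  simp only
  rw [← Finset.mul_sum, pow_two]
  rfl

theorem normR {s : H → Fin 4 → ℤ} (h : Sol H s) : ∑ a, nR s a = 140 := by
  have h1 : ∑ u : ZMod 7, ∑ i, ∑ y, mu s ((0, u) + y) i * mu s y i = 140 := by
    simp only [h.corr]
    rw [Finset.sum_eq_single 0]
    · rfl
    · intro b _ hb
      rw [if_neg]
      intro h0
      exact hb (congrArg Prod.snd h0)
    · intro hh; exact absurd (Finset.mem_univ _) hh
  rw [← h1]
  unfold nR
  rw [Finset.sum_comm, Finset.sum_comm (s := (Finset.univ : Finset (ZMod 7)))]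
  apply Finset.sum_congr rfl
  intro i _
  rw [Finset.sum_comm]
  have e1 : ∀ y : H, ∑ u : ZMod 7, mu s ((0, u) + y) i * mu s y i = cR s y.1 i * mu s y i := by
    intro y
    rw [← Finset.sum_mul]
    congr 1
    unfold cR
    have := Equiv.sum_comp (Equiv.addRight y.2) (fun u => mu s (y.1, u) i)
    rw [← this]
    apply Finset.sum_congr rfl
    intro a _
    congr 1
    ext <;> simp
  simp only [e1]
  rw [Fintype.sum_prod_type]
  apply Finset.sum_congr rfl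
  intro u _
  simp only
  rw [← Finset.mul_sum, pow_two]
  rfl

def E7 : H ≃+ H where
  toFun x := (x.1, 2 * x.2)
  invFun x := (x.1, 4 * x.2)
  left_inv x := by
    ext
    · rfl
    · show 4 * (2 * x.2) = x.2
      rw [← mul_assoc]
      have : (4 : ZMod 7) * 2 = 1 := by decide
      rw [this, one_mul]
  right_inv x := by
    ext
    · rfl
    · show 2 * (4 * x.2) = x.2
      rw [← mul_assoc]
      have : (2 : ZMod 7) * 4 = 1 := by decide
      rw [this, one_mul]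
  map_add' x y := by
    ext
    · rfl
    · show 2 * (x.2 + y.2) = 2 * x.2 + 2 * y.2
      ring

def E5 : H ≃+ H where
  toFun x := (2 * x.1, x.2)
  invFun x := (3 * x.1, x.2)
  left_inv x := by
    ext
    · show 3 * (2 * x.1) = x.1
      rw [← mul_assoc]
      have : (3 : ZMod 5) * 2 = 1 := by decide
      rw [this, one_mul]
    · rfl
  right_inv x := by
    ext
    · show 2 * (3 * x.1) = x.1
      rw [← mul_assoc]
      have : (2 : ZMod 5) * 3 = 1 := by decide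
      rw [this, one_mul]
    · rfl
  map_add' x y := by
    ext
    · show 2 * (x.1 + y.1) = 2 * x.1 + 2 * y.1
      ring
    · rfl

theorem mu_tr (e : H ≃+ H) (s : H → Fin 4 → ℤ) (x : H) (i : Fin 4) :
    mu (fun x i => s (e x) i) x i = mu s (e x) i := by simp [mu]

def M5 : ZMod 5 ≃ ZMod 5 := ⟨fun a => 2 * a, fun a => 3 * a, by decide, by decide⟩
def M7 : ZMod 7 ≃ ZMod 7 := ⟨fun a => 2 * a, fun a => 4 * a, by decide, by decide⟩

theorem nT_E7 (s : H → Fin 4 → ℤ) (u : ZMod 7) : nT (fun x i => s (E7 x) i) u = nT s (2 * u) := by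
  unfold nT cT; simp only [mu_tr]; rfl

theorem nR_E7 (s : H → Fin 4 → ℤ) (a : ZMod 5) : nR (fun x i => s (E7 x) i) a = nR s a := by
  unfold nR cR; simp only [mu_tr]
  apply Finset.sum_congr rfl
  intro i _
  congr 1
  exact Equiv.sum_comp M7 (fun u => mu s (a, u) i)

theorem nT_E5 (s : H → Fin 4 → ℤ) (u : ZMod 7) : nT (fun x i => s (E5 x) i) u = nT s u := by
  unfold nT cT; simp only [mu_tr]
  apply Finset.sum_congr rfl
  intro i _
  congr 1
  exact Equiv.sum_comp M5 (fun a => mu s (a, u) i)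

theorem nR_E5 (s : H → Fin 4 → ℤ) (a : ZMod 5) : nR (fun x i => s (E5 x) i) a = nR s (2 * a) := by
  unfold nR cR; simp only [mu_tr]; rfl

theorem nT_neg {s : H → Fin 4 → ℤ} (h : Sol H s) (u : ZMod 7) : nT s (-u) = nT s u := by
  unfold nT cT
  apply Finset.sum_congr rfl
  intro i _
  congr 1
  rw [← Equiv.sum_comp (Equiv.neg (ZMod 5))]
  apply Finset.sum_congr rfl
  intro a _
  rw [← mu_symm h (a, u)]
  rfl

theorem nR_neg {s : H → Fin 4 → ℤ} (h : Sol H s) (a : ZMod 5) : nR s (-a) = nR s a := by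
  unfold nR cR
  apply Finset.sum_congr rfl
  intro i _
  congr 1
  rw [← Equiv.sum_comp (Equiv.neg (ZMod 7))]
  apply Finset.sum_congr rfl
  intro u _
  rw [← mu_symm h (a, u)]
  rfl

theorem wlog1 {s : H → Fin 4 → ℤ} (h : Sol H s) :
    ∃ s', Sol H s' ∧ nT s' 1 ≤ nT s' 2 ∧ nT s' 1 ≤ nT s' 3 := by
  have h1 := h.transport E7
  have h2 := h1.transport E7
  have a1 : nT (fun x i => s (E7 x) i) 1 = nT s 2 := by
    rw [nT_E7, mul_one]
  have a2 : nT (fun x i => s (E7 x) i) 2 = nT s 3 := by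
    rw [nT_E7, show (2 : ZMod 7) * 2 = -3 from by decide, nT_neg h]
  have a3 : nT (fun x i => s (E7 x) i) 3 = nT s 1 := by
    rw [nT_E7, show (2 : ZMod 7) * 3 = -1 from by decide, nT_neg h]
  have b1 : nT (fun x i => s (E7 (E7 x)) i) 1 = nT s 3 := by
    rw [nT_E7 (fun x i => s (E7 x) i), mul_one]; exact a2
  have b2 : nT (fun x i => s (E7 (E7 x)) i) 2 = nT s 1 := by
    rw [nT_E7 (fun x i => s (E7 x) i), show (2 : ZMod 7) * 2 = -3 from by decide, nT_neg h1]; exact a3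
  have b3 : nT (fun x i => s (E7 (E7 x)) i) 3 = nT s 2 := by
    rw [nT_E7 (fun x i => s (E7 x) i), show (2 : ZMod 7) * 3 = -1 from by decide, nT_neg h1]; exact a1
  rcases le_total (nT s 1) (nT s 2) with c1 | c1
  · rcases le_total (nT s 1) (nT s 3) with c2 | c2
    · exact ⟨s, h, c1, c2⟩
    · refine ⟨_, h2, ?_, ?_⟩
      · rw [b1, b2]; exact c2
      · rw [b1, b3]; linarith
  · rcases le_total (nT s 2) (nT s 3) with c2 | c2
    · refine ⟨_, h1, ?_, ?_⟩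
      · rw [a1, a2]; exact c2
      · rw [a1, a3]; exact c1
    · refine ⟨_, h2, ?_, ?_⟩
      · rw [b1, b2]; linarith
      · rw [b1, b3]; exact c2

theorem wlog2 {s : H → Fin 4 → ℤ} (h : Sol H s) :
    ∃ s', Sol H s' ∧ nT s' 1 ≤ nT s' 2 ∧ nT s' 1 ≤ nT s' 3 ∧ nR s' 1 ≤ nR s' 2 := by
  obtain ⟨s, h, c1, c2⟩ := wlog1 h
  rcases le_total (nR s 1) (nR s 2) with c3 | c3
  · exact ⟨s, h, c1, c2, c3⟩
  · refine ⟨_, h.transport E5, ?_, ?_, ?_⟩
    · rw [nT_E5, nT_E5]; exact c1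
    · rw [nT_E5, nT_E5]; exact c2
    · rw [nR_E5, nR_E5]
      rw [show (2 : ZMod 5) * 2 = -1 from by decide, nR_neg h, mul_one]
      exact c3

def fS (s : H → Fin 4 → ℤ) (i : Fin 4) : ℤ := ∑ x, mu s x i
def fK (s : H → Fin 4 → ℤ) (i : Fin 4) : ℤ := cT s 0 i + 128 * cT s 1 i + 8192 * cT s 2 i

theorem wlog3 {s : H → Fin 4 → ℤ} (h : Sol H s) :
    ∃ s', Sol H s' ∧ nT s' 1 ≤ nT s' 2 ∧ nT s' 1 ≤ nT s' 3 ∧ nR s' 1 ≤ nR s' 2 ∧
      ∀ i j : Fin 4, i ≤ j → (fS s' i < fS s' j ∨ fS s' i = fS s' j ∧ fK s' i ≤ fK s' j) := by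
  obtain ⟨s, h, c1, c2, c3⟩ := wlog2 h
  set f : Fin 4 → ℤ ×ₗ ℤ := fun i => toLex (fS s i, fK s i) with hf
  set σ := Tuple.sort f with hσ
  have hmono := Tuple.monotone_sort f
  have hT : ∀ u, nT (fun x i => s x (σ i)) u = nT s u := by
    intro u
    exact Equiv.sum_comp σ (fun i => cT s u i ^ 2)
  have hR : ∀ u, nR (fun x i => s x (σ i)) u = nR s u := by
    intro u
    exact Equiv.sum_comp σ (fun i => cR s u i ^ 2)
  refine ⟨fun x i => s x (σ i), h.perm σ, ?_, ?_, ?_, ?_⟩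
  · rw [hT, hT]; exact c1
  · rw [hT, hT]; exact c2
  · rw [hR, hR]; exact c3
  · intro i j hij
    have h1 := hmono hij
    simp only [Function.comp_apply, hf] at h1
    rw [Prod.Lex.toLex_le_toLex] at h1
    exact h1

section
variable {s : H → Fin 4 → ℤ} {v : Fin 17 → Fin 8}

theorem cT0 (hv : Vals s v) (i : Fin 4) : cT s 0 i = 4 * (T0v v i : ℤ) - 7 := by
  unfold cT T0v; rw [sum5, hv.z, hv.p0, hv.p1, hv.m0, hv.m1]; push_cast; ring
theorem cT1 (hv : Vals s v) (i : Fin 4) : cT s 1 i = 2 * ((T1v v i : ℤ) - 5) := by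
  unfold cT T1v; rw [sum5, hv.p2, hv.p5, hv.m6, hv.p7, hv.m8]; push_cast; ring
theorem cT6 (hv : Vals s v) (i : Fin 4) : cT s 6 i = 2 * ((T1v v i : ℤ) - 5) := by
  unfold cT T1v; rw [sum5, hv.m2, hv.m5, hv.p6, hv.m7, hv.p8]; push_cast; ring
theorem cT2 (hv : Vals s v) (i : Fin 4) : cT s 2 i = 2 * ((T2v v i : ℤ) - 5) := by
  unfold cT T2v; rw [sum5, hv.p3, hv.p9, hv.m10, hv.p11, hv.m12]; push_cast; ring
theorem cT5 (hv : Vals s v) (i : Fin 4) : cT s 5 i = 2 * ((T2v v i : ℤ) - 5) := by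
  unfold cT T2v; rw [sum5, hv.m3, hv.m9, hv.p10, hv.m11, hv.p12]; push_cast; ring
theorem cT3 (hv : Vals s v) (i : Fin 4) : cT s 3 i = 2 * ((T3v v i : ℤ) - 5) := by
  unfold cT T3v; rw [sum5, hv.p4, hv.p13, hv.m14, hv.p15, hv.m16]; push_cast; ring
theorem cT4 (hv : Vals s v) (i : Fin 4) : cT s 4 i = 2 * ((T3v v i : ℤ) - 5) := by
  unfold cT T3v; rw [sum5, hv.m4, hv.m13, hv.p14, hv.m15, hv.p16]; push_cast; ring
theorem cR0 (hv : Vals s v) (i : Fin 4) : cR s 0 i = 4 * (R0v v i : ℤ) - 11 := by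
  unfold cR R0v; rw [sum7, hv.z, hv.p2, hv.p3, hv.p4, hv.m2, hv.m3, hv.m4]; push_cast; ring
theorem cR1 (hv : Vals s v) (i : Fin 4) : cR s 1 i = 2 * ((R1v v i : ℤ) - 7) := by
  unfold cR R1v; rw [sum7, hv.p0, hv.p5, hv.p6, hv.p9, hv.p10, hv.p13, hv.p14]; push_cast; ring
theorem cR4 (hv : Vals s v) (i : Fin 4) : cR s 4 i = 2 * ((R1v v i : ℤ) - 7) := by
  unfold cR R1v; rw [sum7, hv.m0, hv.m5, hv.m6, hv.m9, hv.m10, hv.m13, hv.m14]; push_cast; ring
theorem cR2 (hv : Vals s v) (i : Fin 4) : cR s 2 i = 2 * ((R2v v i : ℤ) - 7) := by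
  unfold cR R2v; rw [sum7, hv.p1, hv.p7, hv.p8, hv.p11, hv.p12, hv.p15, hv.p16]; push_cast; ring
theorem cR3 (hv : Vals s v) (i : Fin 4) : cR s 3 i = 2 * ((R2v v i : ℤ) - 7) := by
  unfold cR R2v; rw [sum7, hv.m1, hv.m7, hv.m8, hv.m11, hv.m12, hv.m15, hv.m16]; push_cast; ring

theorem nT_1 (hv : Vals s v) : nT s 1 = 4 * nrm 5 (T1v v) := by
  unfold nT nrm; simp only [cT1 hv, Fin.sum_univ_four]; ring
theorem nT_6 (hv : Vals s v) : nT s 6 = 4 * nrm 5 (T1v v) := by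
  unfold nT nrm; simp only [cT6 hv, Fin.sum_univ_four]; ring
theorem nT_2 (hv : Vals s v) : nT s 2 = 4 * nrm 5 (T2v v) := by
  unfold nT nrm; simp only [cT2 hv, Fin.sum_univ_four]; ring
theorem nT_5 (hv : Vals s v) : nT s 5 = 4 * nrm 5 (T2v v) := by
  unfold nT nrm; simp only [cT5 hv, Fin.sum_univ_four]; ring
theorem nT_3 (hv : Vals s v) : nT s 3 = 4 * nrm 5 (T3v v) := by
  unfold nT nrm; simp only [cT3 hv, Fin.sum_univ_four]; ring
theorem nT_4 (hv : Vals s v) : nT s 4 = 4 * nrm 5 (T3v v) := by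
  unfold nT nrm; simp only [cT4 hv, Fin.sum_univ_four]; ring
theorem nR_1 (hv : Vals s v) : nR s 1 = 4 * nrm 7 (R1v v) := by
  unfold nR nrm; simp only [cR1 hv, Fin.sum_univ_four]; ring
theorem nR_4 (hv : Vals s v) : nR s 4 = 4 * nrm 7 (R1v v) := by
  unfold nR nrm; simp only [cR4 hv, Fin.sum_univ_four]; ring
theorem nR_2 (hv : Vals s v) : nR s 2 = 4 * nrm 7 (R2v v) := by
  unfold nR nrm; simp only [cR2 hv, Fin.sum_univ_four]; ring
theorem nR_3 (hv : Vals s v) : nR s 3 = 4 * nrm 7 (R2v v) := by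
  unfold nR nrm; simp only [cR3 hv, Fin.sum_univ_four]; ring

theorem goodN (h : Sol H s) (hv : Vals s v) : GoodN v := by
  refine ⟨ev_vals h hv, ?_, ?_⟩
  · have h1 := normT h
    rw [sum7, nT_1 hv, nT_2 hv, nT_3 hv, nT_4 hv, nT_5 hv, nT_6 hv] at h1
    have h2 : nT s 0 = (4 * (T0v v 0 : ℤ) - 7) ^ 2 + (4 * (T0v v 1 : ℤ) - 7) ^ 2 +
        (4 * (T0v v 2 : ℤ) - 7) ^ 2 + (4 * (T0v v 3 : ℤ) - 7) ^ 2 := by
      unfold nT; simp only [cT0 hv, Fin.sum_univ_four]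
    rw [h2] at h1
    linarith
  · have h1 := normR h
    rw [sum5, nR_1 hv, nR_2 hv, nR_3 hv, nR_4 hv] at h1
    have h2 : nR s 0 = (4 * (R0v v 0 : ℤ) - 11) ^ 2 + (4 * (R0v v 1 : ℤ) - 11) ^ 2 +
        (4 * (R0v v 2 : ℤ) - 11) ^ 2 + (4 * (R0v v 3 : ℤ) - 11) ^ 2 := by
      unfold nR; simp only [cR0 hv, Fin.sum_univ_four]
    rw [h2] at h1
    linarith

theorem fS_eq (hv : Vals s v) (i : Fin 4) : fS s i = 4 * (Sv v i : ℤ) - 67 := by
  have h1 : fS s i = ∑ u, cT s u i := by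
    unfold fS cT
    rw [Fintype.sum_prod_type, Finset.sum_comm]
  rw [h1, sum7, cT0 hv, cT1 hv, cT2 hv, cT3 hv, cT4 hv, cT5 hv, cT6 hv]
  unfold Sv
  push_cast
  ring

theorem fK_eq (hv : Vals s v) (i : Fin 4) : fK s i = 4 * (keyv v i : ℤ) - 83207 := by
  unfold fK
  rw [cT0 hv, cT1 hv, cT2 hv]
  unfold keyv
  push_cast
  ring

end

/-- there is no vector valued solution -/
theorem no_sol {s : H → Fin 4 → ℤ} (h : Sol H s) : False := by
  obtain ⟨s, h, c1, c2, c3, c4⟩ := wlog3 h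
  obtain ⟨v, hv⟩ := exists_vals h
  rw [nT_1 hv, nT_2 hv] at c1
  rw [nT_1 hv, nT_3 hv] at c2
  rw [nR_1 hv, nR_2 hv] at c3
  have d01 := c4 0 1 (by decide)
  have d12 := c4 1 2 (by decide)
  have d23 := c4 2 3 (by decide)
  simp only [fS_eq hv, fK_eq hv] at d01 d12 d23
  exact no_good v (goodN h hv) (by omega) (by omega) (by omega) (by intro; omega)
    (by linarith) (by linarith) (by linarith)

theorem no_quad {a : Fin 4 → G → ℤ} (h : Quad a) : False := by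
  obtain ⟨s, hs⟩ := exists_sol h
  exact no_sol hs

end Pool.Agent.Helper980.C35
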