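import Mathlib
set_option autoImplicit false
namespace Pool.Agent.Helper980.C35
open AddMonoidAlgebra

abbrev G := ZMod 35

/-- the endomorphism of the group ring induced by multiplication by `c` -/
noncomputable def D (R : Type) [Semiring R] (c : G) : AddMonoidAlgebra R G →+* AddMonoidAlgebra R G :=
  mapDomainRingHom R (AddMonoidHom.mulLeft c)

theorem D_single {R : Type} [Semiring R] (c g : G) (r : R) :
    D R c (single g r) = single (c * g) r := by
  simp [D]

theorem D_comp {R : Type} [CommSemiring R] (c d : G) (x : AddMonoidAlgebra R G) :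
    D R c (D R d x) = D R (c * d) x := by
  have : (D R c).comp (D R d) = D R (c * d) := by
    apply AddMonoidAlgebra.ringHom_ext
    · intro r; simp [D_single]
    · intro m; simp [D_single, mul_assoc]
  exact DFunLike.congr_fun this x

theorem D_one {R : Type} [CommSemiring R] (x : AddMonoidAlgebra R G) : D R 1 x = x := by
  have : D R 1 = RingHom.id _ := by
    apply AddMonoidAlgebra.ringHom_ext
    · intro r; simp [D_single]
    · intro m; simp [D_single]
  rw [this]; rfl

/-- reduction mod p -/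
noncomputable def red (p : ℕ) : AddMonoidAlgebra ℤ G →+* AddMonoidAlgebra (ZMod p) G :=
  mapRingHom G (Int.castRingHom (ZMod p))

theorem red_coeff (p : ℕ) (x : AddMonoidAlgebra ℤ G) (g : G) :
    (red p x).coeff g = (x.coeff g : ZMod p) := by
  simp [red]

theorem red_single (p : ℕ) (g : G) (r : ℤ) : red p (single g r) = single g (r : ZMod p) := by
  simp [red]

theorem red_eq_zero_iff (p : ℕ) (x : AddMonoidAlgebra ℤ G) :
    red p x = 0 ↔ ∀ g, (p : ℤ) ∣ x.coeff g := by
  constructor
  · intro h g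
    rw [← ZMod.intCast_zmod_eq_zero_iff_dvd, ← red_coeff, h]; rfl
  · intro h
    ext g
    rw [red_coeff, (ZMod.intCast_zmod_eq_zero_iff_dvd _ _).2 (h g)]; rfl

theorem red_D (p : ℕ) (c : G) (x : AddMonoidAlgebra ℤ G) :
    red p (D ℤ c x) = D (ZMod p) c (red p x) := by
  have : (red p).comp (D ℤ c) = (D (ZMod p) c).comp (red p) := by
    apply AddMonoidAlgebra.ringHom_ext
    · intro r; simp [D_single, red_single]
    · intro m; simp [D_single, red_single]
  exact DFunLike.congr_fun this x

theorem red_surj (p : ℕ) [NeZero p] (y : AddMonoidAlgebra (ZMod p) G) : ∃ x, red p x = y := by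
  have h := AddMonoidAlgebra.map_surjective (M := G) (Int.castRingHom (ZMod p) : ℤ →+ ZMod p)
    (fun z => ⟨z.val, by simp⟩)
  obtain ⟨x, hx⟩ := h y
  exact ⟨x, hx⟩

/-- Frobenius on the group ring over the prime field. -/
theorem frob (p : ℕ) [Fact p.Prime] (x : AddMonoidAlgebra (ZMod p) G) :
    x ^ p = D (ZMod p) (p : G) x := by
  have : CharP (AddMonoidAlgebra (ZMod p) G) p := by
    refine charP_of_injective_ringHom (f := (singleZeroRingHom : ZMod p →+* AddMonoidAlgebra (ZMod p) G)) ?_ p
    intro a b h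
    exact AddMonoidAlgebra.single_right_injective h
  have : frobenius (AddMonoidAlgebra (ZMod p) G) p = D (ZMod p) (p : G) := by
    apply AddMonoidAlgebra.ringHom_ext
    · intro r
      rw [frobenius_def, AddMonoidAlgebra.single_pow, D_single, ZMod.pow_card]
      simp
    · intro m
      rw [frobenius_def, AddMonoidAlgebra.single_pow, D_single]
      simp
  have h2 := DFunLike.congr_fun this x
  rw [frobenius_def] at h2
  exact h2

theorem frob_pow (p : ℕ) [Fact p.Prime] (k : ℕ) (x : AddMonoidAlgebra (ZMod p) G) :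
    x ^ (p ^ k) = D (ZMod p) ((p : G) ^ k) x := by
  induction k with
  | zero => simp [D_one]
  | succ k ih => rw [pow_succ, pow_mul, ih, frob, D_comp, pow_succ, mul_comm]


/-- The self-conjugacy lemma. -/
theorem selfconj (p : ℕ) [Fact p.Prime] (m : ℕ) (e : G)
    (he : (p : G) ^ (m + m) = e) (hee : e * e = e) (hce : (p : G) ^ m * e = -e)
    (n : ℤ) (hn : ∀ x y : ℤ, n * x = (p : ℤ) ^ 2 * y → (p : ℤ) ∣ x)
    (b : Fin 4 → AddMonoidAlgebra ℤ G) (hb : ∑ i, b i * D ℤ (-1) (b i) = (n : AddMonoidAlgebra ℤ G))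
    (N : AddMonoidAlgebra ℤ G) (hN : ∀ i, red p (N * D ℤ (-1) (b i)) = 0) :
    red p N = 0 := by
  have hp : p.Prime := Fact.out
  have hq2 : 2 ≤ p ^ (m + m) := by
    rcases Nat.eq_zero_or_pos m with hm | hm
    · exfalso
      subst hm
      have h1 : e = 1 := by rw [← he]; simp
      rw [h1] at hce
      revert hce
      simp only [pow_zero, one_mul]
      decide
    · calc 2 ≤ p := hp.two_le
        _ = p ^ 1 := (pow_one p).symm
        _ ≤ p ^ (m + m) := Nat.pow_le_pow_right hp.pos (by omega)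
  obtain ⟨q, hq⟩ : ∃ q, p ^ (m + m) = q + 2 := ⟨p ^ (m + m) - 2, by omega⟩
  set st : AddMonoidAlgebra (ZMod p) G →+* AddMonoidAlgebra (ZMod p) G := D (ZMod p) (-1) with hst
  set rho : AddMonoidAlgebra (ZMod p) G →+* AddMonoidAlgebra (ZMod p) G := D (ZMod p) e with hrho
  have hpow : ∀ x : AddMonoidAlgebra (ZMod p) G, x ^ (q + 2) = rho x := by
    intro x; rw [← hq, frob_pow, he]
  have hrr : ∀ x, rho (rho x) = rho x := by
    intro x; rw [hrho, D_comp, hee]
  have hsr : ∀ x, st (rho x) = rho (st x) := by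
    intro x; rw [hrho, hst, D_comp, D_comp, mul_comm]
  have hss : ∀ x, st (st x) = x := by
    intro x; rw [hst, D_comp]; simp [D_one]
  set y : Fin 4 → AddMonoidAlgebra (ZMod p) G := fun i => rho (st (red p (b i))) with hy
  have hyy : ∀ i, rho (y i) = y i := fun i => hrr _
  set u : Fin 4 → AddMonoidAlgebra (ZMod p) G := fun i => (y i) ^ (q + 1) with hu
  have hyq : ∀ i, (y i) ^ (q + 2) = y i := by
    intro i; rw [hpow, hyy]
  have hNy : ∀ i, red p N * y i = 0 := by
    intro i
    have h1 := hN i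
    rw [map_mul, red_D] at h1
    rw [hy]
    simp only
    rw [← hpow, pow_succ', ← mul_assoc, h1, zero_mul]
  have huy : ∀ i, u i * y i = y i := by
    intro i; rw [hu]; simp only; rw [← pow_succ, hyq]
  have huu : ∀ i, u i * u i = u i := by
    intro i
    rw [hu]; simp only
    rw [← pow_add]
    have : q + 1 + (q + 1) = (q + 2) + q := by ring
    rw [this, pow_add, hyq, ← pow_succ']
  have hru : ∀ i, rho (u i) = u i := by
    intro i; rw [hu]; simp only; rw [map_pow, hyy]
  set f : AddMonoidAlgebra (ZMod p) G := (1 - u 0) * (1 - u 1) * (1 - u 2) * (1 - u 3) with hf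
  have hNu : ∀ i, red p N * u i = 0 := by
    intro i; rw [hu]; simp only; rw [pow_succ', ← mul_assoc, hNy, zero_mul]
  have hNf : red p N * f = red p N := by
    rw [hf]
    have e0 : red p N * (1 - u 0) = red p N := by rw [mul_sub, hNu]; simp
    have e1 : red p N * (1 - u 1) = red p N := by rw [mul_sub, hNu]; simp
    have e2 : red p N * (1 - u 2) = red p N := by rw [mul_sub, hNu]; simp
    have e3 : red p N * (1 - u 3) = red p N := by rw [mul_sub, hNu]; simp
    rw [← mul_assoc, ← mul_assoc, ← mul_assoc, e0, e1, e2, e3]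
  have h1u : ∀ i, (1 - u i) * y i = 0 := by
    intro i; rw [sub_mul, huy]; simp
  have hfy : ∀ i, f * y i = 0 := by
    intro i
    fin_cases i
    · calc f * y 0 = (1 - u 1) * (1 - u 2) * (1 - u 3) * ((1 - u 0) * y 0) := by rw [hf]; ring
        _ = 0 := by rw [h1u]; simp
    · calc f * y 1 = (1 - u 0) * (1 - u 2) * (1 - u 3) * ((1 - u 1) * y 1) := by rw [hf]; ring
        _ = 0 := by rw [h1u]; simp
    · calc f * y 2 = (1 - u 0) * (1 - u 1) * (1 - u 3) * ((1 - u 2) * y 2) := by rw [hf]; ring
        _ = 0 := by rw [h1u]; simp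
    · calc f * y 3 = (1 - u 0) * (1 - u 1) * (1 - u 2) * ((1 - u 3) * y 3) := by rw [hf]; ring
        _ = 0 := by rw [h1u]; simp
  have h1uu : ∀ i, (1 - u i) * (1 - u i) = 1 - u i := by
    intro i; linear_combination huu i
  have hff : f * f = f := by
    calc f * f = ((1 - u 0) * (1 - u 0)) * ((1 - u 1) * (1 - u 1)) * ((1 - u 2) * (1 - u 2)) *
        ((1 - u 3) * (1 - u 3)) := by rw [hf]; ring
      _ = f := by rw [h1uu, h1uu, h1uu, h1uu]
  have hrf : rho f = f := by
    rw [hf]; simp only [map_mul, map_sub, map_one, hru]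
  have hfpow : ∀ k : ℕ, f ^ (k + 1) = f := by
    intro k
    induction k with
    | zero => simp
    | succ k ih => rw [pow_succ, ih, hff]
  have hstf : st f = f := by
    have e1 : st f = st (rho f) := by rw [hrf]
    have e2 : st (rho f) = D (ZMod p) ((p : G) ^ m) (rho f) := by
      rw [hst, hrho, D_comp, D_comp, hce]; simp
    rw [e1, e2, hrf, ← frob_pow]
    obtain ⟨k, hk⟩ : ∃ k, p ^ m = k + 1 := ⟨p ^ m - 1, by have := Nat.pow_pos (n := m) hp.pos; omega⟩
    rw [hk, hfpow]
  have hfb : ∀ i, f * rho (red p (b i)) = 0 := by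
    intro i
    have e1 : st (f * y i) = 0 := by rw [hfy]; simp
    rw [map_mul, hstf, hy] at e1
    simp only at e1
    rw [hsr, hss] at e1
    exact e1
  obtain ⟨F, hF⟩ := red_surj p f
  have hdiv : ∀ i, ∃ h, F * D ℤ e (b i) = (p : AddMonoidAlgebra ℤ G) * h := by
    intro i
    have e1 : red p (F * D ℤ e (b i)) = 0 := by
      rw [map_mul, hF, red_D]; exact hfb i
    have e2 := (red_eq_zero_iff p _).1 e1
    choose c hc using e2
    refine ⟨∑ g, single g (c g), ?_⟩
    ext g
    rw [hc g]
    rw [Finset.mul_sum, AddMonoidAlgebra.coeff_sum, Finsupp.finsetSum_apply]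
    simp only [AddMonoidAlgebra.natCast_def]
    simp [AddMonoidAlgebra.single_mul_single, AddMonoidAlgebra.coeff_single, Finsupp.single_apply]
  choose h hh using hdiv
  have hsum : (n : AddMonoidAlgebra ℤ G) * (F * D ℤ (-1) F) =
      ((p : ℤ) ^ 2 : ℤ) * ∑ i, h i * D ℤ (-1) (h i) := by
    have e1 : ∀ i, (F * D ℤ e (b i)) * D ℤ (-1) (F * D ℤ e (b i)) =
        (F * D ℤ (-1) F) * D ℤ e (b i * D ℤ (-1) (b i)) := by
      intro i
      rw [map_mul, map_mul, D_comp, D_comp, mul_comm e (-1 : G)]
      ring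
    have e2 : ∀ i, (F * D ℤ e (b i)) * D ℤ (-1) (F * D ℤ e (b i)) =
        (((p : ℤ) ^ 2 : ℤ) : AddMonoidAlgebra ℤ G) * (h i * D ℤ (-1) (h i)) := by
      intro i
      rw [hh i, map_mul, map_natCast]
      push_cast
      ring
    have e3 : ∑ i, (F * D ℤ e (b i)) * D ℤ (-1) (F * D ℤ e (b i)) =
        (n : AddMonoidAlgebra ℤ G) * (F * D ℤ (-1) F) := by
      simp_rw [e1]
      rw [← Finset.mul_sum, ← map_sum, hb, map_intCast, mul_comm]
    rw [← e3]
    simp_rw [e2]
    rw [← Finset.mul_sum]
  have hFF : red p (F * D ℤ (-1) F) = 0 := by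
    rw [red_eq_zero_iff]
    intro g
    have e1 := congrArg (fun z => AddMonoidAlgebra.coeff z g) hsum
    simp only [AddMonoidAlgebra.intCast_def, AddMonoidAlgebra.coeff_single_zero_mul] at e1
    exact hn _ _ (by simpa using e1)
  rw [map_mul, red_D, hF] at hFF
  change f * st f = 0 at hFF
  rw [hstf, hff] at hFF
  rw [← hNf, hFF, mul_zero]

end Pool.Agent.Helper980.C35
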