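import Pool.Agent.Helper980.C35Ring
set_option autoImplicit false
namespace Pool.Agent.Helper980.C35
open AddMonoidAlgebra

instance fact7 : Fact (Nat.Prime 7) := ⟨by norm_num⟩
instance fact5 : Fact (Nat.Prime 5) := ⟨by norm_num⟩
instance fact2 : Fact (Nat.Prime 2) := ⟨by norm_num⟩

/-- the group ring element of a function -/
noncomputable def gr {R : Type} [CommRing R] (f : G → R) : AddMonoidAlgebra R G := ∑ g, single g (f g)

theorem gr_coeff {R : Type} [CommRing R] (f : G → R) (g : G) : (gr f).coeff g = f g := by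
  unfold gr
  rw [AddMonoidAlgebra.coeff_sum, Finsupp.finsetSum_apply]
  simp [AddMonoidAlgebra.coeff_single, Finsupp.single_apply]

theorem eq_gr {R : Type} [CommRing R] (x : AddMonoidAlgebra R G) : x = gr (fun g => x.coeff g) := by
  ext g; rw [gr_coeff]

theorem mul_coeff {R : Type} [CommRing R] (x y : AddMonoidAlgebra R G) (g : G) :
    (x * y).coeff g = ∑ h, x.coeff h * y.coeff (g - h) := by
  conv_lhs => rw [eq_gr x]
  unfold gr
  rw [Finset.sum_mul, AddMonoidAlgebra.coeff_sum, Finsupp.finsetSum_apply]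
  apply Finset.sum_congr rfl
  intro h _
  rw [AddMonoidAlgebra.coeff_single_mul_apply]
  congr 2
  ring

theorem D_neg_coeff {R : Type} [CommRing R] (x : AddMonoidAlgebra R G) (g : G) :
    (D R (-1) x).coeff g = x.coeff (-g) := by
  conv_lhs => rw [eq_gr x]
  unfold gr
  rw [map_sum, AddMonoidAlgebra.coeff_sum, Finsupp.finsetSum_apply]
  simp only [D_single, AddMonoidAlgebra.coeff_single, Finsupp.single_apply]
  rw [Finset.sum_eq_single (-g)]
  · simp
  · intro b _ hb
    rw [if_neg]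
    intro h
    apply hb
    rw [← h]; ring
  · intro h; exact absurd (Finset.mem_univ _) h

theorem intCast_mul_coeff (n : ℤ) (x : AddMonoidAlgebra ℤ G) (g : G) :
    ((n : AddMonoidAlgebra ℤ G) * x).coeff g = n * x.coeff g := by
  simp only [AddMonoidAlgebra.intCast_def, AddMonoidAlgebra.coeff_single_zero_mul]
  simp

/-- a quadruple of `±1` functions on `Z_35`, pairwise amicable with total autocorrelation `140 δ` -/
structure Quad (a : Fin 4 → G → ℤ) : Prop where
  pm : ∀ i x, a i x = 1 ∨ a i x = -1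
  am : ∀ i j x, ∑ y, a i (x + y) * a j y = ∑ y, a j (x + y) * a i y
  ac : ∀ x, ∑ i, ∑ y, a i (x + y) * a i y = if x = 0 then 140 else 0

variable {a : Fin 4 → G → ℤ}

theorem coeff_cross (i j : Fin 4) (x : G) :
    (gr (a i) * D ℤ (-1) (gr (a j))).coeff x = ∑ y, a i (x + y) * a j y := by
  rw [mul_coeff]
  rw [← Equiv.sum_comp (Equiv.addLeft x)]
  apply Finset.sum_congr rfl
  intro y _
  rw [D_neg_coeff, gr_coeff, gr_coeff]
  simp

theorem F1 (h : Quad a) : ∑ i, gr (a i) * D ℤ (-1) (gr (a i)) = ((140 : ℤ) : AddMonoidAlgebra ℤ G) := by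
  ext x
  rw [AddMonoidAlgebra.coeff_sum, Finsupp.finsetSum_apply]
  simp only [coeff_cross]
  rw [h.ac x, AddMonoidAlgebra.intCast_def, AddMonoidAlgebra.coeff_single, Finsupp.single_apply]
  simp [eq_comm]

theorem F2 (h : Quad a) (i j : Fin 4) :
    gr (a i) * D ℤ (-1) (gr (a j)) = gr (a j) * D ℤ (-1) (gr (a i)) := by
  ext x
  rw [coeff_cross, coeff_cross, h.am]

/-- the element N -/
noncomputable def NN (a : Fin 4 → G → ℤ) : AddMonoidAlgebra ℤ G := ∑ i, gr (a i) * gr (a i)

theorem F3 (h : Quad a) (j : Fin 4) :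
    NN a * D ℤ (-1) (gr (a j)) = ((140 : ℤ) : AddMonoidAlgebra ℤ G) * gr (a j) := by
  rw [← F1 h, NN, Finset.sum_mul, Finset.sum_mul]
  apply Finset.sum_congr rfl
  intro i _
  rw [mul_assoc, F2 h i j]
  ring

theorem red_cast (p : ℕ) (n : ℤ) (hn : (p : ℤ) ∣ n) (x : AddMonoidAlgebra ℤ G) :
    red p ((n : AddMonoidAlgebra ℤ G) * x) = 0 := by
  rw [red_eq_zero_iff]
  intro g
  rw [intCast_mul_coeff]
  exact Dvd.dvd.mul_right hn _

theorem N_dvd7 (h : Quad a) (g : G) : (7 : ℤ) ∣ (NN a).coeff g := by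
  have h1 : red 7 (NN a) = 0 := by
    apply selfconj 7 2 21 (by decide) (by decide) (by decide) 140 ?_ (fun i => gr (a i)) (F1 h)
    · intro i
      rw [F3 h i]
      exact red_cast 7 140 (by norm_num) _
    · intro x y hxy
      push_cast at hxy ⊢
      omega
  exact (red_eq_zero_iff 7 _).1 h1 g

theorem N_dvd5 (h : Quad a) (g : G) : (5 : ℤ) ∣ (NN a).coeff g := by
  have h1 : red 5 (NN a) = 0 := by
    apply selfconj 5 3 15 (by decide) (by decide) (by decide) 140 ?_ (fun i => gr (a i)) (F1 h)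
    · intro i
      rw [F3 h i]
      exact red_cast 5 140 (by norm_num) _
    · intro x y hxy
      push_cast at hxy ⊢
      omega
  exact (red_eq_zero_iff 5 _).1 h1 g

theorem sq_coeff (f : G → ℤ) (g : G) : (gr f * gr f).coeff g = ∑ y, f y * f (g - y) := by
  rw [mul_coeff]; simp only [gr_coeff]

theorem N_dvd4 (h : Quad a) (g : G) : (4 : ℤ) ∣ (NN a).coeff g := by
  -- write a = 1 - 2 b
  have hb : ∀ i x, ∃ b : ℤ, a i x = 1 - 2 * b := by
    intro i x
    rcases h.pm i x with h1 | h1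
    · exact ⟨0, by rw [h1]; norm_num⟩
    · exact ⟨1, by rw [h1]; norm_num⟩
  choose b hb using hb
  have h1 : (NN a).coeff g = ∑ i, ∑ y, a i y * a i (g - y) := by
    rw [NN, AddMonoidAlgebra.coeff_sum, Finsupp.finsetSum_apply]
    simp only [sq_coeff]
  have h2 : ∀ i, ∑ y, a i y * a i (g - y) = 35 - 4 * ∑ y, b i y + 4 * ∑ y, b i y * b i (g - y) := by
    intro i
    have e1 : ∑ y, a i y * a i (g - y) = ∑ y : G, (1 - 2 * b i y - 2 * b i (g - y) + 4 * (b i y * b i (g - y))) := by
      apply Finset.sum_congr rfl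
      intro y _
      rw [hb i y, hb i (g - y)]; ring
    have e2 : ∑ y, b i (g - y) = ∑ y, b i y := Equiv.sum_comp (Equiv.subLeft g) (b i)
    rw [e1, Finset.sum_add_distrib, Finset.sum_sub_distrib, Finset.sum_sub_distrib,
      ← Finset.mul_sum, ← Finset.mul_sum, ← Finset.mul_sum, e2]
    simp
    ring
  rw [h1]
  simp only [h2, Fin.sum_univ_four]
  refine ⟨35 - (∑ y, b 0 y) + (∑ y, b 0 y * b 0 (g - y)) - (∑ y, b 1 y) + (∑ y, b 1 y * b 1 (g - y)) -
    (∑ y, b 2 y) + (∑ y, b 2 y * b 2 (g - y)) - (∑ y, b 3 y) + (∑ y, b 3 y * b 3 (g - y)), ?_⟩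
  ring

theorem N_dvd140 (h : Quad a) (g : G) : (140 : ℤ) ∣ (NN a).coeff g := by
  have h4 := N_dvd4 h g
  have h5 := N_dvd5 h g
  have h7 := N_dvd7 h g
  omega

/-- the symmetrising translate -/
theorem shift (h : Quad a) : ∃ g0, ∀ i x, a i (g0 - x) = a i x := by
  choose M hM using N_dvd140 h
  have hN : NN a = ((140 : ℤ) : AddMonoidAlgebra ℤ G) * gr M := by
    ext g; rw [intCast_mul_coeff, gr_coeff, hM]
  have h1 : ∀ j, gr M * D ℤ (-1) (gr (a j)) = gr (a j) := by
    intro j
    have e := F3 h j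
    rw [hN, mul_assoc] at e
    ext g
    have e2 := congrArg (fun z => AddMonoidAlgebra.coeff z g) e
    simp only [intCast_mul_coeff] at e2
    linarith
  have hss : ∀ x : AddMonoidAlgebra ℤ G, D ℤ (-1) (D ℤ (-1) x) = x := by
    intro x; rw [D_comp]; simp [D_one]
  have h2 : gr M * D ℤ (-1) (gr M) = 1 := by
    have e : ((140 : ℤ) : AddMonoidAlgebra ℤ G) * (gr M * D ℤ (-1) (gr M)) =
        ((140 : ℤ) : AddMonoidAlgebra ℤ G) * 1 := by
      calc ((140 : ℤ) : AddMonoidAlgebra ℤ G) * (gr M * D ℤ (-1) (gr M))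
          = (∑ i, gr (a i) * D ℤ (-1) (gr (a i))) * (gr M * D ℤ (-1) (gr M)) := by rw [F1 h]
        _ = ∑ i, (gr M * D ℤ (-1) (gr (a i))) * D ℤ (-1) (gr M * D ℤ (-1) (gr (a i))) := by
            rw [Finset.sum_mul]
            apply Finset.sum_congr rfl
            intro i _
            rw [map_mul, hss]; ring
        _ = ∑ i, gr (a i) * D ℤ (-1) (gr (a i)) := by simp only [h1]
        _ = ((140 : ℤ) : AddMonoidAlgebra ℤ G) * 1 := by rw [F1 h, mul_one]
    ext g
    have e2 := congrArg (fun z => AddMonoidAlgebra.coeff z g) e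
    simp only [intCast_mul_coeff] at e2
    linarith
  have h3 : ∑ g, M g * M g = 1 := by
    have e := congrArg (fun z => AddMonoidAlgebra.coeff z 0) h2
    simp only [mul_coeff, D_neg_coeff, gr_coeff] at e
    simp only [zero_sub, neg_neg] at e
    rw [e]
    simp [AddMonoidAlgebra.one_def]
  -- exactly one nonzero coefficient
  have h4 : ∃ g0, M g0 ≠ 0 := by
    by_contra hcon
    push Not at hcon
    rw [Finset.sum_eq_zero] at h3
    · exact absurd h3 (by norm_num)
    · intro g _; rw [hcon g]; rfl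
  obtain ⟨g0, hg0⟩ := h4
  have h5 : ∀ g, g ≠ g0 → M g = 0 := by
    intro g hg
    by_contra hne
    have e1 : 1 ≤ M g * M g := by nlinarith [Int.one_le_abs hne, abs_mul_abs_self (M g)]
    have e2 : 1 ≤ M g0 * M g0 := by nlinarith [Int.one_le_abs hg0, abs_mul_abs_self (M g0)]
    have e3 : ∑ x ∈ ({g, g0} : Finset G), M x * M x ≤ ∑ x, M x * M x :=
      Finset.sum_le_sum_of_subset_of_nonneg (Finset.subset_univ _) (fun x _ _ => mul_self_nonneg _)
    rw [Finset.sum_pair hg] at e3
    linarith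
  have h6 : M g0 * M g0 = 1 := by
    rw [← h3, Finset.sum_eq_single g0]
    · intro g _ hg; rw [h5 g hg]; rfl
    · intro hh; exact absurd (Finset.mem_univ _) hh
  have h7 : ∀ j x, M g0 * a j (g0 - x) = a j x := by
    intro j x
    have e := congrArg (fun z => AddMonoidAlgebra.coeff z x) (h1 j)
    simp only [mul_coeff, D_neg_coeff, gr_coeff] at e
    rw [Finset.sum_eq_single g0] at e
    · rw [← e]; congr 2; ring
    · intro g _ hg; rw [h5 g hg, zero_mul]
    · intro hh; exact absurd (Finset.mem_univ _) hh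
  have h8 : M g0 = 1 ∨ M g0 = -1 := by
    rcases Int.isUnit_iff.1 (IsUnit.of_mul_eq_one _ h6) with h | h
    · exact Or.inl h
    · exact Or.inr h
  rcases h8 with h8 | h8
  · refine ⟨g0, fun i x => ?_⟩
    have := h7 i x
    rw [h8, one_mul] at this
    exact this
  · exfalso
    have e1 : ∑ x, a 0 (g0 - x) = ∑ x, a 0 x := Equiv.sum_comp (Equiv.subLeft g0) (a 0)
    have e2 : ∑ x, a 0 x = - ∑ x, a 0 (g0 - x) := by
      rw [← Finset.sum_neg_distrib]
      apply Finset.sum_congr rfl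
      intro x _
      rw [← h7 0 x, h8]; ring
    have e3 : ∑ x, a 0 x = 0 := by linarith
    have hb : ∀ x, ∃ b : ℤ, a 0 x = 1 - 2 * b := by
      intro x
      rcases h.pm 0 x with h1 | h1
      · exact ⟨0, by rw [h1]; norm_num⟩
      · exact ⟨1, by rw [h1]; norm_num⟩
    choose b hb using hb
    have e4 : ∑ x, a 0 x = 35 - 2 * ∑ x, b x := by
      simp only [hb]
      rw [Finset.sum_sub_distrib, ← Finset.mul_sum]
      simp
    omega

end Pool.Agent.Helper980.C35
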