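import Pool.Agent.Helper980.C35Shift
set_option autoImplicit false
namespace Pool.Agent.Helper980.C35
open AddMonoidAlgebra

theorem D_coeff {R : Type} [CommRing R] (c d : G) (hcd : c * d = 1) (x : AddMonoidAlgebra R G) (g : G) :
    (D R c x).coeff g = x.coeff (d * g) := by
  conv_lhs => rw [eq_gr x]
  unfold gr
  rw [map_sum, AddMonoidAlgebra.coeff_sum, Finsupp.finsetSum_apply]
  simp only [D_single, AddMonoidAlgebra.coeff_single, Finsupp.single_apply]
  rw [Finset.sum_eq_single (d * g)]
  · rw [if_pos]; rw [← mul_assoc, hcd, one_mul]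
  · intro b _ hb
    rw [if_neg]
    intro h
    apply hb
    rw [← h, ← mul_assoc, mul_comm d c, hcd, one_mul]
  · intro h; exact absurd (Finset.mem_univ _) h

variable {a : Fin 4 → G → ℤ}

/-- symmetric normalised quadruple: exactly one or three of the four entries are `-1` off zero -/
theorem odd_minus (h : Quad a) (hs : ∀ i x, a i (-x) = a i x) (b : Fin 4 → G → ℤ)
    (hb : ∀ i x, a i x = 1 - 2 * b i x) (hb0 : ∀ i, b i 0 = 0) (x : G) (hx : x ≠ 0) :
    (b 0 x + b 1 x + b 2 x + b 3 x) % 2 = 1 := by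
  have hbs : ∀ i y, b i (-y) = b i y := by
    intro i y
    have e1 := hs i y
    rw [hb, hb] at e1
    linarith
  set g : G := 2 * x with hg
  have hgx : (18 : G) * g = x := by
    rw [hg, ← mul_assoc]
    have : (18 : G) * 2 = 1 := by decide
    rw [this, one_mul]
  have hg0 : g ≠ 0 := by
    intro h0
    apply hx
    rw [← hgx, h0, mul_zero]
  -- autocorrelation at g
  have h1 : ∑ i, ∑ y, a i y * a i (g - y) = 0 := by
    have e1 := h.ac g
    rw [if_neg hg0] at e1
    rw [← e1]
    apply Finset.sum_congr rfl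
    intro i _
    have e2 := Equiv.sum_comp (Equiv.neg G) (fun y => a i (g + y) * a i y)
    rw [← e2]
    apply Finset.sum_congr rfl
    intro y _
    simp only [Equiv.neg_apply]
    rw [hs i y, ← sub_eq_add_neg]
    ring
  have h2 : ∀ i, ∑ y, a i y * a i (g - y) = 35 - 4 * ∑ y, b i y + 4 * ∑ y, b i y * b i (g - y) := by
    intro i
    have e1 : ∑ y, a i y * a i (g - y) = ∑ y : G, (1 - 2 * b i y - 2 * b i (g - y) + 4 * (b i y * b i (g - y))) := by
      apply Finset.sum_congr rfl
      intro y _
      rw [hb i y, hb i (g - y)]; ring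
    have e2 : ∑ y, b i (g - y) = ∑ y, b i y := Equiv.sum_comp (Equiv.subLeft g) (b i)
    rw [e1, Finset.sum_add_distrib, Finset.sum_sub_distrib, Finset.sum_sub_distrib,
      ← Finset.mul_sum, ← Finset.mul_sum, ← Finset.mul_sum, e2]
    simp
    ring
  -- mod 2
  have h3 : ∀ i, ((∑ y, b i y * b i (g - y) : ℤ) : ZMod 2) = (b i x : ZMod 2) := by
    intro i
    have e : red 2 (gr (b i) * gr (b i)) = D (ZMod 2) ((2 : ℕ) : G) (red 2 (gr (b i))) := by
      rw [map_mul, ← frob 2, pow_two]
    rw [← sq_coeff, ← red_coeff 2, e, D_coeff _ 18 (by decide), hgx, red_coeff, gr_coeff]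
  have h4 : ∀ i, ((∑ y, b i y : ℤ) : ZMod 2) = 0 := by
    intro i
    push_cast
    apply Finset.sum_involution (fun y _ => -y)
    · intro y _
      rw [hbs]
      exact CharTwo.add_self_eq_zero _
    · intro y _ hy hyy
      apply hy
      have : y = 0 := by
        have e1 : (2 : G) * y = 0 := by
          have : y + y = 0 := by nth_rewrite 1 [← hyy]; simp
          rw [two_mul]; exact this
        have e2 : (18 : G) * (2 * y) = y := by
          rw [← mul_assoc]
          have : (18 : G) * 2 = 1 := by decide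
          rw [this, one_mul]
        rw [← e2, e1, mul_zero]
      rw [this, hb0]; simp
    · intro y _; simp
    · intro y _; exact Finset.mem_univ _
  simp only [h2, Fin.sum_univ_four] at h1
  have h5 : (∑ y, b 0 y * b 0 (g - y)) + (∑ y, b 1 y * b 1 (g - y)) + (∑ y, b 2 y * b 2 (g - y)) +
      (∑ y, b 3 y * b 3 (g - y)) = (∑ y, b 0 y) + (∑ y, b 1 y) + (∑ y, b 2 y) + (∑ y, b 3 y) - 35 := by
    linarith
  have h6 := congrArg (fun z : ℤ => (z : ZMod 2)) h5
  simp only [Int.cast_add, Int.cast_sub, h3, h4] at h6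
  have h7 : ((b 0 x + b 1 x + b 2 x + b 3 x : ℤ) : ZMod 2) = ((1 : ℤ) : ZMod 2) := by
    push_cast
    rw [h6]
    decide
  rw [ZMod.intCast_eq_intCast_iff'] at h7
  exact h7

end Pool.Agent.Helper980.C35
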