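import Pool.Agent.Helper980.W35Defs
set_option autoImplicit false
set_option maxRecDepth 100000
namespace Pool.Agent.Helper980.W35
theorem chkT0 : chkT noTie TL0 S0 = true := by decide +kernel
end Pool.Agent.Helper980.W35
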