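import Mathlib
import Pool.Agent.Helper980.W35Defs
set_option autoImplicit false
namespace Pool.Agent.Helper980.W35

theorem allN_mem {l : List ℕ} {f : ℕ → Bool} (h : allN l f = true) {a : ℕ} (ha : a ∈ l) :
    f a = true := by
  induction l with
  | nil => simp at ha
  | cons b l ih =>
    have h' : (Bool.rec (motive := fun _ => Bool) false (allN l f) (f b) : Bool) = true := h
    cases hb : f b with
    | false => rw [hb] at h'; simp at h'
    | true =>
      rw [hb] at h'
      rcases List.mem_cons.1 ha with rfl | ha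
      · exact hb
      · exact ih h' ha

theorem filt_mem {f : ℕ → Bool} {l : List ℕ} {a : ℕ} (ha : a ∈ l) (hf : f a = true) :
    a ∈ filt f l := by
  induction l with
  | nil => simp at ha
  | cons b l ih =>
    have h' : filt f (b :: l) = (Bool.rec (motive := fun _ => List ℕ) (filt f l) (b :: filt f l) (f b) : List ℕ) := rfl
    rw [h']
    rcases List.mem_cons.1 ha with rfl | ha
    · rw [hf]; exact List.mem_cons_self
    · cases hb : f b with
      | false => exact ih ha
      | true => exact List.mem_cons_of_mem _ (ih ha)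

theorem msk_bit {f : ℕ → Bool} {g : ℕ → ℕ} {l : List ℕ} {a : ℕ} (ha : a ∈ l) (hf : f a = true) :
    Nat.testBit (msk f g l) (g a) = true := by
  induction l with
  | nil => simp at ha
  | cons b l ih =>
    have h' : msk f g (b :: l) = (Bool.rec (motive := fun _ => ℕ) (msk f g l) (Nat.lor (Nat.shiftLeft 1 (g b)) (msk f g l)) (f b) : ℕ) := rfl
    rw [h']
    rcases List.mem_cons.1 ha with rfl | ha
    · rw [hf]
      change Nat.testBit ((1 <<< g a) ||| msk f g l) (g a) = true
      rw [Nat.testBit_or, Nat.testBit_shiftLeft]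
      simp
    · cases hb : f b with
      | false => exact ih ha
      | true =>
        change Nat.testBit ((1 <<< g b) ||| msk f g l) (g a) = true
        rw [Nat.testBit_or, ih ha]; simp

theorem allG_mem {G : List (ℕ × List ℕ)} {f : ℕ → List ℕ → Bool} (h : allG G f = true)
    {a : ℕ} {l : List ℕ} (ha : (a, l) ∈ G) : f a l = true := by
  induction G with
  | nil => simp at ha
  | cons b G ih =>
    have h' : (Bool.rec (motive := fun _ => Bool) false (allG G f) (f b.1 b.2) : Bool) = true := h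
    cases hb : f b.1 b.2 with
    | false => rw [hb] at h'; simp at h'
    | true =>
      rw [hb] at h'
      rcases List.mem_cons.1 ha with rfl | ha
      · exact hb
      · exact ih h' ha

theorem allP_mem {l : List (ℕ × ℕ)} {f : ℕ → ℕ → Bool} (h : allP l f = true)
    {a b : ℕ} (ha : (a, b) ∈ l) : f a b = true := by
  induction l with
  | nil => simp at ha
  | cons c l ih =>
    have h' : (Bool.rec (motive := fun _ => Bool) false (allP l f) (f c.1 c.2) : Bool) = true := h
    cases hb : f c.1 c.2 with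
    | false => rw [hb] at h'; simp at h'
    | true =>
      rw [hb] at h'
      rcases List.mem_cons.1 ha with rfl | ha
      · exact hb
      · exact ih h' ha

theorem andB_true {a b : Bool} (h : andB a b = true) : a = true ∧ b = true := by
  cases a <;> cases b <;> simp_all [andB]

theorem memN_sound {a : ℕ} {l : List ℕ} (h : memN a l = true) : a ∈ l := by
  induction l with
  | nil => exact absurd h (by simp [memN])
  | cons b l ih =>
    have h' : (Bool.rec (motive := fun _ => Bool) (memN a l) true (Nat.beq a b) : Bool) = true := h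
    cases hb : Nat.beq a b with
    | false => rw [hb] at h'; exact List.mem_cons_of_mem _ (ih h')
    | true => rw [Nat.eq_of_beq_eq_true hb]; exact List.mem_cons_self

theorem memT_sound {a b c : ℕ} {l : List (ℕ × ℕ × ℕ)} (h : memT a b c l = true) :
    (a, b, c) ∈ l := by
  induction l with
  | nil => exact absurd h (by simp [memT])
  | cons g l ih =>
    have h' : (Bool.rec (motive := fun _ => Bool) (memT a b c l) true
      (andB (Nat.beq a g.1) (andB (Nat.beq b g.2.1) (Nat.beq c g.2.2))) : Bool) = true := h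
    cases hb : (andB (Nat.beq a g.1) (andB (Nat.beq b g.2.1) (Nat.beq c g.2.2))) with
    | false => rw [hb] at h'; exact List.mem_cons_of_mem _ (ih h')
    | true =>
      obtain ⟨h1, h2⟩ := andB_true hb
      obtain ⟨h2, h3⟩ := andB_true h2
      rw [Nat.eq_of_beq_eq_true h1, Nat.eq_of_beq_eq_true h2, Nat.eq_of_beq_eq_true h3]
      exact List.mem_cons_self

theorem memR_sound {a b : ℕ} {G : List (ℕ × List ℕ)} (h : memR a b G = true) :
    ∃ l, (a, l) ∈ G ∧ b ∈ l := by
  induction G with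
  | nil => exact absurd h (by simp [memR])
  | cons g G ih =>
    have h' : (Bool.rec (motive := fun _ => Bool) (memR a b G) true
      (andB (Nat.beq a g.1) (memN b g.2)) : Bool) = true := h
    cases hb : andB (Nat.beq a g.1) (memN b g.2) with
    | false =>
      rw [hb] at h'
      obtain ⟨l, h1, h2⟩ := ih h'
      exact ⟨l, List.mem_cons_of_mem _ h1, h2⟩
    | true =>
      obtain ⟨h1, h2⟩ := andB_true hb
      refine ⟨g.2, ?_, memN_sound h2⟩
      rw [Nat.eq_of_beq_eq_true h1]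
      exact List.mem_cons_self

/-! ### codes -/

/-- lane base -/
def Lb : ℕ := 18446744073709551557

/-- linear code of a vector -/
def code (x : Fin 4 → ℕ) : ℕ :=
  x 0 * (1 + Lb ^ 7 + Lb ^ 8) + x 1 * (Lb + Lb ^ 6 + 9 * Lb ^ 8) +
  x 2 * (Lb ^ 2 + Lb ^ 5 + 81 * Lb ^ 8) + x 3 * (Lb ^ 3 + Lb ^ 4 + 729 * Lb ^ 8)

theorem code_add (x y : Fin 4 → ℕ) : code (fun i => x i + y i) = code x + code y := by
  simp only [code]; ring

theorem code_smul (k : ℕ) (x : Fin 4 → ℕ) : code (fun i => k * x i) = k * code x := by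
  simp only [code]; ring

theorem lane_gen (L lo m hi k : ℕ) (hlo : lo < L ^ k) (hm : m < L) :
    (lo + L ^ k * m + L ^ (k+1) * hi) / L ^ k % L = m := by
  have hL : 0 < L := by omega
  have h1 : lo + L ^ k * m + L ^ (k+1) * hi = lo + L ^ k * (m + L * hi) := by ring
  rw [h1, Nat.add_mul_div_left _ _ (Nat.pow_pos hL), Nat.div_eq_of_lt hlo]
  simp [Nat.add_mul_mod_self_left, Nat.mod_eq_of_lt hm]

theorem horner (L a y k : ℕ) (ha : a < L) (hy : y < L ^ k) : a + L * y < L ^ (k+1) := by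
  have : L * y + L ≤ L ^ (k+1) := by
    have h1 : y + 1 ≤ L ^ k := hy
    calc L * y + L = L * (y + 1) := by ring
      _ ≤ L * L ^ k := Nat.mul_le_mul_left _ h1
      _ = L ^ (k+1) := by ring
  omega

/-- inner products by multiplication -/
theorem lane3 (x d : Fin 4 → ℕ) (hx : ∀ i, x i < 2 ^ 30) (hd : ∀ i, d i < 2 ^ 12) :
    code x * (d 0 * Lb ^ 3 + d 1 * Lb ^ 2 + d 2 * Lb + d 3) / Lb ^ 3 % Lb =
      x 0 * d 0 + x 1 * d 1 + x 2 * d 2 + x 3 * d 3 := by
  have hb : ∀ i j, x i * d j < 2 ^ 42 := by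
    intro i j
    calc x i * d j < 2^30 * 2^12 := Nat.mul_lt_mul'' (hx i) (hd j)
      _ = 2^42 := by norm_num
  have hL : 2 ^ 60 < Lb := by norm_num [Lb]
  have e00 := hb 0 0
  have e01 := hb 0 1
  have e02 := hb 0 2
  have e03 := hb 0 3
  have e10 := hb 1 0
  have e11 := hb 1 1
  have e12 := hb 1 2
  have e13 := hb 1 3
  have e20 := hb 2 0
  have e21 := hb 2 1
  have e22 := hb 2 2
  have e23 := hb 2 3
  have e30 := hb 3 0
  have e31 := hb 3 1
  have e32 := hb 3 2
  have e33 := hb 3 3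
  have key : code x * (d 0 * Lb ^ 3 + d 1 * Lb ^ 2 + d 2 * Lb + d 3) =
     (x 0 * d 3 + Lb * ((x 0 * d 2 + x 1 * d 3) + Lb * (x 0 * d 1 + x 1 * d 2 + x 2 * d 3)))
     + Lb ^ 3 * (x 0 * d 0 + x 1 * d 1 + x 2 * d 2 + x 3 * d 3)
     + Lb ^ (3 + 1) * (
       (x 1 * d 0 + x 2 * d 1 + x 3 * d 2 + x 3 * d 3) +
       Lb * (x 2 * d 0 + x 3 * d 1 + x 3 * d 2 + x 2 * d 3) +
       Lb ^ 2 * (x 3 * d 0 + x 3 * d 1 + x 2 * d 2 + x 1 * d 3) +
       Lb ^ 3 * (x 3 * d 0 + x 2 * d 1 + x 1 * d 2 + x 0 * d 3) +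
       Lb ^ 4 * (x 2 * d 0 + x 1 * d 1 + x 0 * d 2) +
       Lb ^ 5 * (x 1 * d 0 + x 0 * d 1) +
       Lb ^ 6 * (x 0 * d 0) +
       Lb ^ 4 * (x 0 + 9 * x 1 + 81 * x 2 + 729 * x 3) * (d 0 * Lb ^ 3 + d 1 * Lb ^ 2 + d 2 * Lb + d 3)) := by
    simp only [code]; ring
  rw [key]
  apply lane_gen
  · have : (x 0 * d 3 + Lb * ((x 0 * d 2 + x 1 * d 3) + Lb * (x 0 * d 1 + x 1 * d 2 + x 2 * d 3))) < Lb ^ (2+1) := by
      apply horner
      · omega
      · apply horner (k := 1)
        · omega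
        · rw [pow_one]; omega
    exact this
  · omega

/-- sums of squares by multiplication -/
theorem lane7 (x : Fin 4 → ℕ) (hx : ∀ i, x i < 2 ^ 30) :
    code x * code x / Lb ^ 7 % Lb = 2 * (x 0 ^ 2 + x 1 ^ 2 + x 2 ^ 2 + x 3 ^ 2) := by
  have hb : ∀ i j, x i * x j ≤ (2 ^ 30 - 1) * (2^30 - 1) := by
    intro i j
    exact Nat.mul_le_mul (by have := hx i; omega) (by have := hx j; omega)
  have hL : 2 ^ 63 + 2 ^ 62 + 2^61 < Lb := by norm_num [Lb]
  have e00 := hb 0 0
  have e01 := hb 0 1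
  have e02 := hb 0 2
  have e03 := hb 0 3
  have e11 := hb 1 1
  have e12 := hb 1 2
  have e13 := hb 1 3
  have e22 := hb 2 2
  have e23 := hb 2 3
  have e33 := hb 3 3
  have key : code x * code x =
     (x 0 * x 0 + Lb * (2 * (x 0 * x 1) + Lb * ((2 * (x 0 * x 2) + x 1 * x 1) + Lb * ((2 * (x 0 * x 3) + 2 * (x 1 * x 2)) +
       Lb * ((2 * (x 0 * x 3) + 2 * (x 1 * x 3) + x 2 * x 2) + Lb * ((2 * (x 0 * x 2) + 2 * (x 1 * x 3) + 2 * (x 2 * x 3)) +
       Lb * (2 * (x 0 * x 1) + 2 * (x 1 * x 2) + 2 * (x 2 * x 3) + x 3 * x 3)))))))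
     + Lb ^ 7 * (2 * (x 0 ^ 2 + x 1 ^ 2 + x 2 ^ 2 + x 3 ^ 2))
     + Lb ^ (7 + 1) * (
        (x 3 * x 3 + 2 * (x 2 * x 3) + 2 * (x 1 * x 2) + 2 * (x 0 * x 1)) +
        Lb * (2 * (x 3 * x 2) + 2 * (x 3 * x 1) + 2 * (x 2 * x 0)) +
        Lb ^ 2 * (x 2 * x 2 + 2 * (x 3 * x 1) + 2 * (x 3 * x 0)) +
        Lb ^ 3 * (2 * (x 3 * x 0) + 2 * (x 2 * x 1)) +
        Lb ^ 4 * (x 1 * x 1 + 2 * (x 2 * x 0)) + Lb ^ 5 * (2 * (x 1 * x 0)) + Lb ^ 6 * (x 0 * x 0) +
        (x 0 + 9 * x 1 + 81 * x 2 + 729 * x 3) * (code x + (x 0 * (1 + Lb ^ 7) + x 1 * (Lb + Lb ^ 6) +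
  x 2 * (Lb ^ 2 + Lb ^ 5) + x 3 * (Lb ^ 3 + Lb ^ 4)))) := by
    simp only [code]; ring
  rw [key]
  have f0 : x 0 ^ 2 = x 0 * x 0 := by ring
  have f1 : x 1 ^ 2 = x 1 * x 1 := by ring
  have f2 : x 2 ^ 2 = x 2 * x 2 := by ring
  have f3 : x 3 ^ 2 = x 3 * x 3 := by ring
  apply lane_gen
  · apply horner (k := 6)
    · omega
    · apply horner (k := 5)
      · omega
      · apply horner (k := 4)
        · omega
        · apply horner (k := 3)
          · omega
          · apply horner (k := 2)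
            · omega
            · apply horner (k := 1)
              · omega
              · rw [pow_one]; omega
  · omega

end Pool.Agent.Helper980.W35
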