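import Pool.Agent.Helper980.W35Sound1
set_option autoImplicit false
namespace Pool.Agent.Helper980.W35

/-- the eight shifted unit vectors -/
def uv (a : Fin 8) (i : Fin 4) : ℕ :=
  if a.val / 2 = i.val then (if a.val % 2 = 0 then 2 else 0) else 1

/-- their codes -/
def uc (a : Fin 8) : ℕ := code (uv a)

theorem uv_le (a : Fin 8) (i : Fin 4) : uv a i ≤ 2 := by
  revert a i; decide

theorem uc_mem (a : Fin 8) : uc a ∈ UL := by
  revert a; decide +kernel

theorem uc_tU (a : Fin 8) : tU (uc a) = true := by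
  revert a; decide +kernel

theorem uc2_mem (a b : Fin 8) : uc a + uc b ∈ CL := by
  revert a b; decide +kernel

theorem uc2_tC (a b : Fin 8) : tC (uc a + uc b) = true := by
  revert a b; decide +kernel

theorem evt_eq (X : ℕ) : evt X = Nat.beq (X * X / Lb ^ 7 % Lb % 16777531) 280 := rfl

theorem lam_eq (p g X D : ℕ) : lam p g X D = (X * D / Lb ^ 3 % Lb * g) % p := rfl


theorem evt_sound (x : Fin 4 → ℕ) (hx : ∀ i, x i < 2 ^ 30)
    (h : (x 0 : ZMod 16777531) ^ 2 + (x 1 : ZMod 16777531) ^ 2 + (x 2 : ZMod 16777531) ^ 2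
      + (x 3 : ZMod 16777531) ^ 2 = 140) : evt (code x) = true := by
  rw [evt_eq, lane7 x hx]
  have h2 : ((2 * (x 0 ^ 2 + x 1 ^ 2 + x 2 ^ 2 + x 3 ^ 2) : ℕ) : ZMod 16777531)
      = ((280 : ℕ) : ZMod 16777531) := by
    push_cast; linear_combination 2 * h
  have h3 := (ZMod.natCast_eq_natCast_iff' _ _ _).1 h2
  rw [h3]; rfl

/-- packed difference vector -/
def pkD (d : Fin 4 → ℕ) : ℕ := d 0 * Lb ^ 3 + d 1 * Lb ^ 2 + d 2 * Lb + d 3

theorem lam_cast (p g : ℕ) (x d : Fin 4 → ℕ) (hx : ∀ i, x i < 2 ^ 30) (hd : ∀ i, d i < 2 ^ 12) :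
    ((lam p g (code x) (pkD d) : ℕ) : ZMod p) =
      g * ((x 0 : ZMod p) * d 0 + x 1 * d 1 + x 2 * d 2 + x 3 * d 3) := by
  rw [lam_eq, pkD, lane3 x d hx hd, ZMod.natCast_mod]
  push_cast; ring

theorem lam_lt {p : ℕ} (hp : 0 < p) (g X D : ℕ) : lam p g X D < p := by
  rw [lam_eq]; exact Nat.mod_lt _ hp

theorem sh2_bit1 {p m l s : ℕ} (h : Nat.testBit m s = true) :
    Nat.testBit (sh2 p m l) (s + l) = true := by
  change Nat.testBit ((m <<< l) ||| (m <<< (p - l))) (s + l) = true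
  rw [Nat.testBit_or, Nat.testBit_shiftLeft]
  simp [h]

theorem sh2_bit2 {p m l s : ℕ} (h : Nat.testBit m s = true) :
    Nat.testBit (sh2 p m l) (s + (p - l)) = true := by
  change Nat.testBit ((m <<< l) ||| (m <<< (p - l))) (s + (p - l)) = true
  rw [Nat.testBit_or, Nat.testBit_shiftLeft, Nat.testBit_shiftLeft]
  simp [h]

/-- residues of the difference of two unit vectors -/
def dl (p : ℕ) (a b : Fin 8) (i : Fin 4) : ℕ := (uv a i + p - uv b i) % p

/-- the code of the zero vector (shifted) -/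
def zc : ℕ := code (fun _ => 2)

/-- correctness of the table -/
def tabOK (p tab : ℕ) : Prop := ∀ a b : Fin 8,
  (uc a + uc b = zc ∧ ∃ i : Fin 4, (∀ j, uv a j = (if j = i then 2 else 1) ∧ uv b j = (if j = i then 0 else 1)) ∨
    (∀ j, uv b j = (if j = i then 2 else 1) ∧ uv a j = (if j = i then 0 else 1))) ∨
  (uc a + uc b ≠ zc ∧ (lkD tab (uc a + uc b) = pkD (dl p a b) ∨ lkD tab (uc a + uc b) = pkD (dl p b a)))

instance (p tab : ℕ) : Decidable (tabOK p tab) := by unfold tabOK; infer_instance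

theorem tabOK_P : tabOK 1051 tabP := by decide +kernel
theorem tabOK_Q : tabOK 2311 tabQ := by decide +kernel

theorem dl_cast (p : ℕ) (hp : 4 < p) (a b : Fin 8) (i : Fin 4) :
    ((dl p a b i : ℕ) : ZMod p) = (uv a i : ZMod p) - uv b i := by
  have h1 := uv_le b i
  rw [dl, ZMod.natCast_mod, Nat.cast_sub (by omega)]
  push_cast; simp

theorem dl_lt (p : ℕ) (hp : 4 < p) (hp2 : p < 2 ^ 12) (a b : Fin 8) (i : Fin 4) :
    dl p a b i < 2 ^ 12 := lt_trans (Nat.mod_lt _ (by omega)) hp2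

/-- twice the i-th unit vector -/
def e2v (i : Fin 4) (j : Fin 4) : ℕ := if j = i then 2 else 0

theorem cell0_eq (p g X m : ℕ) : cell0 p g X m =
    ((sh2 p m (lam p g X (pkD (e2v 0)))) ||| (sh2 p m (lam p g X (pkD (e2v 1))))) |||
    ((sh2 p m (lam p g X (pkD (e2v 2)))) ||| (sh2 p m (lam p g X (pkD (e2v 3))))) := rfl

theorem cell0_bit {p g X m t : ℕ} (i : Fin 4)
    (h : Nat.testBit (sh2 p m (lam p g X (pkD (e2v i)))) t = true) :
    Nat.testBit (cell0 p g X m) t = true := by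
  rw [cell0_eq]
  simp only [Nat.testBit_or, Bool.or_eq_true]
  fin_cases i
  · exact Or.inl (Or.inl h)
  · exact Or.inl (Or.inr h)
  · exact Or.inr (Or.inl h)
  · exact Or.inr (Or.inr h)

theorem cell_eq (tab p g X m c : ℕ) : cell tab p g X m c =
    if c = zc then cell0 p g X m else sh2 p m (lam p g X (lkD tab c)) := by
  change (Bool.rec (motive := fun _ => ℕ) (sh2 p m (lam p g X (lkD tab c))) (cell0 p g X m)
    (Nat.beq c zc) : ℕ) = _
  by_cases h : c = zc
  · have hb : Nat.beq c zc = true := by rw [h]; exact Nat.beq_refl zc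
    rw [if_pos h, hb]
  · rw [if_neg h]
    cases hb : Nat.beq c zc with
    | true => exact absurd (Nat.eq_of_beq_eq_true hb) h
    | false => rfl

theorem cell_sound (p tab g : ℕ) (hp : 4 < p) (hp2 : p < 2 ^ 12) (ht : tabOK p tab)
    (x : Fin 4 → ℕ) (hx : ∀ i, x i < 2 ^ 30) (a b : Fin 8) :
    ∃ μ : ℕ, μ ≤ p ∧ (μ : ZMod p) = g * ((x 0 : ZMod p) * ((uv a 0 : ZMod p) - uv b 0) +
        x 1 * ((uv a 1 : ZMod p) - uv b 1) + x 2 * ((uv a 2 : ZMod p) - uv b 2) +
        x 3 * ((uv a 3 : ZMod p) - uv b 3)) ∧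
      ∀ m s, Nat.testBit m s = true →
        Nat.testBit (cell tab p g (code x) m (uc a + uc b)) (s + μ) = true := by
  have hp0 : 0 < p := by omega
  rcases ht a b with ⟨hz, i, hi⟩ | ⟨hnz, h | h⟩
  · have he : ∀ j, e2v i j < 2 ^ 12 := by
      intro j; unfold e2v; split <;> norm_num
    have hl := lam_cast p g x (e2v i) hx he
    have hlt := lam_lt hp0 g (code x) (pkD (e2v i))
    rcases hi with hi | hi
    · refine ⟨lam p g (code x) (pkD (e2v i)), hlt.le, ?_, ?_⟩
      · rw [hl]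
        have hd : ∀ j, ((e2v i j : ℕ) : ZMod p) = (uv a j : ZMod p) - uv b j := by
          intro j
          rw [(hi j).1, (hi j).2]; unfold e2v
          split <;> simp
        rw [hd, hd, hd, hd]
      · intro m s hm
        rw [cell_eq, if_pos hz]
        exact cell0_bit i (sh2_bit1 hm)
    · refine ⟨p - lam p g (code x) (pkD (e2v i)), Nat.sub_le _ _, ?_, ?_⟩
      · rw [Nat.cast_sub hlt.le, hl]
        have hd : ∀ j, ((e2v i j : ℕ) : ZMod p) = -((uv a j : ZMod p) - uv b j) := by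
          intro j
          rw [(hi j).1, (hi j).2]; unfold e2v
          split <;> simp
        rw [hd, hd, hd, hd]
        simp only [CharP.cast_eq_zero]
        ring
      · intro m s hm
        rw [cell_eq, if_pos hz]
        exact cell0_bit i (sh2_bit2 hm)
  · have hl := lam_cast p g x (dl p a b) hx (dl_lt p hp hp2 a b)
    have hlt := lam_lt hp0 g (code x) (pkD (dl p a b))
    refine ⟨lam p g (code x) (pkD (dl p a b)), hlt.le, ?_, ?_⟩
    · rw [hl, dl_cast p hp, dl_cast p hp, dl_cast p hp, dl_cast p hp]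
    · intro m s hm
      rw [cell_eq, if_neg hnz, h]
      exact sh2_bit1 hm
  · have hl := lam_cast p g x (dl p b a) hx (dl_lt p hp hp2 b a)
    have hlt := lam_lt hp0 g (code x) (pkD (dl p b a))
    refine ⟨p - lam p g (code x) (pkD (dl p b a)), Nat.sub_le _ _, ?_, ?_⟩
    · rw [Nat.cast_sub hlt.le, hl, dl_cast p hp, dl_cast p hp, dl_cast p hp, dl_cast p hp]
      simp only [CharP.cast_eq_zero]
      ring
    · intro m s hm
      rw [cell_eq, if_neg hnz, h]
      exact sh2_bit2 hm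

attribute [irreducible] uc zc

end Pool.Agent.Helper980.W35
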