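import Pool.Agent.Helper980.W35Sound2
set_option autoImplicit false
namespace Pool.Agent.Helper980.W35

/-- inner product of `x` with the difference of two unit vectors -/
def dotp (p : ℕ) (x : Fin 4 → ℕ) (a b : Fin 8) : ZMod p :=
  (x 0 : ZMod p) * ((uv a 0 : ZMod p) - uv b 0) + x 1 * ((uv a 1 : ZMod p) - uv b 1) +
    x 2 * ((uv a 2 : ZMod p) - uv b 2) + x 3 * ((uv a 3 : ZMod p) - uv b 3)

theorem chain_sound (p tab mM : ℕ) (hp : 4 < p) (hp2 : p < 2 ^ 12) (ht : tabOK p tab)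
    (hmM : ∀ k, k ≤ 6 → Nat.testBit mM (k * p) = true) (x : Fin 4 → ℕ) (hx : ∀ i, x i < 2 ^ 30)
    (g1 g2 g3 g4 g5 g6 : ℕ) (a1 b1 a2 b2 a3 b3 a4 b4 a5 b5 a6 b6 : Fin 8)
    (h : (g1 : ZMod p) * dotp p x a1 b1 + g2 * dotp p x a2 b2 + g3 * dotp p x a3 b3 +
      g4 * dotp p x a4 b4 + g5 * dotp p x a5 b5 + g6 * dotp p x a6 b6 = 0) :
    Nat.beq (Nat.land mM (cell tab p g6 (code x) (cell tab p g5 (code x) (cell tab p g4 (code x)
      (cell tab p g3 (code x) (cell tab p g2 (code x) (cell tab p g1 (code x) 1 (uc a1 + uc b1))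
        (uc a2 + uc b2)) (uc a3 + uc b3)) (uc a4 + uc b4)) (uc a5 + uc b5)) (uc a6 + uc b6))) 0 = false := by
  obtain ⟨m1, l1, e1, t1⟩ := cell_sound p tab g1 hp hp2 ht x hx a1 b1
  obtain ⟨m2, l2, e2, t2⟩ := cell_sound p tab g2 hp hp2 ht x hx a2 b2
  obtain ⟨m3, l3, e3, t3⟩ := cell_sound p tab g3 hp hp2 ht x hx a3 b3
  obtain ⟨m4, l4, e4, t4⟩ := cell_sound p tab g4 hp hp2 ht x hx a4 b4
  obtain ⟨m5, l5, e5, t5⟩ := cell_sound p tab g5 hp hp2 ht x hx a5 b5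
  obtain ⟨m6, l6, e6, t6⟩ := cell_sound p tab g6 hp hp2 ht x hx a6 b6
  have hbit := t6 _ _ (t5 _ _ (t4 _ _ (t3 _ _ (t2 _ _ (t1 1 0 (by decide))))))
  have hsum : ((m1 + m2 + m3 + m4 + m5 + m6 : ℕ) : ZMod p) = 0 := by
    push_cast
    rw [e1, e2, e3, e4, e5, e6]
    exact h
  rw [ZMod.natCast_eq_zero_iff] at hsum
  obtain ⟨k, hk⟩ := hsum
  have hk6 : k ≤ 6 := by
    by_contra hcon
    have : p * 7 ≤ p * k := Nat.mul_le_mul_left _ (by omega)
    omega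
  have h1 := hmM k hk6
  have hidx : 0 + m1 + m2 + m3 + m4 + m5 + m6 = k * p := by rw [mul_comm k p]; omega
  rw [hidx] at hbit
  set y := (cell tab p g6 (code x) (cell tab p g5 (code x) (cell tab p g4 (code x)
      (cell tab p g3 (code x) (cell tab p g2 (code x) (cell tab p g1 (code x) 1 (uc a1 + uc b1))
        (uc a2 + uc b2)) (uc a3 + uc b3)) (uc a4 + uc b4)) (uc a5 + uc b5)) (uc a6 + uc b6)) with hy
  have h2 : Nat.testBit (mM &&& y) (k * p) = true := by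
    rw [Nat.testBit_and, h1, hbit]; rfl
  cases hb : Nat.beq (Nat.land mM y) 0 with
  | false => rfl
  | true =>
    have h3 : mM &&& y = 0 := Nat.eq_of_beq_eq_true hb
    rw [h3] at h2
    simp at h2

theorem mMP_bit : ∀ k, k ≤ 6 → Nat.testBit mMP (k * 1051) = true := by
  intro k hk
  interval_cases k <;> decide +kernel

theorem cfgP_sound (x : Fin 4 → ℕ) (hx : ∀ i, x i < 2 ^ 30)
    (a11 b11 a21 b21 a12 b12 a22 b22 a13 b13 a23 b23 : Fin 8)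
    (h : ((251 : ℕ) : ZMod 1051) * dotp 1051 x a11 b11 + ((595 : ℕ) : ZMod 1051) * dotp 1051 x a21 b21 +
      ((103 : ℕ) : ZMod 1051) * dotp 1051 x a12 b12 + ((889 : ℕ) : ZMod 1051) * dotp 1051 x a22 b22 +
      ((76 : ℕ) : ZMod 1051) * dotp 1051 x a13 b13 + ((758 : ℕ) : ZMod 1051) * dotp 1051 x a23 b23 = 0) :
    cfgP (code x) (uc a11 + uc b11) (uc a21 + uc b21) (uc a12 + uc b12) (uc a22 + uc b22)
      (uc a13 + uc b13) (uc a23 + uc b23) = false :=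
  chain_sound 1051 tabP mMP (by norm_num) (by norm_num) tabOK_P mMP_bit x hx _ _ _ _ _ _
    a11 b11 a21 b21 a12 b12 a22 b22 a13 b13 a23 b23 h

theorem mMQ_bit : ∀ k, k ≤ 6 → Nat.testBit mMQ (k * 2311) = true := by
  intro k hk
  interval_cases k <;> decide +kernel

theorem cfgQ_sound (x : Fin 4 → ℕ) (hx : ∀ i, x i < 2 ^ 30)
    (a11 b11 a21 b21 a12 b12 a22 b22 a13 b13 a23 b23 : Fin 8)
    (h : ((1517 : ℕ) : ZMod 2311) * dotp 2311 x a11 b11 + ((245 : ℕ) : ZMod 2311) * dotp 2311 x a21 b21 +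
      ((11 : ℕ) : ZMod 2311) * dotp 2311 x a12 b12 + ((1123 : ℕ) : ZMod 2311) * dotp 2311 x a22 b22 +
      ((203 : ℕ) : ZMod 2311) * dotp 2311 x a13 b13 + ((1186 : ℕ) : ZMod 2311) * dotp 2311 x a23 b23 = 0) :
    cfgQ (code x) (uc a11 + uc b11) (uc a21 + uc b21) (uc a12 + uc b12) (uc a22 + uc b22)
      (uc a13 + uc b13) (uc a23 + uc b23) = false :=
  chain_sound 2311 tabQ mMQ (by norm_num) (by norm_num) tabOK_Q mMQ_bit x hx _ _ _ _ _ _
    a11 b11 a21 b21 a12 b12 a22 b22 a13 b13 a23 b23 h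

end Pool.Agent.Helper980.W35
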