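import Pool.Agent.Helper980.W35Sound3
set_option autoImplicit false
namespace Pool.Agent.Helper980.W35

/-- the 17 orbit sums of a character -/
def beta {A : Type} [CommRing A] (α γ : A) : Fin 17 → A :=
  ![α + α ^ 4, α ^ 2 + α ^ 3, γ + γ ^ 6, γ ^ 2 + γ ^ 5, γ ^ 3 + γ ^ 4,
    α * γ + α ^ 4 * γ ^ 6, α * γ ^ 6 + α ^ 4 * γ,
    α ^ 2 * γ + α ^ 3 * γ ^ 6, α ^ 2 * γ ^ 6 + α ^ 3 * γ,
    α * γ ^ 2 + α ^ 4 * γ ^ 5, α * γ ^ 5 + α ^ 4 * γ ^ 2,
    α ^ 2 * γ ^ 2 + α ^ 3 * γ ^ 5, α ^ 2 * γ ^ 5 + α ^ 3 * γ ^ 2,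
    α * γ ^ 3 + α ^ 4 * γ ^ 4, α * γ ^ 4 + α ^ 4 * γ ^ 3,
    α ^ 2 * γ ^ 3 + α ^ 3 * γ ^ 4, α ^ 2 * γ ^ 4 + α ^ 3 * γ ^ 3]

/-- character value of the `i`-th component -/
def lanev (v : Fin 17 → Fin 8) {A : Type} [CommRing A] (α γ : A) (i : Fin 4) : A :=
  1 + 2 * ∑ k, ((uv (v k) i : A) - 1) * beta α γ k

theorem lanev_expand (v : Fin 17 → Fin 8) {A : Type} [CommRing A] (α γ : A) (i : Fin 4)
    (b0 b1 b2 b3 b4 b5 b6 b7 b8 b9 b10 b11 b12 b13 b14 b15 b16 : A) (hb : beta α γ = ![b0, b1, b2, b3, b4, b5, b6, b7, b8, b9, b10, b11, b12, b13, b14, b15, b16]) :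
    lanev v α γ i = 1 + 2 * (
((uv (v 0) i : A) - 1) * b0 +
      ((uv (v 1) i : A) - 1) * b1 +
      ((uv (v 2) i : A) - 1) * b2 +
      ((uv (v 3) i : A) - 1) * b3 +
      ((uv (v 4) i : A) - 1) * b4 +
      ((uv (v 5) i : A) - 1) * b5 +
      ((uv (v 6) i : A) - 1) * b6 +
      ((uv (v 7) i : A) - 1) * b7 +
      ((uv (v 8) i : A) - 1) * b8 +
      ((uv (v 9) i : A) - 1) * b9 +
      ((uv (v 10) i : A) - 1) * b10 +
      ((uv (v 11) i : A) - 1) * b11 +
      ((uv (v 12) i : A) - 1) * b12 +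
      ((uv (v 13) i : A) - 1) * b13 +
      ((uv (v 14) i : A) - 1) * b14 +
      ((uv (v 15) i : A) - 1) * b15 +
      ((uv (v 16) i : A) - 1) * b16) := by
  unfold lanev
  rw [hb]
  simp only [Fin.sum_univ_succ, Fin.sum_univ_zero]
  simp [Fin.succ]
  ring

theorem nsub (x y : ℕ) : Nat.sub (x + y) x = y := Nat.add_sub_cancel_left x y

theorem leafs_sound' {k : ℕ → Bool} {w1 w2 X : ℕ} (x y : ℕ) (hx : x ∈ UL) (hy : tU y = true)
    (h : leafs k w1 w2 X (x + y) = true) :
    k (Nat.add X (Nat.add (Nat.mul w1 x) (Nat.mul w2 y))) = true := by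
  have h1 := allN_mem h hx
  rw [nsub, hy] at h1
  exact h1

theorem leafs_sound {k : ℕ → Bool} {w1 w2 X : ℕ} (a b : Fin 8)
    (h : leafs k w1 w2 X (uc a + uc b) = true) :
    k (Nat.add X (Nat.add (Nat.mul w1 (uc a)) (Nat.mul w2 (uc b)))) = true :=
  leafs_sound' (uc a) (uc b) (uc_mem a) (uc_tU b) h

theorem three_ones : (32983207507658788021007302457644204987060787472937988446295128191059780337859688511429222099216485717394675737948665915807170990295076369094316427407242371460 : ℕ) = 3 * code (fun _ => 1) := by decide +kernel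

theorem leafEnd_evt (X : ℕ) (h : leafEnd X = true) : evt X = false := by
  cases hb : evt X with
  | false => rfl
  | true => rw [leafEnd, hb] at h; exact h.symm

/-- lanes of the final test -/
def xE (v : Fin 17 → Fin 8) (i : Fin 4) : ℕ :=
  610240 * uv (v 0) i + 16167289 * uv (v 1) i + (2688439 * uv (v 2) i + 13894784 * uv (v 3) i) + (194306 * uv (v 4) i + 3) +
    (14543674 * uv (v 5) i + 11695885 * uv (v 6) i) +
    (6838127 * uv (v 7) i + 14566468 * uv (v 8) i) +
    (5804701 * uv (v 9) i + 6048396 * uv (v 10) i) +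
    (13191852 * uv (v 11) i + 11392860 * uv (v 12) i) +
    (9446198 * uv (v 13) i + 2183499 * uv (v 14) i) +
    (11688964 * uv (v 15) i + 10042095 * uv (v 16) i)

theorem xE_lt (v : Fin 17 → Fin 8) (i : Fin 4) : xE v i < 2 ^ 30 := by
  have h0 := uv_le (v 0) i
  have h1 := uv_le (v 1) i
  have h2 := uv_le (v 2) i
  have h3 := uv_le (v 3) i
  have h4 := uv_le (v 4) i
  have h5 := uv_le (v 5) i
  have h6 := uv_le (v 6) i
  have h7 := uv_le (v 7) i
  have h8 := uv_le (v 8) i
  have h9 := uv_le (v 9) i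
  have h10 := uv_le (v 10) i
  have h11 := uv_le (v 11) i
  have h12 := uv_le (v 12) i
  have h13 := uv_le (v 13) i
  have h14 := uv_le (v 14) i
  have h15 := uv_le (v 15) i
  have h16 := uv_le (v 16) i
  unfold xE
  omega

theorem code_xE (v : Fin 17 → Fin 8) : code (xE v) =
  610240 * uc (v 0) + 16167289 * uc (v 1) + (2688439 * uc (v 2) + 13894784 * uc (v 3)) + (194306 * uc (v 4) + 32983207507658788021007302457644204987060787472937988446295128191059780337859688511429222099216485717394675737948665915807170990295076369094316427407242371460) +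
    (14543674 * uc (v 5) + 11695885 * uc (v 6)) +
    (6838127 * uc (v 7) + 14566468 * uc (v 8)) +
    (5804701 * uc (v 9) + 6048396 * uc (v 10)) +
    (13191852 * uc (v 11) + 11392860 * uc (v 12)) +
    (9446198 * uc (v 13) + 2183499 * uc (v 14)) +
    (11688964 * uc (v 15) + 10042095 * uc (v 16)) := by
  rw [three_ones]
  simp only [xE, uc, code]
  ring

theorem alE : (6520467 : ZMod 16777531) ^ 5 = 1 := by decide +kernel
theorem gaE : (10666388 : ZMod 16777531) ^ 7 = 1 := by decide +kernel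
theorem betaE : beta (6520467 : ZMod 16777531) (10666388 : ZMod 16777531) = ![305120, 16472410, 9732985, 6947392, 97153, 7271837, 14236708, 11807829, 7283234, 11291116, 3024198, 6595926, 5696430, 4723099, 9480515, 5844482, 13409813] := by
  funext k
  fin_cases k <;> decide +kernel

theorem xE_cast (v : Fin 17 → Fin 8) (i : Fin 4) :
    ((xE v i : ℕ) : ZMod 16777531) = lanev v (6520467 : ZMod 16777531) (10666388 : ZMod 16777531) i := by
  rw [lanev_expand v _ _ i _ _ _ _ _ _ _ _ _ _ _ _ _ _ _ _ _ betaE]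
  unfold xE
  push_cast
  have h0 : (610240 : ZMod 16777531) = 2 * 305120 := by decide +kernel
  have h1 : (16167289 : ZMod 16777531) = 2 * 16472410 := by decide +kernel
  have h2 : (2688439 : ZMod 16777531) = 2 * 9732985 := by decide +kernel
  have h3 : (13894784 : ZMod 16777531) = 2 * 6947392 := by decide +kernel
  have h4 : (194306 : ZMod 16777531) = 2 * 97153 := by decide +kernel
  have h5 : (14543674 : ZMod 16777531) = 2 * 7271837 := by decide +kernel
  have h6 : (11695885 : ZMod 16777531) = 2 * 14236708 := by decide +kernel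
  have h7 : (6838127 : ZMod 16777531) = 2 * 11807829 := by decide +kernel
  have h8 : (14566468 : ZMod 16777531) = 2 * 7283234 := by decide +kernel
  have h9 : (5804701 : ZMod 16777531) = 2 * 11291116 := by decide +kernel
  have h10 : (6048396 : ZMod 16777531) = 2 * 3024198 := by decide +kernel
  have h11 : (13191852 : ZMod 16777531) = 2 * 6595926 := by decide +kernel
  have h12 : (11392860 : ZMod 16777531) = 2 * 5696430 := by decide +kernel
  have h13 : (9446198 : ZMod 16777531) = 2 * 4723099 := by decide +kernel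
  have h14 : (2183499 : ZMod 16777531) = 2 * 9480515 := by decide +kernel
  have h15 : (11688964 : ZMod 16777531) = 2 * 5844482 := by decide +kernel
  have h16 : (10042095 : ZMod 16777531) = 2 * 13409813 := by decide +kernel
  have hs : (3 : ZMod 16777531) = 1 - (610240 + 16167289 + 2688439 + 13894784 + 194306 + 14543674 + 11695885 + 6838127 + 14566468 + 5804701 + 6048396 + 13191852 + 11392860 + 9446198 + 2183499 + 11688964 + 10042095) := by decide +kernel
  linear_combination ((uv (v 0) i : ZMod 16777531) - 1) * h0 + ((uv (v 1) i : ZMod 16777531) - 1) * h1 + ((uv (v 2) i : ZMod 16777531) - 1) * h2 + ((uv (v 3) i : ZMod 16777531) - 1) * h3 + ((uv (v 4) i : ZMod 16777531) - 1) * h4 + ((uv (v 5) i : ZMod 16777531) - 1) * h5 + ((uv (v 6) i : ZMod 16777531) - 1) * h6 + ((uv (v 7) i : ZMod 16777531) - 1) * h7 + ((uv (v 8) i : ZMod 16777531) - 1) * h8 + ((uv (v 9) i : ZMod 16777531) - 1) * h9 + ((uv (v 10) i : ZMod 16777531) - 1) * h10 + ((uv (v 11) i : ZMod 16777531)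 - 1) * h11 + ((uv (v 12) i : ZMod 16777531) - 1) * h12 + ((uv (v 13) i : ZMod 16777531) - 1) * h13 + ((uv (v 14) i : ZMod 16777531) - 1) * h14 + ((uv (v 15) i : ZMod 16777531) - 1) * h15 + ((uv (v 16) i : ZMod 16777531) - 1) * h16 + hs

/-- vector solutions -/
structure GoodV (v : Fin 17 → Fin 8) : Prop where
  ev : ∀ (A : Type) [CommRing A] (α γ : A), α ^ 5 = 1 → γ ^ 7 = 1 →
    lanev v α γ 0 ^ 2 + lanev v α γ 1 ^ 2 + lanev v α γ 2 ^ 2 + lanev v α γ 3 ^ 2 = 140

theorem leafAll_sound (v : Fin 17 → Fin 8) (hv : GoodV v) :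
    leafAll (uc (v 0)) (uc (v 1)) (uc (v 2)) (uc (v 3)) (uc (v 4)) (uc (v 5) + uc (v 6))
      (uc (v 7) + uc (v 8)) (uc (v 9) + uc (v 10)) (uc (v 11) + uc (v 12))
      (uc (v 13) + uc (v 14)) (uc (v 15) + uc (v 16)) = false := by
  by_contra hcon
  have h := Bool.eq_true_of_not_eq_false hcon
  unfold leafAll at h
  have h1 := leafs_sound (v 5) (v 6) h
  have h2 := leafs_sound (v 7) (v 8) h1
  have h3 := leafs_sound (v 9) (v 10) h2
  have h4 := leafs_sound (v 11) (v 12) h3
  have h5 := leafs_sound (v 13) (v 14) h4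
  have h6 := leafs_sound (v 15) (v 16) h5
  have hev : evt (code (xE v)) = true := by
    apply evt_sound _ (xE_lt v)
    rw [xE_cast, xE_cast, xE_cast, xE_cast]
    exact hv.ev (ZMod 16777531) _ _ alE gaE
  have h7 := leafEnd_evt _ h6
  rw [code_xE] at hev
  simp only [Nat.add_eq, Nat.mul_eq] at h7
  rw [hev] at h7
  exact absurd h7 (by decide)

end Pool.Agent.Helper980.W35
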