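import Pool.Agent.Helper980.W35Sound4
set_option autoImplicit false
namespace Pool.Agent.Helper980.W35

def xP (v : Fin 17 → Fin 8) (i : Fin 4) : ℕ :=
  (905 * uv (v 0) i + 144 * uv (v 1) i + (139 * uv (v 2) i + 723 * uv (v 3) i) + (187 * uv (v 4) i + 3)) +
    (707 * (uv (v 5) i + uv (v 6) i) + 800 * (uv (v 7) i + uv (v 8) i)) + ((411 * (uv (v 9) i + uv (v 10) i) + 804 * (uv (v 11) i + uv (v 12) i)) + (6 * (uv (v 13) i + uv (v 14) i) + 426 * (uv (v 15) i + uv (v 16) i)))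

def qP (v : Fin 17 → Fin 8) (i : Fin 4) : ZMod 1051 :=
  (251 : ZMod 1051) * ((uv (v 5) i : ZMod 1051) - uv (v 6) i) +
    (595 : ZMod 1051) * ((uv (v 7) i : ZMod 1051) - uv (v 8) i) +
    (103 : ZMod 1051) * ((uv (v 9) i : ZMod 1051) - uv (v 10) i) +
    (889 : ZMod 1051) * ((uv (v 11) i : ZMod 1051) - uv (v 12) i) +
    (76 : ZMod 1051) * ((uv (v 13) i : ZMod 1051) - uv (v 14) i) +
    (758 : ZMod 1051) * ((uv (v 15) i : ZMod 1051) - uv (v 16) i)

theorem xP_lt (v : Fin 17 → Fin 8) (i : Fin 4) : xP v i < 2 ^ 30 := by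
  have h0 := uv_le (v 0) i
  have h1 := uv_le (v 1) i
  have h2 := uv_le (v 2) i
  have h3 := uv_le (v 3) i
  have h4 := uv_le (v 4) i
  have h5 := uv_le (v 5) i
  have h6 := uv_le (v 6) i
  have h7 := uv_le (v 7) i
  have h8 := uv_le (v 8) i
  have h9 := uv_le (v 9) i
  have h10 := uv_le (v 10) i
  have h11 := uv_le (v 11) i
  have h12 := uv_le (v 12) i
  have h13 := uv_le (v 13) i
  have h14 := uv_le (v 14) i
  have h15 := uv_le (v 15) i
  have h16 := uv_le (v 16) i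
  unfold xP
  omega

theorem code_xP (v : Fin 17 → Fin 8) : code (xP v) =
  (905 * uc (v 0) + 144 * uc (v 1) + (139 * uc (v 2) + 723 * uc (v 3)) + (187 * uc (v 4) + 32983207507658788021007302457644204987060787472937988446295128191059780337859688511429222099216485717394675737948665915807170990295076369094316427407242371460)) +
    (707 * (uc (v 5) + uc (v 6)) + 800 * (uc (v 7) + uc (v 8))) + ((411 * (uc (v 9) + uc (v 10)) + 804 * (uc (v 11) + uc (v 12))) + (6 * (uc (v 13) + uc (v 14)) + 426 * (uc (v 15) + uc (v 16)))) := by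
  rw [three_ones]
  simp only [xP, uc, code]
  ring

theorem alP : (307 : ZMod 1051) ^ 5 = 1 := by decide +kernel
theorem al4P : (671 : ZMod 1051) ^ 5 = 1 := by decide +kernel
theorem gaP : (801 : ZMod 1051) ^ 7 = 1 := by decide +kernel
theorem betaP : beta (307 : ZMod 1051) (801 : ZMod 1051) = ![978, 72, 595, 887, 619, 479, 228, 172, 628, 257, 154, 321, 483, 41, 1016, 592, 885] := by
  funext k
  fin_cases k <;> decide +kernel

theorem xP_cast (v : Fin 17 → Fin 8) (i : Fin 4) :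
    lanev v (307 : ZMod 1051) (801 : ZMod 1051) i = ((xP v i : ℕ) : ZMod 1051) + qP v i := by
  rw [lanev_expand v _ _ i _ _ _ _ _ _ _ _ _ _ _ _ _ _ _ _ _ betaP]
  unfold xP qP
  push_cast
  have h0 : (905 : ZMod 1051) = 2 * 978 := by decide +kernel
  have h1 : (144 : ZMod 1051) = 2 * 72 := by decide +kernel
  have h2 : (139 : ZMod 1051) = 2 * 595 := by decide +kernel
  have h3 : (723 : ZMod 1051) = 2 * 887 := by decide +kernel
  have h4 : (187 : ZMod 1051) = 2 * 619 := by decide +kernel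
  have h5 : (707 : ZMod 1051) + 251 = 2 * 479 := by decide +kernel
  have h6 : (707 : ZMod 1051) - 251 = 2 * 228 := by decide +kernel
  have h7 : (800 : ZMod 1051) + 595 = 2 * 172 := by decide +kernel
  have h8 : (800 : ZMod 1051) - 595 = 2 * 628 := by decide +kernel
  have h9 : (411 : ZMod 1051) + 103 = 2 * 257 := by decide +kernel
  have h10 : (411 : ZMod 1051) - 103 = 2 * 154 := by decide +kernel
  have h11 : (804 : ZMod 1051) + 889 = 2 * 321 := by decide +kernel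
  have h12 : (804 : ZMod 1051) - 889 = 2 * 483 := by decide +kernel
  have h13 : (6 : ZMod 1051) + 76 = 2 * 41 := by decide +kernel
  have h14 : (6 : ZMod 1051) - 76 = 2 * 1016 := by decide +kernel
  have h15 : (426 : ZMod 1051) + 758 = 2 * 592 := by decide +kernel
  have h16 : (426 : ZMod 1051) - 758 = 2 * 885 := by decide +kernel
  have hs : (3 : ZMod 1051) = 1 - (905 + 144 + 139 + 723 + 187 + 1414 + 1600 + 822 + 1608 + 12 + 852) := by decide +kernel
  linear_combination -(((uv (v 0) i : ZMod 1051) - 1) * h0 + ((uv (v 1) i : ZMod 1051) - 1) * h1 + ((uv (v 2) i : ZMod 1051) - 1) * h2 + ((uv (v 3) i : ZMod 1051) - 1) * h3 + ((uv (v 4) i : ZMod 1051) - 1) * h4 + ((uv (v 5) i : ZMod 1051) - 1) * h5 + ((uv (v 6) i : ZMod 1051) - 1) * h6 + ((uv (v 7) i : ZMod 1051) - 1) * h7 + ((uv (v 8) i : ZMod 1051) - 1) * h8 + ((uv (v 9) i : ZMod 1051) - 1) * h9 + ((uv (v 10) i : ZMod 1051) - 1) * h10 + ((uv (v 11) i : ZMod 1051) - 1) * h11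 + ((uv (v 12) i : ZMod 1051) - 1) * h12 + ((uv (v 13) i : ZMod 1051) - 1) * h13 + ((uv (v 14) i : ZMod 1051) - 1) * h14 + ((uv (v 15) i : ZMod 1051) - 1) * h15 + ((uv (v 16) i : ZMod 1051) - 1) * h16) - hs
theorem betaP4 : beta (671 : ZMod 1051) (801 : ZMod 1051) = ![978, 72, 595, 887, 619, 228, 479, 628, 172, 154, 257, 483, 321, 1016, 41, 885, 592] := by
  funext k
  fin_cases k <;> decide +kernel

theorem xP_cast4 (v : Fin 17 → Fin 8) (i : Fin 4) :
    lanev v (671 : ZMod 1051) (801 : ZMod 1051) i = ((xP v i : ℕ) : ZMod 1051) - qP v i := by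
  rw [lanev_expand v _ _ i _ _ _ _ _ _ _ _ _ _ _ _ _ _ _ _ _ betaP4]
  unfold xP qP
  push_cast
  have h0 : (905 : ZMod 1051) = 2 * 978 := by decide +kernel
  have h1 : (144 : ZMod 1051) = 2 * 72 := by decide +kernel
  have h2 : (139 : ZMod 1051) = 2 * 595 := by decide +kernel
  have h3 : (723 : ZMod 1051) = 2 * 887 := by decide +kernel
  have h4 : (187 : ZMod 1051) = 2 * 619 := by decide +kernel
  have h5 : (707 : ZMod 1051) - 251 = 2 * 228 := by decide +kernel
  have h6 : (707 : ZMod 1051) + 251 = 2 * 479 := by decide +kernel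
  have h7 : (800 : ZMod 1051) - 595 = 2 * 628 := by decide +kernel
  have h8 : (800 : ZMod 1051) + 595 = 2 * 172 := by decide +kernel
  have h9 : (411 : ZMod 1051) - 103 = 2 * 154 := by decide +kernel
  have h10 : (411 : ZMod 1051) + 103 = 2 * 257 := by decide +kernel
  have h11 : (804 : ZMod 1051) - 889 = 2 * 483 := by decide +kernel
  have h12 : (804 : ZMod 1051) + 889 = 2 * 321 := by decide +kernel
  have h13 : (6 : ZMod 1051) - 76 = 2 * 1016 := by decide +kernel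
  have h14 : (6 : ZMod 1051) + 76 = 2 * 41 := by decide +kernel
  have h15 : (426 : ZMod 1051) - 758 = 2 * 885 := by decide +kernel
  have h16 : (426 : ZMod 1051) + 758 = 2 * 592 := by decide +kernel
  have hs : (3 : ZMod 1051) = 1 - (905 + 144 + 139 + 723 + 187 + 1414 + 1600 + 822 + 1608 + 12 + 852) := by decide +kernel
  linear_combination -(((uv (v 0) i : ZMod 1051) - 1) * h0 + ((uv (v 1) i : ZMod 1051) - 1) * h1 + ((uv (v 2) i : ZMod 1051) - 1) * h2 + ((uv (v 3) i : ZMod 1051) - 1) * h3 + ((uv (v 4) i : ZMod 1051) - 1) * h4 + ((uv (v 5) i : ZMod 1051) - 1) * h5 + ((uv (v 6) i : ZMod 1051) - 1) * h6 + ((uv (v 7) i : ZMod 1051) - 1) * h7 + ((uv (v 8) i : ZMod 1051) - 1) * h8 + ((uv (v 9) i : ZMod 1051) - 1) * h9 + ((uv (v 10) i : ZMod 1051) - 1) * h10 + ((uv (v 11) i : ZMod 1051) - 1) * h11 + ((uv (v 12) i : ZMod 1051) - 1) * h12 + ((uv (v 13) i : ZMod 1051) - 1) * h13 + ((uv (v 14) i : ZMod 1051) - 1) * h14 + ((uv (v 15)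 i : ZMod 1051) - 1) * h15 + ((uv (v 16) i : ZMod 1051) - 1) * h16) - hs

theorem cfgP_good (v : Fin 17 → Fin 8) (hv : GoodV v) :
    cfgP (code (xP v)) (uc (v 5) + uc (v 6))
      (uc (v 7) + uc (v 8)) (uc (v 9) + uc (v 10)) (uc (v 11) + uc (v 12))
      (uc (v 13) + uc (v 14)) (uc (v 15) + uc (v 16)) = false := by
  apply cfgP_sound _ (xP_lt v)
  have e1 := hv.ev (ZMod 1051) _ _ alP gaP
  have e2 := hv.ev (ZMod 1051) _ _ al4P gaP
  rw [xP_cast, xP_cast, xP_cast, xP_cast] at e1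
  rw [xP_cast4, xP_cast4, xP_cast4, xP_cast4] at e2
  have e3 : (xP v 0 : ZMod 1051) * qP v 0 + xP v 1 * qP v 1 + xP v 2 * qP v 2 + xP v 3 * qP v 3 = 0 := by
    have h4 : (263 : ZMod 1051) * 4 = 1 := by decide +kernel
    linear_combination (263 : ZMod 1051) * e1 - (263 : ZMod 1051) * e2 -
      ((xP v 0 : ZMod 1051) * qP v 0 + xP v 1 * qP v 1 + xP v 2 * qP v 2 + xP v 3 * qP v 3) * h4
  rw [← e3]
  unfold dotp qP
  push_cast
  ring

def xQ (v : Fin 17 → Fin 8) (i : Fin 4) : ℕ :=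
  (2095 * uv (v 0) i + 214 * uv (v 1) i + (943 * uv (v 2) i + 2064 * uv (v 3) i) + (1613 * uv (v 4) i + 3)) +
    (2231 * (uv (v 5) i + uv (v 6) i) + 764 * (uv (v 7) i + uv (v 8) i)) + ((1783 * (uv (v 9) i + uv (v 10) i) + 1807 * (uv (v 11) i + uv (v 12) i)) + (716 * (uv (v 13) i + uv (v 14) i) + 1944 * (uv (v 15) i + uv (v 16) i)))

def qQ (v : Fin 17 → Fin 8) (i : Fin 4) : ZMod 2311 :=
  (1517 : ZMod 2311) * ((uv (v 5) i : ZMod 2311) - uv (v 6) i) +
    (245 : ZMod 2311) * ((uv (v 7) i : ZMod 2311) - uv (v 8) i) +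
    (11 : ZMod 2311) * ((uv (v 9) i : ZMod 2311) - uv (v 10) i) +
    (1123 : ZMod 2311) * ((uv (v 11) i : ZMod 2311) - uv (v 12) i) +
    (203 : ZMod 2311) * ((uv (v 13) i : ZMod 2311) - uv (v 14) i) +
    (1186 : ZMod 2311) * ((uv (v 15) i : ZMod 2311) - uv (v 16) i)

theorem xQ_lt (v : Fin 17 → Fin 8) (i : Fin 4) : xQ v i < 2 ^ 30 := by
  have h0 := uv_le (v 0) i
  have h1 := uv_le (v 1) i
  have h2 := uv_le (v 2) i
  have h3 := uv_le (v 3) i
  have h4 := uv_le (v 4) i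
  have h5 := uv_le (v 5) i
  have h6 := uv_le (v 6) i
  have h7 := uv_le (v 7) i
  have h8 := uv_le (v 8) i
  have h9 := uv_le (v 9) i
  have h10 := uv_le (v 10) i
  have h11 := uv_le (v 11) i
  have h12 := uv_le (v 12) i
  have h13 := uv_le (v 13) i
  have h14 := uv_le (v 14) i
  have h15 := uv_le (v 15) i
  have h16 := uv_le (v 16) i
  unfold xQ
  omega

theorem code_xQ (v : Fin 17 → Fin 8) : code (xQ v) =
  (2095 * uc (v 0) + 214 * uc (v 1) + (943 * uc (v 2) + 2064 * uc (v 3)) + (1613 * uc (v 4) + 32983207507658788021007302457644204987060787472937988446295128191059780337859688511429222099216485717394675737948665915807170990295076369094316427407242371460)) +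
    (2231 * (uc (v 5) + uc (v 6)) + 764 * (uc (v 7) + uc (v 8))) + ((1783 * (uc (v 9) + uc (v 10)) + 1807 * (uc (v 11) + uc (v 12))) + (716 * (uc (v 13) + uc (v 14)) + 1944 * (uc (v 15) + uc (v 16)))) := by
  rw [three_ones]
  simp only [xQ, uc, code]
  ring

theorem alQ : (197 : ZMod 2311) ^ 5 = 1 := by decide +kernel
theorem al4Q : (2006 : ZMod 2311) ^ 5 = 1 := by decide +kernel
theorem gaQ : (159 : ZMod 2311) ^ 7 = 1 := by decide +kernel
theorem betaQ : beta (197 : ZMod 2311) (159 : ZMod 2311) = ![2203, 107, 1627, 1032, 1962, 1874, 357, 1660, 1415, 897, 886, 1465, 342, 1615, 1412, 1565, 379] := by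
  funext k
  fin_cases k <;> decide +kernel

theorem xQ_cast (v : Fin 17 → Fin 8) (i : Fin 4) :
    lanev v (197 : ZMod 2311) (159 : ZMod 2311) i = ((xQ v i : ℕ) : ZMod 2311) + qQ v i := by
  rw [lanev_expand v _ _ i _ _ _ _ _ _ _ _ _ _ _ _ _ _ _ _ _ betaQ]
  unfold xQ qQ
  push_cast
  have h0 : (2095 : ZMod 2311) = 2 * 2203 := by decide +kernel
  have h1 : (214 : ZMod 2311) = 2 * 107 := by decide +kernel
  have h2 : (943 : ZMod 2311) = 2 * 1627 := by decide +kernel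
  have h3 : (2064 : ZMod 2311) = 2 * 1032 := by decide +kernel
  have h4 : (1613 : ZMod 2311) = 2 * 1962 := by decide +kernel
  have h5 : (2231 : ZMod 2311) + 1517 = 2 * 1874 := by decide +kernel
  have h6 : (2231 : ZMod 2311) - 1517 = 2 * 357 := by decide +kernel
  have h7 : (764 : ZMod 2311) + 245 = 2 * 1660 := by decide +kernel
  have h8 : (764 : ZMod 2311) - 245 = 2 * 1415 := by decide +kernel
  have h9 : (1783 : ZMod 2311) + 11 = 2 * 897 := by decide +kernel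
  have h10 : (1783 : ZMod 2311) - 11 = 2 * 886 := by decide +kernel
  have h11 : (1807 : ZMod 2311) + 1123 = 2 * 1465 := by decide +kernel
  have h12 : (1807 : ZMod 2311) - 1123 = 2 * 342 := by decide +kernel
  have h13 : (716 : ZMod 2311) + 203 = 2 * 1615 := by decide +kernel
  have h14 : (716 : ZMod 2311) - 203 = 2 * 1412 := by decide +kernel
  have h15 : (1944 : ZMod 2311) + 1186 = 2 * 1565 := by decide +kernel
  have h16 : (1944 : ZMod 2311) - 1186 = 2 * 379 := by decide +kernel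
  have hs : (3 : ZMod 2311) = 1 - (2095 + 214 + 943 + 2064 + 1613 + 4462 + 1528 + 3566 + 3614 + 1432 + 3888) := by decide +kernel
  linear_combination -(((uv (v 0) i : ZMod 2311) - 1) * h0 + ((uv (v 1) i : ZMod 2311) - 1) * h1 + ((uv (v 2) i : ZMod 2311) - 1) * h2 + ((uv (v 3) i : ZMod 2311) - 1) * h3 + ((uv (v 4) i : ZMod 2311) - 1) * h4 + ((uv (v 5) i : ZMod 2311) - 1) * h5 + ((uv (v 6) i : ZMod 2311) - 1) * h6 + ((uv (v 7) i : ZMod 2311) - 1) * h7 + ((uv (v 8) i : ZMod 2311) - 1) * h8 + ((uv (v 9) i : ZMod 2311) - 1) * h9 + ((uv (v 10) i : ZMod 2311) - 1) * h10 + ((uv (v 11) i : ZMod 2311) - 1) * h11 + ((uv (v 12) i : ZMod 2311) - 1) * h12 + ((uv (v 13) i : ZMod 2311) - 1) * h13 + ((uv (v 14) i : ZMod 2311) - 1) * h14 + ((uv (v 15) i : ZMod 2311) - 1) * h15 + ((uv (v 16) i : ZMod 2311) - 1) * h16) - hs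
theorem betaQ4 : beta (2006 : ZMod 2311) (159 : ZMod 2311) = ![2203, 107, 1627, 1032, 1962, 357, 1874, 1415, 1660, 886, 897, 342, 1465, 1412, 1615, 379, 1565] := by
  funext k
  fin_cases k <;> decide +kernel

theorem xQ_cast4 (v : Fin 17 → Fin 8) (i : Fin 4) :
    lanev v (2006 : ZMod 2311) (159 : ZMod 2311) i = ((xQ v i : ℕ) : ZMod 2311) - qQ v i := by
  rw [lanev_expand v _ _ i _ _ _ _ _ _ _ _ _ _ _ _ _ _ _ _ _ betaQ4]
  unfold xQ qQ
  push_cast
  have h0 : (2095 : ZMod 2311) = 2 * 2203 := by decide +kernel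
  have h1 : (214 : ZMod 2311) = 2 * 107 := by decide +kernel
  have h2 : (943 : ZMod 2311) = 2 * 1627 := by decide +kernel
  have h3 : (2064 : ZMod 2311) = 2 * 1032 := by decide +kernel
  have h4 : (1613 : ZMod 2311) = 2 * 1962 := by decide +kernel
  have h5 : (2231 : ZMod 2311) - 1517 = 2 * 357 := by decide +kernel
  have h6 : (2231 : ZMod 2311) + 1517 = 2 * 1874 := by decide +kernel
  have h7 : (764 : ZMod 2311) - 245 = 2 * 1415 := by decide +kernel
  have h8 : (764 : ZMod 2311) + 245 = 2 * 1660 := by decide +kernel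
  have h9 : (1783 : ZMod 2311) - 11 = 2 * 886 := by decide +kernel
  have h10 : (1783 : ZMod 2311) + 11 = 2 * 897 := by decide +kernel
  have h11 : (1807 : ZMod 2311) - 1123 = 2 * 342 := by decide +kernel
  have h12 : (1807 : ZMod 2311) + 1123 = 2 * 1465 := by decide +kernel
  have h13 : (716 : ZMod 2311) - 203 = 2 * 1412 := by decide +kernel
  have h14 : (716 : ZMod 2311) + 203 = 2 * 1615 := by decide +kernel
  have h15 : (1944 : ZMod 2311) - 1186 = 2 * 379 := by decide +kernel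
  have h16 : (1944 : ZMod 2311) + 1186 = 2 * 1565 := by decide +kernel
  have hs : (3 : ZMod 2311) = 1 - (2095 + 214 + 943 + 2064 + 1613 + 4462 + 1528 + 3566 + 3614 + 1432 + 3888) := by decide +kernel
  linear_combination -(((uv (v 0) i : ZMod 2311) - 1) * h0 + ((uv (v 1) i : ZMod 2311) - 1) * h1 + ((uv (v 2) i : ZMod 2311) - 1) * h2 + ((uv (v 3) i : ZMod 2311) - 1) * h3 + ((uv (v 4) i : ZMod 2311) - 1) * h4 + ((uv (v 5) i : ZMod 2311) - 1) * h5 + ((uv (v 6) i : ZMod 2311) - 1) * h6 + ((uv (v 7) i : ZMod 2311) - 1) * h7 + ((uv (v 8) i : ZMod 2311) - 1) * h8 + ((uv (v 9) i : ZMod 2311) - 1) * h9 + ((uv (v 10) i : ZMod 2311) - 1) * h10 + ((uv (v 11) i : ZMod 2311) - 1) * h11 + ((uv (v 12) i : ZMod 2311) - 1) * h12 + ((uv (v 13) i : ZMod 2311) - 1) * h13 + ((uv (v 14) i : ZMod 2311) - 1) * h14 + ((uv (v 15) i : ZMod 2311) - 1) * h15 + ((uv (v 16) i : ZMod 2311) - 1) * h16) - hs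

theorem cfgQ_good (v : Fin 17 → Fin 8) (hv : GoodV v) :
    cfgQ (code (xQ v)) (uc (v 5) + uc (v 6))
      (uc (v 7) + uc (v 8)) (uc (v 9) + uc (v 10)) (uc (v 11) + uc (v 12))
      (uc (v 13) + uc (v 14)) (uc (v 15) + uc (v 16)) = false := by
  apply cfgQ_sound _ (xQ_lt v)
  have e1 := hv.ev (ZMod 2311) _ _ alQ gaQ
  have e2 := hv.ev (ZMod 2311) _ _ al4Q gaQ
  rw [xQ_cast, xQ_cast, xQ_cast, xQ_cast] at e1
  rw [xQ_cast4, xQ_cast4, xQ_cast4, xQ_cast4] at e2
  have e3 : (xQ v 0 : ZMod 2311) * qQ v 0 + xQ v 1 * qQ v 1 + xQ v 2 * qQ v 2 + xQ v 3 * qQ v 3 = 0 := by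
    have h4 : (578 : ZMod 2311) * 4 = 1 := by decide +kernel
    linear_combination (578 : ZMod 2311) * e1 - (578 : ZMod 2311) * e2 -
      ((xQ v 0 : ZMod 2311) * qQ v 0 + xQ v 1 * qQ v 1 + xQ v 2 * qQ v 2 + xQ v 3 * qQ v 3) * h4
  rw [← e3]
  unfold dotp qQ
  push_cast
  ring

theorem cfg_false (t2 t3 A1 A2 B1 B2 B3 c12 c13 c11 c21 c22 c23 : ℕ)
    (h2 : t2 = c12 + c22) (h3 : t3 = c13 + c23)
    (hP : cfgP (Nat.add (Nat.add (baseP A1 A2 B1 B2 B3) (e1P c11 c21)) (Nat.add (e2P c12 c22) (e3P c13 c23))) c11 c21 c12 c22 c13 c23 = false)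
    (hQ : cfgQ (Nat.add (Nat.add (baseQ A1 A2 B1 B2 B3) (e1Q c11 c21)) (Nat.add (e2Q c12 c22) (e3Q c13 c23))) c11 c21 c12 c22 c13 c23 = false)
    (hE : leafAll A1 A2 B1 B2 B3 c11 c21 c12 c22 c13 c23 = false) :
    cfg t2 t3 A1 A2 B1 B2 B3 c12 c13 c11 c21 = false := by
  subst h2 h3
  have e2 := nsub c12 c22
  have e3 := nsub c13 c23
  unfold cfg
  rw [e2, e3, hP, hQ, hE]

/-- the main configuration test fails for a solution -/
theorem cfg_good (v : Fin 17 → Fin 8) (hv : GoodV v) (t2 t3 : ℕ)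
    (h2 : t2 = (uc (v 9) + uc (v 10)) + (uc (v 11) + uc (v 12)))
    (h3 : t3 = (uc (v 13) + uc (v 14)) + (uc (v 15) + uc (v 16))) :
    cfg t2 t3 (uc (v 0)) (uc (v 1)) (uc (v 2)) (uc (v 3)) (uc (v 4)) (uc (v 9) + uc (v 10))
      (uc (v 13) + uc (v 14)) (uc (v 5) + uc (v 6)) (uc (v 7) + uc (v 8)) = false := by
  have hP := cfgP_good v hv
  have hQ := cfgQ_good v hv
  have hE := leafAll_sound v hv
  rw [code_xP] at hP
  rw [code_xQ] at hQ
  exact cfg_false t2 t3 _ _ _ _ _ _ _ _ _ _ _ h2 h3 hP hQ hE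

end Pool.Agent.Helper980.W35
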