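import Pool.Agent.Helper980.W35Sound5
set_option autoImplicit false
namespace Pool.Agent.Helper980.W35

theorem brec_true {b c : Bool} (h : (Bool.rec (motive := fun _ => Bool) true c b : Bool) = true)
    (hb : b = true) : c = true := by
  subst hb; exact h

theorem mk1_eq (t : ℕ) : mk1 t =
    msk (fun c => tC (Nat.sub t c)) (fun c => Nat.sub 3280 (c / Lb ^ 8)) CL := rfl

theorem mk3_eq (t : ℕ) : mk3 t =
    msk (fun c => tC (Nat.sub t c)) (fun c => Nat.add 3280 (c / Lb ^ 8)) CL := rfl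

theorem n12b_eq (k : ℕ → ℕ → ℕ → Bool) (t1 r2 : ℕ) (l3 : List ℕ) (m1 m3 : ℕ) :
    n12b k t1 r2 l3 m1 m3 = (Bool.rec (motive := fun _ => Bool) (n13 k t1 r2 l3) true
      (Nat.beq (m3 &&& (m1 <<< (r2 / Lb ^ 8))) 0) : Bool) := rfl

theorem fC_mem {x y : ℕ} (hx : x ∈ CL) (hy : tC y = true) : x ∈ fC (x + y) := by
  apply filt_mem hx
  rw [nsub]; exact hy

theorem fU_mem {x y : ℕ} (hx : x ∈ UL) (hy : tU y = true) : x ∈ fU (x + y) := by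
  apply filt_mem hx
  rw [nsub]; exact hy

theorem n12_sound {k : ℕ → ℕ → ℕ → ℕ → Bool} {t1 r : ℕ} {l2 l3 : List ℕ} {m1 m3 c12 : ℕ}
    (h : n12 k t1 r l2 l3 m1 m3 = true) (hc : c12 ∈ l2) :
    n12b (k c12) t1 (Nat.sub r c12) l3 m1 m3 = true := allN_mem h hc

theorem n13_sound {k : ℕ → ℕ → ℕ → Bool} {t1 r2 : ℕ} {l3 : List ℕ} {c13 : ℕ}
    (h : n13 k t1 r2 l3 = true) (hc : c13 ∈ l3) :
    n11 (k c13) t1 (Nat.sub r2 c13) = true := allN_mem h hc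

theorem node_eq (t1 t2 t3 r A1 A2 B1 B2 B3 : ℕ) : node t1 t2 t3 r A1 A2 B1 B2 B3 =
    n12 (cfg t2 t3 A1 A2 B1 B2 B3) t1 r (fC t2) (fC t3) (mk1 t1) (mk3 t3) := rfl

theorem goA_sound {T0 t1 t2 t3 B1 B2 B3 : ℕ} {l : List ℕ} (h : goA T0 t1 t2 t3 B1 B2 B3 l = true)
    {R1 A1 : ℕ} (hl : R1 ∈ l) (hA : A1 ∈ fU T0) :
    node t1 t2 t3 (Nat.sub R1 A1) A1 (Nat.sub T0 A1) B1 B2 B3 = true :=
  allN_mem (allN_mem h hl) hA

theorem goB3_sound {T0 T1 T2 T3 : ℕ} {l : List ℕ} {B1 B2 B3 : ℕ}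
    (h : goB3 T0 T1 T2 T3 l B1 B2 B3 = true) (hB : tU B3 = true) :
    goA T0 (Nat.sub T1 B1) (Nat.sub T2 B2) (Nat.sub T3 B3) B1 B2 B3 l = true := brec_true h hB

theorem goB2_sound {T0 T1 T2 T3 : ℕ} {l : List ℕ} {R0 B1 B2 : ℕ}
    (h : goB2 T0 T1 T2 T3 l R0 B1 = true) (hB : B2 ∈ UL) :
    goB3 T0 T1 T2 T3 l B1 B2 (Nat.sub R0 B2) = true := allN_mem h hB

theorem goG_sound {T0 T1 T2 T3 : ℕ} {l : List ℕ} {R0 B1 : ℕ}
    (h : goG T0 T1 T2 T3 R0 l = true) (hB : B1 ∈ UL) :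
    goB2 T0 T1 T2 T3 l (Nat.sub R0 B1) B1 = true := allN_mem h hB

theorem n11_sound {k : ℕ → ℕ → Bool} {t1 c11 : ℕ} (h : n11 k t1 c11 = true) (hc : tC c11 = true) :
    n21 k c11 (Nat.sub t1 c11) = true := brec_true h hc

theorem n21_sound {k : ℕ → ℕ → Bool} {c11 c21 : ℕ} (h : n21 k c11 c21 = true) (hc : tC c21 = true) :
    k c11 c21 = true := brec_true h hc

theorem search_sound (T0 T1 T2 T3 : ℕ) (G : List (ℕ × List ℕ)) (h : searchT T0 T1 T2 T3 G = true)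
    (A1 A2 B1 B2 B3 c11 c21 c12 c22 c13 c23 R0 R1 : ℕ) (l : List ℕ)
    (hG : (R0, l) ∈ G) (hl : R1 ∈ l)
    (hA1 : A1 ∈ UL) (hA2 : tU A2 = true) (hB1 : B1 ∈ UL) (hB2 : B2 ∈ UL) (hB3 : tU B3 = true)
    (m11 : c11 ∈ CL) (t11 : tC c11 = true) (t21 : tC c21 = true)
    (m12 : c12 ∈ CL) (t22 : tC c22 = true) (m13 : c13 ∈ CL) (t23 : tC c23 = true)
    (eT0 : T0 = A1 + A2) (eT1 : T1 = B1 + (c11 + c21)) (eT2 : T2 = B2 + (c12 + c22))
    (eT3 : T3 = B3 + (c13 + c23)) (eR0 : R0 = B1 + (B2 + B3)) (eR1 : R1 = A1 + (c12 + (c13 + c11)))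
    (hq1 : c11 / Lb ^ 8 ≤ 3280) (hq2 : (c13 + c11) / Lb ^ 8 = c13 / Lb ^ 8 + c11 / Lb ^ 8) :
    cfg (c12 + c22) (c13 + c23) A1 A2 B1 B2 B3 c12 c13 c11 c21 = true := by
  have h1 : goG T0 T1 T2 T3 R0 l = true := allG_mem h hG
  have h2 := goG_sound h1 hB1
  rw [eR0, nsub] at h2
  have h3 := goB2_sound h2 hB2
  rw [nsub] at h3
  have h4 := goB3_sound h3 hB3
  rw [eT0, eT1, eT2, eT3, nsub, nsub, nsub] at h4
  have h6 := goA_sound h4 hl (fU_mem hA1 hA2)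
  rw [eR1, nsub, nsub, node_eq] at h6
  have h7 := n12_sound h6 (fC_mem m12 t22)
  rw [nsub, n12b_eq] at h7
  have b3 : Nat.testBit (mk3 (c13 + c23)) (3280 + c13 / Lb ^ 8) = true := by
    rw [mk3_eq]
    exact msk_bit (f := fun c => tC (Nat.sub (c13 + c23) c))
      (g := fun c => Nat.add 3280 (c / Lb ^ 8)) m13
      (by show tC (Nat.sub (c13 + c23) c13) = true; rw [nsub]; exact t23)
  have b1 : Nat.testBit (mk1 (c11 + c21)) (3280 - c11 / Lb ^ 8) = true := by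
    rw [mk1_eq]
    exact msk_bit (f := fun c => tC (Nat.sub (c11 + c21) c))
      (g := fun c => Nat.sub 3280 (c / Lb ^ 8)) m11
      (by show tC (Nat.sub (c11 + c21) c11) = true; rw [nsub]; exact t21)
  have b13 : Nat.testBit (mk3 (c13 + c23) &&& (mk1 (c11 + c21) <<< ((c13 + c11) / Lb ^ 8)))
      (3280 + c13 / Lb ^ 8) = true := by
    rw [Nat.testBit_and, b3, Nat.testBit_shiftLeft, hq2]
    have e1 : 3280 + c13 / Lb ^ 8 ≥ c13 / Lb ^ 8 + c11 / Lb ^ 8 := by omega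
    have e2 : 3280 + c13 / Lb ^ 8 - (c13 / Lb ^ 8 + c11 / Lb ^ 8) = 3280 - c11 / Lb ^ 8 := by omega
    rw [e2, b1]
    simp [e1]
  have hne : Nat.beq (mk3 (c13 + c23) &&& (mk1 (c11 + c21) <<< ((c13 + c11) / Lb ^ 8))) 0 = false := by
    cases hb : Nat.beq (mk3 (c13 + c23) &&& (mk1 (c11 + c21) <<< ((c13 + c11) / Lb ^ 8))) 0 with
    | false => rfl
    | true =>
      have h9 := Nat.eq_of_beq_eq_true hb
      rw [h9] at b13
      simp at b13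
  rw [hne] at h7
  have h8 := n13_sound h7 (fC_mem m13 t23)
  rw [nsub] at h8
  have h9 := n11_sound h8 t11
  rw [nsub] at h9
  exact n21_sound h9 t21

theorem uc2_div (a b : Fin 8) : (uc a + uc b) / Lb ^ 8 ≤ 3280 := by
  revert a b; decide +kernel

theorem uc2_mod (a b : Fin 8) : 2 * ((uc a + uc b) % Lb ^ 8) < Lb ^ 8 := by
  revert a b; decide +kernel

theorem div_add_of_mod {x y m : ℕ} (hx : 2 * (x % m) < m) (hy : 2 * (y % m) < m) :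
    (x + y) / m = x / m + y / m := by
  have hm : 0 < m := by omega
  rw [Nat.add_div hm, if_neg (by omega)]
  rfl

/-- no solution with the given marginals -/
theorem search_good (v : Fin 17 → Fin 8) (hv : GoodV v) (T0 T1 T2 T3 : ℕ) (G : List (ℕ × List ℕ))
    (h : searchT T0 T1 T2 T3 G = true) (R0 R1 : ℕ) (l : List ℕ)
    (hG : (R0, l) ∈ G) (hl : R1 ∈ l)
    (eT0 : T0 = uc (v 0) + uc (v 1))
    (eT1 : T1 = uc (v 2) + ((uc (v 5) + uc (v 6)) + (uc (v 7) + uc (v 8))))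
    (eT2 : T2 = uc (v 3) + ((uc (v 9) + uc (v 10)) + (uc (v 11) + uc (v 12))))
    (eT3 : T3 = uc (v 4) + ((uc (v 13) + uc (v 14)) + (uc (v 15) + uc (v 16))))
    (eR0 : R0 = uc (v 2) + (uc (v 3) + uc (v 4)))
    (eR1 : R1 = uc (v 0) + ((uc (v 9) + uc (v 10)) + ((uc (v 13) + uc (v 14)) + (uc (v 5) + uc (v 6))))) :
    False := by
  have h1 := search_sound T0 T1 T2 T3 G h _ _ _ _ _ _ _ _ _ _ _ R0 R1 l hG hl
    (uc_mem (v 0)) (uc_tU (v 1)) (uc_mem (v 2)) (uc_mem (v 3)) (uc_tU (v 4))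
    (uc2_mem (v 5) (v 6)) (uc2_tC _ _) (uc2_tC (v 7) (v 8)) (uc2_mem (v 9) (v 10)) (uc2_tC (v 11) (v 12))
    (uc2_mem (v 13) (v 14)) (uc2_tC (v 15) (v 16)) eT0 eT1 eT2 eT3 eR0 eR1 (uc2_div _ _)
    (div_add_of_mod (uc2_mod _ _) (uc2_mod _ _))
  rw [cfg_good v hv _ _ rfl rfl] at h1
  exact absurd h1 (by decide)

end Pool.Agent.Helper980.W35
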