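import Pool.Agent.Helper980.W35Sound6
set_option autoImplicit false
namespace Pool.Agent.Helper980.W35

theorem noTie_true (z : ℕ) : noTie z = true := rfl

theorem kE_eq (ti : ℕ → Bool) (Tl : List (ℕ × ℕ × ℕ)) (T0 T1 T2 X : ℕ) : kE ti Tl T0 T1 T2 X =
  (Bool.rec (motive := fun _ => Bool) true (Bool.rec (motive := fun _ => Bool) true
    (memT T0 T1 T2 Tl) (ti (T0 + (64 * T1 + 4096 * T2)))) (evt X) : Bool) := rfl

theorem kT2_sound {ti : ℕ → Bool} {Tl : List (ℕ × ℕ × ℕ)} {T0 T1 X : ℕ} {l : List ℕ}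
    (h : kT2 ti Tl T0 T1 X l = true) {T2 : ℕ} (hT : T2 ∈ l) :
    kE ti Tl T0 T1 T2 (X + 13700478 * T2) = true := allN_mem h hT

theorem kN2_sound {ti : ℕ → Bool} {Tl : List (ℕ × ℕ × ℕ)} {N n1 T0 T1 X n2 : ℕ} {l : List ℕ}
    (h : kN2 ti Tl N n1 T0 T1 X n2 l = true) (h1 : n1 ≤ n2) (h2 : n1 + (n1 + n2) ≤ N) :
    kT2 ti Tl T0 T1 X l = true := by
  apply brec_true h
  have e1 : Nat.ble n1 n2 = true := Nat.ble_eq_true_of_le h1
  have e2 : Nat.ble (Nat.add n1 (Nat.add n1 n2)) N = true := Nat.ble_eq_true_of_le h2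
  rw [e1, e2]; rfl

theorem kT1_sound {ti : ℕ → Bool} {Tl : List (ℕ × ℕ × ℕ)} {N n1 T0 X T1 : ℕ}
    (h : kT1 ti Tl N n1 T0 X T1 = true) {n2 : ℕ} {l : List ℕ} (hl : (n2, l) ∈ QL) :
    kN2 ti Tl N n1 T0 T1 (X + 2494133 * T1) n2 l = true := allG_mem h hl

theorem kN1_sound {ti : ℕ → Bool} {Tl : List (ℕ × ℕ × ℕ)} {N n1 T0 X : ℕ} {l : List ℕ}
    (h : kN1 ti Tl N T0 X n1 l = true) {T1 : ℕ} (hl : T1 ∈ l) :
    kT1 ti Tl N n1 T0 X T1 = true := allN_mem h hl

theorem kT0_sound {ti : ℕ → Bool} {Tl : List (ℕ × ℕ × ℕ)} {S T0 N : ℕ}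
    (h : kT0 ti Tl S T0 N = true) {n1 : ℕ} {l : List ℕ} (hl : (n1, l) ∈ QS) :
    kN1 ti Tl N T0 ((32983207507658788021007302457644204987060787472937988446295128191059780337859688511429222099216485717394675737948665915807170990295076369094316427407242371460 + 4 * T0) + 194306 * Nat.sub S T0) n1 l = true := allG_mem h hl

theorem chkT_sound {ti : ℕ → Bool} {Tl : List (ℕ × ℕ × ℕ)} {S : ℕ} (h : chkT ti Tl S = true)
    {T0 T1 T2 T3 N n1 n2 : ℕ} {l1 l2 : List ℕ} (hP : (T0, N) ∈ PL2) (h1 : (n1, l1) ∈ QS)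
    (hT1 : T1 ∈ l1) (h2 : (n2, l2) ∈ QL) (hT2 : T2 ∈ l2) (hn : n1 ≤ n2) (hN : n1 + (n1 + n2) ≤ N)
    (hS : S = T0 + (T1 + T2 + T3))
    (hev : evt ((((32983207507658788021007302457644204987060787472937988446295128191059780337859688511429222099216485717394675737948665915807170990295076369094316427407242371460 + 4 * T0) + 194306 * (T1 + T2 + T3)) + 2494133 * T1) + 13700478 * T2) = true)
    (hti : ti (T0 + (64 * T1 + 4096 * T2)) = true) : (T0, T1, T2) ∈ Tl := by
  have e0 : kT0 ti Tl S T0 N = true := allP_mem h hP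
  have e1 := kT0_sound e0 h1
  rw [hS, nsub] at e1
  have e2 := kN1_sound e1 hT1
  have e3 := kT1_sound e2 h2
  have e4 := kN2_sound e3 hn hN
  have e5 := kT2_sound e4 hT2
  rw [kE_eq] at e5
  exact memT_sound (brec_true (brec_true e5 hev) hti)

theorem rE_eq (G : List (ℕ × List ℕ)) (R0 R1 X : ℕ) : rE G R0 R1 X =
  (Bool.rec (motive := fun _ => Bool) true (memR R0 R1 G) (evt X) : Bool) := rfl

theorem rN1_sound {G : List (ℕ × List ℕ)} {NN R0 X n1 : ℕ} {l : List ℕ}
    (h : rN1 G NN R0 X n1 l = true) (hn : n1 + n1 ≤ NN) {R1 : ℕ} (hR : R1 ∈ l) :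
    rE G R0 R1 (X + 1220482 * R1) = true := by
  have e1 : Nat.ble (Nat.add n1 n1) NN = true := Nat.ble_eq_true_of_le hn
  have e2 := brec_true h e1
  exact allN_mem e2 hR

theorem rR0_sound {G : List (ℕ × List ℕ)} {S R0 NN : ℕ} (h : rR0 G S R0 NN = true)
    {n1 : ℕ} {l : List ℕ} (hl : (n1, l) ∈ QR) :
    rN1 G NN R0 ((32983207507658788021007302457644204987060787472937988446295128191059780337859688511429222099216485717394675737948665915807170990295076369094316427407242371460 + 4 * R0) + 16167289 * Nat.sub S R0) n1 l = true := allG_mem h hl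

theorem chkR_sound {G : List (ℕ × List ℕ)} {S : ℕ} (h : chkR G S = true)
    {R0 R1 R2 NN n1 : ℕ} {l1 : List ℕ} (hP : (R0, NN) ∈ PL3) (h1 : (n1, l1) ∈ QR)
    (hR1 : R1 ∈ l1) (hn : n1 + n1 ≤ NN) (hS : S = R0 + (R1 + R2))
    (hev : evt (((32983207507658788021007302457644204987060787472937988446295128191059780337859688511429222099216485717394675737948665915807170990295076369094316427407242371460 + 4 * R0) + 16167289 * (R1 + R2)) + 1220482 * R1) = true) :
    ∃ l, (R0, l) ∈ G ∧ R1 ∈ l := by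
  have e0 : rR0 G S R0 NN = true := allP_mem h hP
  have e1 := rR0_sound e0 h1
  rw [hS, nsub] at e1
  have e2 := rN1_sound e1 hn hR1
  rw [rE_eq] at e2
  exact memR_sound (brec_true e2 hev)

/-! ### marginals -/

def T0v (v : Fin 17 → Fin 8) (i : Fin 4) : ℕ := uv (v 0) i + uv (v 1) i
def T1v (v : Fin 17 → Fin 8) (i : Fin 4) : ℕ :=
  uv (v 2) i + ((uv (v 5) i + uv (v 6) i) + (uv (v 7) i + uv (v 8) i))
def T2v (v : Fin 17 → Fin 8) (i : Fin 4) : ℕ :=
  uv (v 3) i + ((uv (v 9) i + uv (v 10) i) + (uv (v 11) i + uv (v 12) i))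
def T3v (v : Fin 17 → Fin 8) (i : Fin 4) : ℕ :=
  uv (v 4) i + ((uv (v 13) i + uv (v 14) i) + (uv (v 15) i + uv (v 16) i))
def R0v (v : Fin 17 → Fin 8) (i : Fin 4) : ℕ := uv (v 2) i + (uv (v 3) i + uv (v 4) i)
def R1v (v : Fin 17 → Fin 8) (i : Fin 4) : ℕ :=
  uv (v 0) i + ((uv (v 9) i + uv (v 10) i) + ((uv (v 13) i + uv (v 14) i) + (uv (v 5) i + uv (v 6) i)))
def R2v (v : Fin 17 → Fin 8) (i : Fin 4) : ℕ :=
  uv (v 1) i + ((uv (v 11) i + uv (v 12) i) + ((uv (v 15) i + uv (v 16) i) + (uv (v 7) i + uv (v 8) i)))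

theorem code_T0v (v : Fin 17 → Fin 8) : code (T0v v) = uc (v 0) + uc (v 1) := by
  simp only [T0v, uc, code]; ring
theorem code_T1v (v : Fin 17 → Fin 8) : code (T1v v) =
    uc (v 2) + ((uc (v 5) + uc (v 6)) + (uc (v 7) + uc (v 8))) := by
  simp only [T1v, uc, code]; ring
theorem code_T2v (v : Fin 17 → Fin 8) : code (T2v v) =
    uc (v 3) + ((uc (v 9) + uc (v 10)) + (uc (v 11) + uc (v 12))) := by
  simp only [T2v, uc, code]; ring
theorem code_T3v (v : Fin 17 → Fin 8) : code (T3v v) =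
    uc (v 4) + ((uc (v 13) + uc (v 14)) + (uc (v 15) + uc (v 16))) := by
  simp only [T3v, uc, code]; ring
theorem code_R0v (v : Fin 17 → Fin 8) : code (R0v v) = uc (v 2) + (uc (v 3) + uc (v 4)) := by
  simp only [R0v, uc, code]; ring
theorem code_R1v (v : Fin 17 → Fin 8) : code (R1v v) =
    uc (v 0) + ((uc (v 9) + uc (v 10)) + ((uc (v 13) + uc (v 14)) + (uc (v 5) + uc (v 6)))) := by
  simp only [R1v, uc, code]; ring

/-- lanes of the T-test -/
def xT (v : Fin 17 → Fin 8) (i : Fin 4) : ℕ :=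
  (((3 + 4 * T0v v i) + 194306 * (T1v v i + T2v v i + T3v v i)) + 2494133 * T1v v i) + 13700478 * T2v v i

theorem xT_lt (v : Fin 17 → Fin 8) (i : Fin 4) : xT v i < 2 ^ 30 := by
  have h0 := uv_le (v 0) i
  have h1 := uv_le (v 1) i
  have h2 := uv_le (v 2) i
  have h3 := uv_le (v 3) i
  have h4 := uv_le (v 4) i
  have h5 := uv_le (v 5) i
  have h6 := uv_le (v 6) i
  have h7 := uv_le (v 7) i
  have h8 := uv_le (v 8) i
  have h9 := uv_le (v 9) i
  have h10 := uv_le (v 10) i
  have h11 := uv_le (v 11) i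
  have h12 := uv_le (v 12) i
  have h13 := uv_le (v 13) i
  have h14 := uv_le (v 14) i
  have h15 := uv_le (v 15) i
  have h16 := uv_le (v 16) i
  unfold xT T0v T1v T2v T3v
  omega

theorem code_xT (v : Fin 17 → Fin 8) : code (xT v) =
    (((32983207507658788021007302457644204987060787472937988446295128191059780337859688511429222099216485717394675737948665915807170990295076369094316427407242371460 + 4 * code (T0v v)) + 194306 * (code (T1v v) + code (T2v v) + code (T3v v))) +
      2494133 * code (T1v v)) + 13700478 * code (T2v v) := by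
  rw [three_ones]
  simp only [xT, code]
  ring

theorem oneE (n : ℕ) : (1 : ZMod 16777531) ^ n = 1 := one_pow n

theorem betaT : beta (1 : ZMod 16777531) (10666388 : ZMod 16777531) = ![2, 2, 9732985, 6947392, 97153, 9732985, 9732985, 9732985, 9732985, 6947392, 6947392, 6947392, 6947392, 97153, 97153, 97153, 97153] := by
  funext k
  fin_cases k <;> decide +kernel

theorem betaR : beta (6520467 : ZMod 16777531) (1 : ZMod 16777531) = ![305120, 16472410, 2, 2, 2, 305120, 305120, 16472410, 16472410, 305120, 305120, 16472410, 16472410, 305120, 305120, 16472410, 16472410] := by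
  funext k
  fin_cases k <;> decide +kernel

theorem xT_cast (v : Fin 17 → Fin 8) (i : Fin 4) :
    ((xT v i : ℕ) : ZMod 16777531) = lanev v (1 : ZMod 16777531) (10666388 : ZMod 16777531) i := by
  rw [lanev_expand v _ _ i _ _ _ _ _ _ _ _ _ _ _ _ _ _ _ _ _ betaT]
  unfold xT T0v T1v T2v T3v
  push_cast
  have a1 : (194306 : ZMod 16777531) + 2494133 = 2 * 9732985 := by decide +kernel
  have a2 : (194306 : ZMod 16777531) + 13700478 = 2 * 6947392 := by decide +kernel
  have a3 : (194306 : ZMod 16777531) = 2 * 97153 := by decide +kernel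
  have hs : (3 : ZMod 16777531) = 1 - (8 + 10 * (9732985 + 6947392 + 97153)) := by decide +kernel
  linear_combination ((uv (v 2) i : ZMod 16777531) + ((uv (v 5) i + uv (v 6) i) + (uv (v 7) i + uv (v 8) i))) * a1 +
    ((uv (v 3) i : ZMod 16777531) + ((uv (v 9) i + uv (v 10) i) + (uv (v 11) i + uv (v 12) i))) * a2 +
    ((uv (v 4) i : ZMod 16777531) + ((uv (v 13) i + uv (v 14) i) + (uv (v 15) i + uv (v 16) i))) * a3 + hs

theorem evt_T (v : Fin 17 → Fin 8) (hv : GoodV v) :
    evt ((((32983207507658788021007302457644204987060787472937988446295128191059780337859688511429222099216485717394675737948665915807170990295076369094316427407242371460 + 4 * code (T0v v)) + 194306 * (code (T1v v) + code (T2v v) + code (T3v v))) +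
      2494133 * code (T1v v)) + 13700478 * code (T2v v)) = true := by
  rw [← code_xT]
  apply evt_sound _ (xT_lt v)
  rw [xT_cast, xT_cast, xT_cast, xT_cast]
  exact hv.ev (ZMod 16777531) _ _ (oneE 5) gaE

/-- lanes of the R-test -/
def xR (v : Fin 17 → Fin 8) (i : Fin 4) : ℕ :=
  ((3 + 4 * R0v v i) + 16167289 * (R1v v i + R2v v i)) + 1220482 * R1v v i

theorem xR_lt (v : Fin 17 → Fin 8) (i : Fin 4) : xR v i < 2 ^ 30 := by
  have h0 := uv_le (v 0) i
  have h1 := uv_le (v 1) i
  have h2 := uv_le (v 2) i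
  have h3 := uv_le (v 3) i
  have h4 := uv_le (v 4) i
  have h5 := uv_le (v 5) i
  have h6 := uv_le (v 6) i
  have h7 := uv_le (v 7) i
  have h8 := uv_le (v 8) i
  have h9 := uv_le (v 9) i
  have h10 := uv_le (v 10) i
  have h11 := uv_le (v 11) i
  have h12 := uv_le (v 12) i
  have h13 := uv_le (v 13) i
  have h14 := uv_le (v 14) i
  have h15 := uv_le (v 15) i
  have h16 := uv_le (v 16) i
  unfold xR R0v R1v R2v
  omega

theorem code_xR (v : Fin 17 → Fin 8) : code (xR v) =
    ((32983207507658788021007302457644204987060787472937988446295128191059780337859688511429222099216485717394675737948665915807170990295076369094316427407242371460 + 4 * code (R0v v)) + 16167289 * (code (R1v v) + code (R2v v))) + 1220482 * code (R1v v) := by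
  rw [three_ones]
  simp only [xR, code]
  ring

theorem xR_cast (v : Fin 17 → Fin 8) (i : Fin 4) :
    ((xR v i : ℕ) : ZMod 16777531) = lanev v (6520467 : ZMod 16777531) (1 : ZMod 16777531) i := by
  rw [lanev_expand v _ _ i _ _ _ _ _ _ _ _ _ _ _ _ _ _ _ _ _ betaR]
  unfold xR R0v R1v R2v
  push_cast
  have a1 : (16167289 : ZMod 16777531) + 1220482 = 2 * 305120 := by decide +kernel
  have a2 : (16167289 : ZMod 16777531) = 2 * 16472410 := by decide +kernel
  have hs : (3 : ZMod 16777531) = 1 - (12 + 14 * (305120 + 16472410)) := by decide +kernel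
  linear_combination ((uv (v 0) i : ZMod 16777531) + ((uv (v 9) i + uv (v 10) i) + ((uv (v 13) i + uv (v 14) i) + (uv (v 5) i + uv (v 6) i)))) * a1 +
    ((uv (v 1) i : ZMod 16777531) + ((uv (v 11) i + uv (v 12) i) + ((uv (v 15) i + uv (v 16) i) + (uv (v 7) i + uv (v 8) i)))) * a2 + hs

theorem evt_R (v : Fin 17 → Fin 8) (hv : GoodV v) :
    evt (((32983207507658788021007302457644204987060787472937988446295128191059780337859688511429222099216485717394675737948665915807170990295076369094316427407242371460 + 4 * code (R0v v)) + 16167289 * (code (R1v v) + code (R2v v))) + 1220482 * code (R1v v)) = true := by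
  rw [← code_xR]
  apply evt_sound _ (xR_lt v)
  rw [xR_cast, xR_cast, xR_cast, xR_cast]
  exact hv.ev (ZMod 16777531) _ _ alE (oneE 7)

end Pool.Agent.Helper980.W35
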