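import Pool.Agent.Helper980.W35Sound7
import Pool.Agent.Helper980.W35All
import Pool.Agent.Helper980.W35K0
import Pool.Agent.Helper980.W35K1
import Pool.Agent.Helper980.W35K2
import Pool.Agent.Helper980.W35K3
set_option autoImplicit false
namespace Pool.Agent.Helper980.W35

/-- squared norm of the shifted vector -/
def nrm (c : ℤ) (x : Fin 4 → ℕ) : ℤ :=
  ((x 0 : ℤ) - c) ^ 2 + ((x 1 : ℤ) - c) ^ 2 + ((x 2 : ℤ) - c) ^ 2 + ((x 3 : ℤ) - c) ^ 2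

def sq7 (a : Fin 7) : ℕ := (a.val * a.val + 9) - 6 * a.val

theorem sq7_eq (a : Fin 7) : ((sq7 a : ℕ) : ℤ) = ((a.val : ℤ) - 3) ^ 2 := by
  revert a; decide

theorem code_vec (x : Fin 4 → ℕ) : code x = code ![x 0, x 1, x 2, x 3] := by
  simp [code]

theorem QL_chk : ∀ a b c d : Fin 7, (sq7 a + sq7 b + sq7 c + sq7 d) % 2 = 1 →
    sq7 a + sq7 b + sq7 c + sq7 d ≤ 15 →
    memR (sq7 a + sq7 b + sq7 c + sq7 d) (code ![2 + a.val, 2 + b.val, 2 + c.val, 2 + d.val]) QL = true := by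
  decide +kernel

theorem QS_chk : ∀ a b c d : Fin 7, (sq7 a + sq7 b + sq7 c + sq7 d) % 2 = 1 →
    sq7 a + sq7 b + sq7 c + sq7 d ≤ 5 →
    memR (sq7 a + sq7 b + sq7 c + sq7 d) (code ![2 + a.val, 2 + b.val, 2 + c.val, 2 + d.val]) QS = true := by
  decide +kernel

theorem QR_chk : ∀ a b c d : Fin 7, (sq7 a + sq7 b + sq7 c + sq7 d) % 2 = 1 →
    sq7 a + sq7 b + sq7 c + sq7 d ≤ 7 →
    memR (sq7 a + sq7 b + sq7 c + sq7 d) (code ![4 + a.val, 4 + b.val, 4 + c.val, 4 + d.val]) QR = true := by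
  decide +kernel

def nT0 (a b : Fin 8) : ℤ := (4 * ((uv a 0 : ℤ) + uv b 0) - 7) ^ 2 + (4 * ((uv a 1 : ℤ) + uv b 1) - 7) ^ 2 +
  (4 * ((uv a 2 : ℤ) + uv b 2) - 7) ^ 2 + (4 * ((uv a 3 : ℤ) + uv b 3) - 7) ^ 2

theorem PL2_chk : ∀ a b : Fin 8, (uc a + uc b, ((140 - nT0 a b) / 8).toNat) ∈ PL2 ∧
    nT0 a b + 8 * (((140 - nT0 a b) / 8).toNat : ℤ) = 140 := by
  decide +kernel

def nR0 (a b c : Fin 8) : ℤ := (4 * ((uv a 0 : ℤ) + (uv b 0 + uv c 0)) - 11) ^ 2 +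
  (4 * ((uv a 1 : ℤ) + (uv b 1 + uv c 1)) - 11) ^ 2 +
  (4 * ((uv a 2 : ℤ) + (uv b 2 + uv c 2)) - 11) ^ 2 + (4 * ((uv a 3 : ℤ) + (uv b 3 + uv c 3)) - 11) ^ 2

theorem PL3_chk : ∀ a b c : Fin 8, nR0 a b c ≤ 124 →
    (uc a + (uc b + uc c), ((140 - nR0 a b c) / 8).toNat) ∈ PL3 ∧
    nR0 a b c + 8 * (((140 - nR0 a b c) / 8).toNat : ℤ) = 140 := by
  decide +kernel


theorem sq_aux (x : ℕ) (c : ℤ) (o : ℕ) (hc : c = o + 3) (h : ((x : ℤ) - c) ^ 2 ≤ 15) :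
    ∃ a : Fin 7, x = o + a.val ∧ ((x : ℤ) - c) ^ 2 = sq7 a := by
  have h1 : (x : ℤ) - c ≤ 3 := by nlinarith
  have h2 : -3 ≤ (x : ℤ) - c := by nlinarith
  have h3 : o ≤ x := by omega
  obtain ⟨y, rfl⟩ := Nat.exists_eq_add_of_le h3
  have h4 : y < 7 := by push_cast at h1; omega
  refine ⟨⟨y, h4⟩, rfl, ?_⟩
  rw [sq7_eq]
  push_cast
  rw [hc]
  ring

theorem list_aux (G : List (ℕ × List ℕ)) (o B : ℕ) (c : ℤ) (hc : c = o + 3) (hB : B ≤ 15)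
    (hG : ∀ a b c d : Fin 7, (sq7 a + sq7 b + sq7 c + sq7 d) % 2 = 1 →
      sq7 a + sq7 b + sq7 c + sq7 d ≤ B →
      memR (sq7 a + sq7 b + sq7 c + sq7 d) (code ![o + a.val, o + b.val, o + c.val, o + d.val]) G = true)
    (x : Fin 4 → ℕ) (n : ℕ) (hn : nrm c x = n) (hodd : n % 2 = 1) (hnB : n ≤ B) :
    ∃ l, (n, l) ∈ G ∧ code x ∈ l := by
  unfold nrm at hn
  have q0 := sq_nonneg ((x 0 : ℤ) - c)
  have q1 := sq_nonneg ((x 1 : ℤ) - c)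
  have q2 := sq_nonneg ((x 2 : ℤ) - c)
  have q3 := sq_nonneg ((x 3 : ℤ) - c)
  obtain ⟨a0, e0, f0⟩ := sq_aux (x 0) c o hc (by omega)
  obtain ⟨a1, e1, f1⟩ := sq_aux (x 1) c o hc (by omega)
  obtain ⟨a2, e2, f2⟩ := sq_aux (x 2) c o hc (by omega)
  obtain ⟨a3, e3, f3⟩ := sq_aux (x 3) c o hc (by omega)
  have hs : sq7 a0 + sq7 a1 + sq7 a2 + sq7 a3 = n := by
    rw [f0, f1, f2, f3] at hn
    exact_mod_cast hn
  have h := hG a0 a1 a2 a3 (by rw [hs]; exact hodd) (by rw [hs]; exact hnB)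
  rw [hs, ← e0, ← e1, ← e2, ← e3, ← code_vec] at h
  exact memR_sound h

theorem uv_odd (a : Fin 8) : (uv a 0 + uv a 1 + uv a 2 + uv a 3) % 2 = 1 := by
  revert a; decide

theorem sq_par (t : ℤ) : t ^ 2 % 2 = t % 2 := by
  rcases Int.emod_two_eq_zero_or_one t with h | h
  · rw [sq, Int.mul_emod, h]; rfl
  · rw [sq, Int.mul_emod, h]; rfl

theorem nrm_odd (c : ℤ) (x : Fin 4 → ℕ) (hx : (x 0 + x 1 + x 2 + x 3) % 2 = 1) (n : ℕ)
    (hn : nrm c x = n) : n % 2 = 1 := by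
  unfold nrm at hn
  have h0 := sq_par ((x 0 : ℤ) - c)
  have h1 := sq_par ((x 1 : ℤ) - c)
  have h2 := sq_par ((x 2 : ℤ) - c)
  have h3 := sq_par ((x 3 : ℤ) - c)
  omega

/-- vector solutions with the two norm equations -/
structure GoodN (v : Fin 17 → Fin 8) : Prop extends GoodV v where
  nT : (4 * (T0v v 0 : ℤ) - 7) ^ 2 + (4 * (T0v v 1 : ℤ) - 7) ^ 2 + (4 * (T0v v 2 : ℤ) - 7) ^ 2 +
    (4 * (T0v v 3 : ℤ) - 7) ^ 2 + 8 * (nrm 5 (T1v v) + nrm 5 (T2v v) + nrm 5 (T3v v)) = 140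
  nR : (4 * (R0v v 0 : ℤ) - 11) ^ 2 + (4 * (R0v v 1 : ℤ) - 11) ^ 2 + (4 * (R0v v 2 : ℤ) - 11) ^ 2 +
    (4 * (R0v v 3 : ℤ) - 11) ^ 2 + 8 * (nrm 7 (R1v v) + nrm 7 (R2v v)) = 140

theorem T1v_odd (v : Fin 17 → Fin 8) : (T1v v 0 + T1v v 1 + T1v v 2 + T1v v 3) % 2 = 1 := by
  have h1 := uv_odd (v 2); have h2 := uv_odd (v 5); have h3 := uv_odd (v 6)
  have h4 := uv_odd (v 7); have h5 := uv_odd (v 8)
  unfold T1v; omega
theorem T2v_odd (v : Fin 17 → Fin 8) : (T2v v 0 + T2v v 1 + T2v v 2 + T2v v 3) % 2 = 1 := by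
  have h1 := uv_odd (v 3); have h2 := uv_odd (v 9); have h3 := uv_odd (v 10)
  have h4 := uv_odd (v 11); have h5 := uv_odd (v 12)
  unfold T2v; omega
theorem T3v_odd (v : Fin 17 → Fin 8) : (T3v v 0 + T3v v 1 + T3v v 2 + T3v v 3) % 2 = 1 := by
  have h1 := uv_odd (v 4); have h2 := uv_odd (v 13); have h3 := uv_odd (v 14)
  have h4 := uv_odd (v 15); have h5 := uv_odd (v 16)
  unfold T3v; omega
theorem R1v_odd (v : Fin 17 → Fin 8) : (R1v v 0 + R1v v 1 + R1v v 2 + R1v v 3) % 2 = 1 := by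
  have h1 := uv_odd (v 0); have h2 := uv_odd (v 9); have h3 := uv_odd (v 10)
  have h4 := uv_odd (v 13); have h5 := uv_odd (v 14); have h6 := uv_odd (v 5); have h7 := uv_odd (v 6)
  unfold R1v; omega
theorem R2v_odd (v : Fin 17 → Fin 8) : (R2v v 0 + R2v v 1 + R2v v 2 + R2v v 3) % 2 = 1 := by
  have h1 := uv_odd (v 1); have h2 := uv_odd (v 11); have h3 := uv_odd (v 12)
  have h4 := uv_odd (v 15); have h5 := uv_odd (v 16); have h6 := uv_odd (v 7); have h7 := uv_odd (v 8)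
  unfold R2v; omega

theorem nrm_nonneg (c : ℤ) (x : Fin 4 → ℕ) : 0 ≤ nrm c x := by unfold nrm; positivity

theorem nrm_pos_nat (c : ℤ) (x : Fin 4 → ℕ) (hx : (x 0 + x 1 + x 2 + x 3) % 2 = 1) :
    ∃ n : ℕ, nrm c x = n ∧ n % 2 = 1 := by
  obtain ⟨n, hn⟩ := Int.eq_ofNat_of_zero_le (nrm_nonneg c x)
  exact ⟨n, hn, nrm_odd c x hx n hn⟩

/-- the tie-break key -/
def keyv (v : Fin 17 → Fin 8) (i : Fin 4) : ℕ := T0v v i + (64 * T1v v i + 4096 * T2v v i)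

/-- total -/
def Sv (v : Fin 17 → Fin 8) (i : Fin 4) : ℕ := T0v v i + (T1v v i + T2v v i + T3v v i)

theorem code_Sv (v : Fin 17 → Fin 8) : code (Sv v) =
    code (T0v v) + (code (T1v v) + code (T2v v) + code (T3v v)) := by
  simp only [Sv, code]; ring

theorem code_Sv' (v : Fin 17 → Fin 8) : code (Sv v) =
    code (R0v v) + (code (R1v v) + code (R2v v)) := by
  simp only [Sv, T0v, T1v, T2v, T3v, R0v, R1v, R2v, code]; ring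

theorem code_key (v : Fin 17 → Fin 8) : code (keyv v) =
    code (T0v v) + (64 * code (T1v v) + 4096 * code (T2v v)) := by
  simp only [keyv, code]; ring

theorem lane1 (x : Fin 4 → ℕ) (hx : ∀ i, x i < 2 ^ 30) : code x / Lb % Lb = x 1 := by
  have hL : 2 ^ 30 < Lb := by norm_num [Lb]
  have h : code x = x 0 + Lb ^ 1 * x 1 + Lb ^ (1 + 1) * (x 2 + Lb * x 3 + Lb ^ 2 * x 3 + Lb ^ 3 * x 2 +
      Lb ^ 4 * x 1 + Lb ^ 5 * x 0 + Lb ^ 6 * (x 0 + 9 * x 1 + 81 * x 2 + 729 * x 3)) := by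
    simp only [code]; ring
  have h2 := lane_gen Lb (x 0) (x 1) (x 2 + Lb * x 3 + Lb ^ 2 * x 3 + Lb ^ 3 * x 2 +
      Lb ^ 4 * x 1 + Lb ^ 5 * x 0 + Lb ^ 6 * (x 0 + 9 * x 1 + 81 * x 2 + 729 * x 3)) 1
      (by rw [pow_one]; exact lt_trans (hx 0) hL) (lt_trans (hx 1) hL)
  rw [← h, pow_one] at h2
  exact h2

theorem lane2 (x : Fin 4 → ℕ) (hx : ∀ i, x i < 2 ^ 30) : code x / Lb ^ 2 % Lb = x 2 := by
  have hL : 2 ^ 30 < Lb := by norm_num [Lb]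
  have h : code x = (x 0 + Lb * x 1) + Lb ^ 2 * x 2 + Lb ^ (2 + 1) * (x 3 + Lb * x 3 + Lb ^ 2 * x 2 +
      Lb ^ 3 * x 1 + Lb ^ 4 * x 0 + Lb ^ 5 * (x 0 + 9 * x 1 + 81 * x 2 + 729 * x 3)) := by
    simp only [code]; ring
  have h3 : x 0 + Lb * x 1 < Lb ^ (1 + 1) := horner Lb (x 0) (x 1) 1 (lt_trans (hx 0) hL)
    (by rw [pow_one]; exact lt_trans (hx 1) hL)
  have h2 := lane_gen Lb (x 0 + Lb * x 1) (x 2) (x 3 + Lb * x 3 + Lb ^ 2 * x 2 +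
      Lb ^ 3 * x 1 + Lb ^ 4 * x 0 + Lb ^ 5 * (x 0 + 9 * x 1 + 81 * x 2 + 729 * x 3)) 2
      h3 (lt_trans (hx 2) hL)
  rw [← h] at h2
  exact h2

theorem tie_eq (Z : ℕ) : tie Z = Nat.ble (Z / Lb % Lb) (Z / Lb ^ 2 % Lb) := rfl

theorem keyv_lt (v : Fin 17 → Fin 8) (i : Fin 4) : keyv v i < 2 ^ 30 := by
  have h0 := uv_le (v 0) i
  have h1 := uv_le (v 1) i
  have h2 := uv_le (v 2) i
  have h3 := uv_le (v 3) i
  have h5 := uv_le (v 5) i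
  have h6 := uv_le (v 6) i
  have h7 := uv_le (v 7) i
  have h8 := uv_le (v 8) i
  have h9 := uv_le (v 9) i
  have h10 := uv_le (v 10) i
  have h11 := uv_le (v 11) i
  have h12 := uv_le (v 12) i
  unfold keyv T0v T1v T2v
  omega

theorem tie_key (v : Fin 17 → Fin 8) (h : keyv v 1 ≤ keyv v 2) :
    tie (code (T0v v) + (64 * code (T1v v) + 4096 * code (T2v v))) = true := by
  rw [← code_key, tie_eq, lane1 _ (keyv_lt v), lane2 _ (keyv_lt v)]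
  exact Nat.ble_eq_true_of_le h

end Pool.Agent.Helper980.W35
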