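import Pool.Agent.Helper980.W35Sound8
set_option autoImplicit false
namespace Pool.Agent.Helper980.W35

theorem finish (v : Fin 17 → Fin 8) (hv : GoodN v) (ti : ℕ → Bool) (Tl : List (ℕ × ℕ × ℕ))
    (G : List (ℕ × List ℕ)) (S : ℕ) (hT : chkT ti Tl S = true) (hR : chkR G S = true)
    (hall : ∀ T0 T1 T2 T3 : ℕ, (T0, T1, T2) ∈ Tl → T0 + (T1 + T2 + T3) = S →
      searchT T0 T1 T2 T3 G = true) (hS : code (Sv v) = S)
    (hti : ti (code (T0v v) + (64 * code (T1v v) + 4096 * code (T2v v))) = true)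
    (t2 : nrm 5 (T1v v) ≤ nrm 5 (T2v v)) (t3 : nrm 5 (T1v v) ≤ nrm 5 (T3v v))
    (r : nrm 7 (R1v v) ≤ nrm 7 (R2v v)) : False := by
  obtain ⟨n1, e1, o1⟩ := nrm_pos_nat 5 _ (T1v_odd v)
  obtain ⟨n2, e2, o2⟩ := nrm_pos_nat 5 _ (T2v_odd v)
  obtain ⟨n3, e3, o3⟩ := nrm_pos_nat 5 _ (T3v_odd v)
  obtain ⟨m1, f1, p1⟩ := nrm_pos_nat 7 _ (R1v_odd v)
  obtain ⟨m2, f2, p2⟩ := nrm_pos_nat 7 _ (R2v_odd v)
  have hnT := hv.nT
  have hnR := hv.nR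
  rw [e1, e2, e3] at hnT
  rw [f1, f2] at hnR
  rw [e1, e2] at t2
  rw [e1, e3] at t3
  rw [f1, f2] at r
  -- T
  obtain ⟨hP, hN⟩ := PL2_chk (v 0) (v 1)
  set N := ((140 - nT0 (v 0) (v 1)) / 8).toNat with hNdef
  have hT0 : (4 * (T0v v 0 : ℤ) - 7) ^ 2 + (4 * (T0v v 1 : ℤ) - 7) ^ 2 + (4 * (T0v v 2 : ℤ) - 7) ^ 2 +
    (4 * (T0v v 3 : ℤ) - 7) ^ 2 = nT0 (v 0) (v 1) := by
    unfold T0v nT0; push_cast; rfl
  rw [hT0] at hnT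
  have hnn : 0 ≤ nT0 (v 0) (v 1) := by unfold nT0; positivity
  obtain ⟨l1, g1, g1'⟩ := list_aux QS 2 5 5 (by norm_num) (by norm_num) QS_chk (T1v v) n1 e1 o1 (by omega)
  obtain ⟨l2, g2, g2'⟩ := list_aux QL 2 15 5 (by norm_num) (by norm_num) QL_chk (T2v v) n2 e2 o2 (by omega)
  rw [← code_T0v] at hP
  have hmem := chkT_sound hT hP g1 g1' g2 g2' (by omega) (by omega)
    (hS.symm.trans (code_Sv v)) (evt_T v hv.toGoodV) hti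
  have hsearch := hall _ _ _ _ hmem ((code_Sv v).symm.trans hS)
  -- R
  have hR0 : (4 * (R0v v 0 : ℤ) - 11) ^ 2 + (4 * (R0v v 1 : ℤ) - 11) ^ 2 + (4 * (R0v v 2 : ℤ) - 11) ^ 2 +
    (4 * (R0v v 3 : ℤ) - 11) ^ 2 = nR0 (v 2) (v 3) (v 4) := by
    unfold R0v nR0; push_cast; rfl
  rw [hR0] at hnR
  obtain ⟨hP3, hNN⟩ := PL3_chk (v 2) (v 3) (v 4) (by omega)
  set NN := ((140 - nR0 (v 2) (v 3) (v 4)) / 8).toNat with hNNdef
  have hnn3 : 0 ≤ nR0 (v 2) (v 3) (v 4) := by unfold nR0; positivity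
  obtain ⟨l3, g3, g3'⟩ := list_aux QR 4 7 7 (by norm_num) (by norm_num) QR_chk (R1v v) m1 f1 p1 (by omega)
  rw [← code_R0v] at hP3
  obtain ⟨l, hl1, hl2⟩ := chkR_sound hR hP3 g3 g3' (by omega)
    (hS.symm.trans (code_Sv' v)) (evt_R v hv.toGoodV)
  exact search_good v hv.toGoodV _ _ _ _ G hsearch _ _ l hl1 hl2 (code_T0v v) (code_T1v v)
    (code_T2v v) (code_T3v v) (code_R0v v) (code_R1v v)

theorem betaZ : beta (1 : ℤ) (1 : ℤ) = ![2, 2, 2, 2, 2, 2, 2, 2, 2, 2, 2, 2, 2, 2, 2, 2, 2] := by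
  funext k
  fin_cases k <;> rfl

theorem lanev_one (v : Fin 17 → Fin 8) (i : Fin 4) :
    lanev v (1 : ℤ) 1 i = 4 * (Sv v i : ℤ) - 67 := by
  rw [lanev_expand v _ _ i _ _ _ _ _ _ _ _ _ _ _ _ _ _ _ _ _ betaZ]
  unfold Sv T0v T1v T2v T3v
  push_cast
  ring

theorem S_chk : ∀ a b c d : Fin 6, a ≤ b → b ≤ c → c ≤ d →
    (4 * (a.val : ℤ) - 11) ^ 2 + (4 * (b.val : ℤ) - 11) ^ 2 + (4 * (c.val : ℤ) - 11) ^ 2 +
      (4 * (d.val : ℤ) - 11) ^ 2 = 140 →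
    (a.val = 1 ∧ b.val = 2 ∧ c.val = 3 ∧ d.val = 5) ∨ (a.val = 0 ∧ b.val = 2 ∧ c.val = 2 ∧ d.val = 3) ∨
    (a.val = 2 ∧ b.val = 4 ∧ c.val = 4 ∧ d.val = 5) := by decide +kernel

theorem S_aux (x : ℕ) (h : (4 * (x : ℤ) - 67) ^ 2 ≤ 140) : ∃ a : Fin 6, x = 14 + a.val := by
  have h1 : 4 * (x : ℤ) - 67 ≤ 11 := by nlinarith
  have h2 : -11 ≤ 4 * (x : ℤ) - 67 := by nlinarith
  exact ⟨⟨x - 14, by omega⟩, by simp only; omega⟩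

theorem S_types (a b c d : ℕ) (h : (4 * (a : ℤ) - 67) ^ 2 + (4 * (b : ℤ) - 67) ^ 2 +
    (4 * (c : ℤ) - 67) ^ 2 + (4 * (d : ℤ) - 67) ^ 2 = 140) (ab : a ≤ b) (bc : b ≤ c) (cd : c ≤ d) :
    (a = 15 ∧ b = 16 ∧ c = 17 ∧ d = 19) ∨ (a = 14 ∧ b = 16 ∧ c = 16 ∧ d = 17) ∨
    (a = 16 ∧ b = 18 ∧ c = 18 ∧ d = 19) := by
  have q0 := sq_nonneg (4 * (a : ℤ) - 67)
  have q1 := sq_nonneg (4 * (b : ℤ) - 67)
  have q2 := sq_nonneg (4 * (c : ℤ) - 67)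
  have q3 := sq_nonneg (4 * (d : ℤ) - 67)
  obtain ⟨a', ha⟩ := S_aux a (by omega)
  obtain ⟨b', hb⟩ := S_aux b (by omega)
  obtain ⟨c', hc⟩ := S_aux c (by omega)
  obtain ⟨d', hd⟩ := S_aux d (by omega)
  have := S_chk a' b' c' d' (by rw [Fin.le_def]; omega) (by rw [Fin.le_def]; omega)
    (by rw [Fin.le_def]; omega) (by rw [ha, hb, hc, hd] at h; push_cast at h; linarith)
  omega

theorem S0_eq : code ![15, 16, 17, 19] = S0 := by decide +kernel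
theorem S1_eq : code ![14, 16, 16, 17] = S1 := by decide +kernel
theorem S2_eq : code ![16, 18, 18, 19] = S2 := by decide +kernel

/-- the main exclusion: no normalised vector solution -/
theorem no_good (v : Fin 17 → Fin 8) (hv : GoodN v) (s01 : Sv v 0 ≤ Sv v 1) (s12 : Sv v 1 ≤ Sv v 2)
    (s23 : Sv v 2 ≤ Sv v 3) (htie : Sv v 1 = Sv v 2 → keyv v 1 ≤ keyv v 2)
    (t2 : nrm 5 (T1v v) ≤ nrm 5 (T2v v)) (t3 : nrm 5 (T1v v) ≤ nrm 5 (T3v v))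
    (r : nrm 7 (R1v v) ≤ nrm 7 (R2v v)) : False := by
  have hev := hv.ev ℤ 1 1 (by norm_num) (by norm_num)
  rw [lanev_one, lanev_one, lanev_one, lanev_one] at hev
  rcases S_types _ _ _ _ hev s01 s12 s23 with ⟨h0, h1, h2, h3⟩ | ⟨h0, h1, h2, h3⟩ | ⟨h0, h1, h2, h3⟩
  · have hS : code (Sv v) = S0 := by rw [code_vec, h0, h1, h2, h3]; exact S0_eq
    exact finish v hv noTie TL0 G0 S0 chkT0 chkR0 allT0 hS rfl t2 t3 r
  · have hS : code (Sv v) = S1 := by rw [code_vec, h0, h1, h2, h3]; exact S1_eq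
    exact finish v hv tie TL1 G1 S1 chkT1 chkR1 allT1 hS (tie_key v (htie (by omega))) t2 t3 r
  · have hS : code (Sv v) = S2 := by rw [code_vec, h0, h1, h2, h3]; exact S2_eq
    exact finish v hv tie TL2 G2 S2 chkT2 chkR2 allT2 hS (tie_key v (htie (by omega))) t2 t3 r

end Pool.Agent.Helper980.W35
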